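import Mathlib
import Pool.Agent.Lib_helper30.BN.Defs
set_option autoImplicit false

namespace Pool.Agent.BN
open Act

variable {V : Type}

theorem geo_row {G : SimpleGraph V} {ph : V → Prop} {k : ℕ} {D : Finset V} {P : V → List Pt}
    {L : List (Act V)} (hG : Geo G ph k D P L) {A B : Act V} (hA : A ∈ L) (hB : B ∈ L) {w : V}
    (hw : w ∈ A.K) : A.row w < B.b1 ∨ B.b2 < A.row w := by
  have hwD : w ∈ D := (hG.win A hA).2.2.1 hw
  by_contra hc
  push Not at hc
  exact (hG.clearP B hB w hwD).2 A.a1 (A.row w) hc.1 hc.2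
    ((hG.own A hA w hw).1 A.a1 le_rfl (hG.win A hA).1.le)

theorem geo_col {G : SimpleGraph V} {ph : V → Prop} {k : ℕ} {D : Finset V} {P : V → List Pt}
    {L : List (Act V)} (hG : Geo G ph k D P L) {A B : Act V} (hA : A ∈ L) (hB : B ∈ L) {w : V}
    (hw : w ∈ A.K) : A.col w < B.a1 ∨ B.a2 < A.col w := by
  have hwD : w ∈ D := (hG.win A hA).2.2.1 hw
  by_contra hc
  push Not at hc
  exact (hG.clearP B hB w hwD).1 (A.col w) A.b1 hc.1 hc.2
    ((hG.own A hA w hw).2 A.b1 le_rfl (hG.win A hA).2.1.le)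

theorem geo_col_inj {G : SimpleGraph V} {ph : V → Prop} {k : ℕ} {D : Finset V} {P : V → List Pt}
    {L : List (Act V)} (hG : Geo G ph k D P L) {A : Act V} (hA : A ∈ L) {w w' : V}
    (hw : w ∈ A.K) (hw' : w' ∈ A.K) (h : A.col w = A.col w') : w = w' := by
  by_contra hne
  have hwD : w' ∈ D := (hG.win A hA).2.2.1 hw'
  have h1 := (hG.exclP A hA w hw w' hwD (Ne.symm hne)).2 A.b1 le_rfl (hG.win A hA).2.1.le
  rw [h] at h1
  exact h1 ((hG.own A hA w' hw').2 A.b1 le_rfl (hG.win A hA).2.1.le)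

theorem geo_row_inj {G : SimpleGraph V} {ph : V → Prop} {k : ℕ} {D : Finset V} {P : V → List Pt}
    {L : List (Act V)} (hG : Geo G ph k D P L) {A : Act V} (hA : A ∈ L) {w w' : V}
    (hw : w ∈ A.K) (hw' : w' ∈ A.K) (h : A.row w = A.row w') : w = w' := by
  by_contra hne
  have hwD : w' ∈ D := (hG.win A hA).2.2.1 hw'
  have h1 := (hG.exclP A hA w hw w' hwD (Ne.symm hne)).1 A.a1 le_rfl (hG.win A hA).1.le
  rw [h] at h1
  exact h1 ((hG.own A hA w' hw').1 A.a1 le_rfl (hG.win A hA).1.le)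

end Pool.Agent.BN
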