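import Mathlib
import Pool.Agent.Lib_helper30.BN.Defs
set_option autoImplicit false

namespace Pool.Agent.BN
open Act

variable {V : Type}

theorem d3_frac (i : ℕ) : (0 : ℚ) < 1 / ((i : ℚ) + 2) ∧ 1 / ((i : ℚ) + 2) < 1 := by
  have h : (0 : ℚ) < (i : ℚ) + 2 := by positivity
  have hi : (0 : ℚ) ≤ (i : ℚ) := Nat.cast_nonneg i
  refine ⟨by positivity, ?_⟩
  rw [div_lt_one h]
  linarith

theorem d3_anti {i j : ℕ} (h : i < j) : 1 / ((j : ℚ) + 2) < 1 / ((i : ℚ) + 2) := by
  have h1 : (0 : ℚ) < (i : ℚ) + 2 := by positivity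
  have h2 : (i : ℚ) < j := by exact_mod_cast h
  exact one_div_lt_one_div_of_lt h1 (by linarith)

theorem d3_up {u v : ℚ} (h : u < v) : ∃ s : ℕ → ℚ, StrictMono s ∧ (∀ i, u < s i) ∧ ∀ i, s i < v := by
  refine ⟨fun i => v - (v - u) * (1 / ((i : ℚ) + 2)), ?_, ?_, ?_⟩
  · intro i j hij
    have := d3_anti hij
    have h2 : (v - u) * (1 / ((j : ℚ) + 2)) < (v - u) * (1 / ((i : ℚ) + 2)) :=
      mul_lt_mul_of_pos_left this (by linarith)
    show v - _ < v - _
    linarith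
  · intro i
    have := (d3_frac i).2
    have h2 : (v - u) * (1 / ((i : ℚ) + 2)) < (v - u) * 1 :=
      mul_lt_mul_of_pos_left this (by linarith)
    show u < v - _
    linarith
  · intro i
    have := (d3_frac i).1
    have h2 : 0 < (v - u) * (1 / ((i : ℚ) + 2)) := mul_pos (by linarith) this
    show v - _ < v
    linarith

theorem d3_down {u v : ℚ} (h : u < v) :
    ∃ s : ℕ → ℚ, StrictAnti s ∧ (∀ i, u < s i) ∧ ∀ i, s i < v := by
  refine ⟨fun i => u + (v - u) * (1 / ((i : ℚ) + 2)), ?_, ?_, ?_⟩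
  · intro i j hij
    have := d3_anti hij
    have h2 : (v - u) * (1 / ((j : ℚ) + 2)) < (v - u) * (1 / ((i : ℚ) + 2)) :=
      mul_lt_mul_of_pos_left this (by linarith)
    show u + _ < u + _
    linarith
  · intro i
    have := (d3_frac i).1
    have h2 : 0 < (v - u) * (1 / ((i : ℚ) + 2)) := mul_pos (by linarith) this
    show u < u + _
    linarith
  · intro i
    have := (d3_frac i).2
    have h2 : (v - u) * (1 / ((i : ℚ) + 2)) < (v - u) * 1 :=
      mul_lt_mul_of_pos_left this (by linarith)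
    show u + _ < v
    linarith

theorem exists_crd (A : Act V) (h1 : A.a1 < A.a2) (h2 : A.b1 < A.b2) : Nonempty (Crd A) := by
  obtain ⟨f, hf, hf1, hf2⟩ := d3_up h1
  obtain ⟨h, hh, hh1, hh2⟩ := d3_down h2
  obtain ⟨w, hw, hw1, hw2⟩ := d3_up (hh2 0)
  have hz : ∀ j, ∃ s : ℕ → ℚ, StrictMono s ∧ (∀ i, h (j + 1) < s i) ∧ ∀ i, s i < h j := fun j =>
    d3_up (hh (Nat.lt_succ_self j))
  choose z hz hz1 hz2 using hz
  exact ⟨⟨f, h, w, z, hf, hf1, hf2, hh, hh1, hw, hw1, hw2, hz, hz1, hz2⟩⟩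

theorem d3_von : ∀ p : List Pt, ∃ R : ℚ, 0 ≤ R ∧ ∀ x y, VOn p x y → x < R
  | [] => ⟨0, le_rfl, fun x y h => by simp [VOn] at h⟩
  | [a] => ⟨0, le_rfl, fun x y h => by simp [VOn] at h⟩
  | a :: b :: l => by
    obtain ⟨R, hR, h⟩ := d3_von (b :: l)
    refine ⟨R + |a.1| + 1, by positivity, fun x y hx => ?_⟩
    rw [VOn] at hx
    rcases hx with hx | hx
    · have := le_abs_self a.1
      rw [← hx.1]
      linarith
    · have := h x y hx
      have := abs_nonneg a.1
      linarith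

theorem d3_lists (Ls : List (List Pt)) : ∃ R : ℚ, 0 ≤ R ∧ ∀ p ∈ Ls, ∀ x y, VOn p x y → x < R := by
  induction Ls with
  | nil => exact ⟨0, le_rfl, fun p hp => by simp at hp⟩
  | cons q l ih =>
    obtain ⟨R, hR, h⟩ := ih
    obtain ⟨R', hR', h'⟩ := d3_von q
    refine ⟨R + R', by positivity, fun p hp x y hx => ?_⟩
    rcases List.mem_cons.1 hp with rfl | hp
    · have := h' x y hx
      linarith
    · have := h p hp x y hx
      linarith

theorem d3_nums (L : List ℚ) : ∃ R : ℚ, 0 ≤ R ∧ ∀ a ∈ L, a < R := by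
  induction L with
  | nil => exact ⟨0, le_rfl, fun p hp => by simp at hp⟩
  | cons q l ih =>
    obtain ⟨R, hR, h⟩ := ih
    refine ⟨R + |q| + 1, by positivity, fun p hp => ?_⟩
    rcases List.mem_cons.1 hp with rfl | hp
    · have := le_abs_self p
      linarith
    · have := h p hp
      have := abs_nonneg q
      linarith

theorem exists_farR (D : Finset V) (P : V → List Pt) (L : List (Act V)) :
    ∃ R, FarR D P L R := by
  obtain ⟨R1, h1, H1⟩ := d3_lists (D.toList.map P)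
  obtain ⟨R2, h2, H2⟩ := d3_lists (L.map Act.g)
  obtain ⟨R3, h3, H3⟩ := d3_nums (L.map Act.a2)
  refine ⟨R1 + R2 + R3, ⟨fun v hv x y hx => ?_, fun B hB x y hx => ?_, fun B hB => ?_⟩⟩
  · have := H1 (P v) (List.mem_map.2 ⟨v, Finset.mem_toList.2 hv, rfl⟩) x y hx
    linarith
  · have := H2 B.g (List.mem_map.2 ⟨B, hB, rfl⟩) x y hx
    linarith
  · have := H3 B.a2 (List.mem_map.2 ⟨B, hB, rfl⟩)
    linarith

end Pool.Agent.BN
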