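import Mathlib
import Pool.Agent.Lib_helper30.BN.Defs
set_option autoImplicit false

namespace Pool.Agent.BN
open Act

variable {V : Type}

theorem a1_hon_one (a : Pt) (x y : ℚ) : HOn [a] x y ↔ False := by
  simp [HOn]

theorem a1_von_one (a : Pt) (x y : ℚ) : VOn [a] x y ↔ False := by
  simp [VOn]

theorem a1_hon_cons (a b : Pt) (l : List Pt) (x y : ℚ) :
    HOn (a :: b :: l) x y ↔
      (a.2 = y ∧ b.2 = y ∧ min a.1 b.1 < x ∧ x < max a.1 b.1) ∨ HOn (b :: l) x y := Iff.rfl

theorem a1_von_cons (a b : Pt) (l : List Pt) (x y : ℚ) :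
    VOn (a :: b :: l) x y ↔
      (a.1 = x ∧ b.1 = x ∧ min a.2 b.2 < y ∧ y < max a.2 b.2) ∨ VOn (b :: l) x y := Iff.rfl

theorem hon_append (p q : List Pt) (a b : Pt) (x y : ℚ) :
    HOn (p ++ a :: b :: q) x y ↔ HOn (p ++ [a]) x y ∨ HOn [a, b] x y ∨ HOn (b :: q) x y := by
  induction p with
  | nil =>
    rw [List.nil_append, List.nil_append, a1_hon_cons, a1_hon_one, a1_hon_cons a b [], a1_hon_one]
    tauto
  | cons a' p ih =>
    cases p with
    | nil =>
      simp only [List.cons_append, List.nil_append] at ih ⊢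
      rw [a1_hon_cons a' a (b :: q), a1_hon_cons a' a [], ih]
      tauto
    | cons b' p' =>
      simp only [List.cons_append] at ih ⊢
      rw [a1_hon_cons a' b' (p' ++ a :: b :: q), a1_hon_cons a' b' (p' ++ [a]), ih]
      tauto

theorem von_append (p q : List Pt) (a b : Pt) (x y : ℚ) :
    VOn (p ++ a :: b :: q) x y ↔ VOn (p ++ [a]) x y ∨ VOn [a, b] x y ∨ VOn (b :: q) x y := by
  induction p with
  | nil =>
    rw [List.nil_append, List.nil_append, a1_von_cons, a1_von_one, a1_von_cons a b [], a1_von_one]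
    tauto
  | cons a' p ih =>
    cases p with
    | nil =>
      simp only [List.cons_append, List.nil_append] at ih ⊢
      rw [a1_von_cons a' a (b :: q), a1_von_cons a' a [], ih]
      tauto
    | cons b' p' =>
      simp only [List.cons_append] at ih ⊢
      rw [a1_von_cons a' b' (p' ++ a :: b :: q), a1_von_cons a' b' (p' ++ [a]), ih]
      tauto

theorem hon_g (A : Act V) (x y : ℚ) :
    HOn A.g x y ↔ HOn (A.q ++ [A.c]) x y ∨ HOn [A.c, A.tl] x y := by
  unfold Act.g
  rw [hon_append A.q [] A.c A.tl x y, a1_hon_one]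
  tauto

theorem von_g (A : Act V) (x y : ℚ) :
    VOn A.g x y ↔ VOn (A.q ++ [A.c]) x y ∨ VOn [A.c, A.tl] x y := by
  unfold Act.g
  rw [von_append A.q [] A.c A.tl x y, a1_von_one]
  tauto

end Pool.Agent.BN
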