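import Mathlib
import Pool.Agent.Lib_helper30.BN.Defs
import Pool.Agent.Lib_helper30.BN.P.A1
set_option autoImplicit false

/-! Block A6 -/

namespace Pool.Agent.BN
open Act

variable {V : Type}

-- block A6
theorem touch_comm (p q : List Pt) : Touch p q ↔ Touch q p := by
  unfold Touch
  constructor
  · rintro ⟨x, y, h | h⟩
    · exact ⟨x, y, Or.inl ⟨h.2, h.1⟩⟩
    · exact ⟨x, y, Or.inr ⟨h.2, h.1⟩⟩
  · rintro ⟨x, y, h | h⟩
    · exact ⟨x, y, Or.inl ⟨h.2, h.1⟩⟩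
    · exact ⟨x, y, Or.inr ⟨h.2, h.1⟩⟩

theorem touch_start {A : Act V} {p : List Pt} (h : ¬ Touch A.g p) :
    ¬ Touch (A.q ++ [A.c]) p ∧ ¬ Touch [A.c, A.tl] p := by
  constructor
  · rintro ⟨x, y, h1 | h1⟩
    · exact h ⟨x, y, Or.inl ⟨(hon_g A x y).2 (Or.inl h1.1), h1.2⟩⟩
    · exact h ⟨x, y, Or.inr ⟨(von_g A x y).2 (Or.inl h1.1), h1.2⟩⟩
  · rintro ⟨x, y, h1 | h1⟩
    · exact h ⟨x, y, Or.inl ⟨(hon_g A x y).2 (Or.inr h1.1), h1.2⟩⟩
    · exact h ⟨x, y, Or.inr ⟨(von_g A x y).2 (Or.inr h1.1), h1.2⟩⟩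

/-- heights inside a window and the coordinates of the zones -/
theorem crd_facts {A : Act V} (c : Crd A) (q : Req V) (r : ℕ) :
    A.b1 < c.z q.j (3 * r) ∧ c.z q.j (3 * r) < y1 c q r ∧ y1 c q r ≤ c.h 0 ∧
      (q.cr = false → y1 c q r < c.z q.j (3 * r + 2)) ∧
      (q.cr = true → c.z q.j (3 * r + 2) < y1 c q r) ∧
      A.b1 < c.z q.j (3 * r + 2) ∧ c.z q.j (3 * r + 2) < c.h 0 ∧ c.h 0 < A.b2 ∧
      (∀ i, c.h i ≠ c.z q.j (3 * r + 2)) := by
  have hj0 : c.h q.j ≤ c.h 0 := c.hh.antitone (Nat.zero_le _)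
  have hb : A.b1 < c.h (q.j + 1) := c.hh1 _
  have z0 := c.hz1 q.j (3 * r)
  have z0' := c.hz2 q.j (3 * r)
  have z1 := c.hz2 q.j (3 * r + 1)
  have z2 := c.hz1 q.j (3 * r + 2)
  have z2' := c.hz2 q.j (3 * r + 2)
  have z01 : c.z q.j (3 * r) < c.z q.j (3 * r + 1) := c.hz q.j (by omega)
  have z12 : c.z q.j (3 * r + 1) < c.z q.j (3 * r + 2) := c.hz q.j (by omega)
  have hw0 : c.h 0 < c.w 0 := c.hw1 0
  have hw0' : c.w 0 < A.b2 := c.hw2 0
  have hy : (q.cr = true → y1 c q r = c.h q.j) ∧ (q.cr = false → y1 c q r = c.z q.j (3 * r + 1)) := by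
    unfold y1
    constructor
    · intro h
      rw [if_pos h]
    · intro h
      rw [if_neg (by rw [h]; decide)]
  have hne : ∀ i, c.h i ≠ c.z q.j (3 * r + 2) := by
    intro i hi
    rcases Nat.lt_or_ge q.j i with h1 | h1
    · have h2 : c.h i ≤ c.h (q.j + 1) := c.hh.antitone h1
      rw [hi] at h2
      exact absurd (lt_of_lt_of_le z2 h2) (lt_irrefl _)
    · have h2 : c.h q.j ≤ c.h i := c.hh.antitone h1
      rw [hi] at h2
      exact absurd (lt_of_lt_of_le z2' h2) (lt_irrefl _)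
  rcases hcr : q.cr with _ | _
  · have h1 := hy.2 hcr
    refine ⟨by linarith, by rw [h1]; linarith, by rw [h1]; linarith, fun _ => by rw [h1]; exact z12,
      fun h => absurd h (by decide), by linarith, by linarith, by linarith, hne⟩
  · have h1 := hy.1 hcr
    refine ⟨by linarith, by rw [h1]; linarith, by rw [h1]; exact hj0,
      fun h => absurd h (by decide), fun _ => by rw [h1]; exact z2', by linarith, by linarith,
      by linarith, hne⟩

end Pool.Agent.BN
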