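import Mathlib
import Pool.Agent.Lib_helper30.BN.Defs
import Pool.Agent.Lib_helper30.BN.P.A1
set_option autoImplicit false

namespace Pool.Agent.BN
open Act

variable {V : Type}

theorem a2_vg (n : ℕ) : ∀ (γ h : ℕ → ℚ) (xs x y : ℚ),
    HOn ((xs, h 0) :: vg γ h n) x y ↔
      ∃ j < n, y = h j ∧ min (prev γ xs j) (γ j) < x ∧ x < max (prev γ xs j) (γ j) := by
  induction n with
  | zero =>
    intro γ h xs x y
    constructor
    · intro H
      simp only [vg, HOn] at H
    · rintro ⟨j, hj, -⟩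
      omega
  | succ n ih =>
    intro γ h xs x y
    have IH := ih (fun i => γ (i + 1)) (fun i => h (i + 1)) (γ 0) x y
    have hpr : ∀ j, prev (fun i => γ (i + 1)) (γ 0) j = prev γ xs (j + 1) := by
      intro j
      cases j with
      | zero => simp [prev]
      | succ j => simp [prev]
    have h0 : prev γ xs 0 = xs := by simp [prev]
    have hL : HOn ((xs, h 0) :: vg γ h (n + 1)) x y ↔
        (h 0 = y ∧ h 0 = y ∧ min xs (γ 0) < x ∧ x < max xs (γ 0)) ∨
        ((h 0 = y ∧ h 1 = y ∧ min (γ 0) (γ 0) < x ∧ x < max (γ 0) (γ 0)) ∨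
          HOn ((γ 0, h 1) :: vg (fun i => γ (i + 1)) (fun i => h (i + 1)) n) x y) := by
      simp only [vg, HOn]
    rw [hL]
    have IH' : HOn ((γ 0, h 1) :: vg (fun i => γ (i + 1)) (fun i => h (i + 1)) n) x y ↔
        ∃ j < n, y = h (j + 1) ∧ min (prev γ xs (j + 1)) (γ (j + 1)) < x ∧
          x < max (prev γ xs (j + 1)) (γ (j + 1)) := by
      simp only [hpr] at IH
      exact IH
    rw [IH']
    constructor
    · rintro (⟨h1, -, h2, h3⟩ | ⟨-, -, h2, h3⟩ | ⟨j, hj, h1, h2, h3⟩)
      · exact ⟨0, by omega, h1.symm, by rw [h0]; exact h2, by rw [h0]; exact h3⟩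
      · rw [min_self] at h2
        rw [max_self] at h3
        exact absurd (h2.trans h3) (lt_irrefl _)
      · exact ⟨j + 1, by omega, h1, h2, h3⟩
    · rintro ⟨j, hj, h1, h2, h3⟩
      cases j with
      | zero =>
        rw [h0] at h2 h3
        exact Or.inl ⟨h1.symm, h1.symm, h2, h3⟩
      | succ j => exact Or.inr (Or.inr ⟨j, by omega, h1, h2, h3⟩)

-- block A2
theorem hon_z (A : Act V) (γ h : ℕ → ℚ) (n : ℕ) (x y : ℚ) :
    HOn (zpath A γ h n) x y ↔ HOn (A.q ++ [A.c]) x y ∨
      ∃ j < n, y = h j ∧ min (prev γ A.c.1 j) (γ j) < x ∧ x < max (prev γ A.c.1 j) (γ j) := by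
  have h1 : zpath A γ h n = A.q ++ A.c :: (A.c.1, h 0) :: vg γ h n := by
    simp [zpath]
  rw [h1, hon_append, a2_vg]
  constructor
  · rintro (H | H | H)
    · exact Or.inl H
    · exfalso
      simp only [HOn, min_self, max_self, or_false] at H
      exact absurd (H.2.2.1.trans H.2.2.2) (lt_irrefl _)
    · exact Or.inr H
  · rintro (H | H)
    · exact Or.inl H
    · exact Or.inr (Or.inr H)

end Pool.Agent.BN
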