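import Mathlib
import Pool.Agent.Lib_helper30.BN.Defs
import Pool.Agent.Lib_helper30.BN.P.A1
set_option autoImplicit false

/-! Block A3 -/

namespace Pool.Agent.BN
open Act

variable {V : Type}

theorem a3_vg (n : ℕ) : ∀ (γ h : ℕ → ℚ) (xs x y : ℚ), StrictAnti h →
    (VOn ((xs, h 0) :: vg γ h n) x y ↔ ∃ j < n, x = γ j ∧ h (j + 1) < y ∧ y < h j) := by
  induction n with
  | zero =>
    intro γ h xs x y _
    simp [vg, VOn]
  | succ n ih =>
    intro γ h xs x y hh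
    have hh' : StrictAnti (fun i => h (i + 1)) := fun a b hab => hh (Nat.add_lt_add_right hab 1)
    have h1 := ih (fun i => γ (i + 1)) (fun i => h (i + 1)) (γ 0) x y hh'
    have h10 : h 1 < h 0 := hh (by norm_num)
    have e1 : vg γ h (n + 1) = (γ 0, h 0) :: (γ 0, h 1) :: vg (fun i => γ (i + 1))
      (fun i => h (i + 1)) n := rfl
    rw [e1]
    simp only [VOn, min_self, max_self]
    simp only [zero_add] at h1
    rw [h1, min_eq_right h10.le, max_eq_left h10.le]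
    constructor
    · rintro (⟨_, _, h2, h3⟩ | ⟨h2, _, h3, h4⟩ | ⟨j, hj, h2, h3, h4⟩)
      · exact absurd (h2.trans h3) (lt_irrefl _)
      · exact ⟨0, by omega, h2.symm, h3, h4⟩
      · exact ⟨j + 1, by omega, h2, h3, h4⟩
    · rintro ⟨j, hj, h2, h3, h4⟩
      rcases j with _ | j
      · exact Or.inr (Or.inl ⟨h2.symm, h2.symm, h3, h4⟩)
      · exact Or.inr (Or.inr ⟨j, by omega, h2, h3, h4⟩)

-- block A3
theorem von_z (A : Act V) (γ h : ℕ → ℚ) (n : ℕ) (x y : ℚ) (hh : StrictAnti h) (h0 : h 0 < A.c.2) :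
    VOn (zpath A γ h n) x y ↔ VOn (A.q ++ [A.c]) x y ∨ (x = A.c.1 ∧ h 0 < y ∧ y < A.c.2) ∨
      ∃ j < n, x = γ j ∧ h (j + 1) < y ∧ y < h j := by
  have e1 : zpath A γ h n = A.q ++ A.c :: (A.c.1, h 0) :: vg γ h n := by
    unfold zpath
    simp
  rw [e1, von_append, a3_vg n γ h A.c.1 x y hh]
  have e2 : VOn [A.c, (A.c.1, h 0)] x y ↔ (x = A.c.1 ∧ h 0 < y ∧ y < A.c.2) := by
    simp only [VOn, or_false]
    rw [min_eq_right h0.le, max_eq_left h0.le]
    constructor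
    · rintro ⟨h1, _, h2, h3⟩
      exact ⟨h1.symm, h2, h3⟩
    · rintro ⟨h1, h2, h3⟩
      exact ⟨h1.symm, h1.symm, h2, h3⟩
  rw [e2]

end Pool.Agent.BN
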