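import Mathlib
import Pool.Agent.Lib_helper30.BN.Defs
import Pool.Agent.Lib_helper30.BN.P.A2
import Pool.Agent.Lib_helper30.BN.P.A3
set_option autoImplicit false

namespace Pool.Agent.BN
open Act

variable {V : Type}

section core
variable [DecidableEq V] {G : SimpleGraph V} {ph : V → Prop} {k : ℕ} {D : Finset V}
    {P : V → List Pt} {A : Act V} {L : List (Act V)} {c : Crd A} {γ : ℕ → ℚ} {n : ℕ} {R : ℚ}
    {y : V} {rq : ℕ → Req V} {M : ℕ}

theorem z_touch (H : Core G ph k D P A L c γ n R y rq M) :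
    ∀ v ∈ D, (Touch (zpath A γ c.h n) (P v) ↔ v ∈ A.S ∨ (v ∈ A.K ∧ ∃ j < n, γ j = A.col v)) := by
  intro v hv
  have hAL : A ∈ A :: L := List.mem_cons_self
  have h0b : c.h 0 < A.b2 := (c.hw1 0).trans (c.hw2 0)
  have h0 : c.h 0 < A.c.2 := h0b.trans H.std.up
  have hb1 : ∀ j, A.b1 < c.h j := c.hh1
  have hb2 : ∀ j, c.h j < A.b2 := fun j => (c.hh.antitone (Nat.zero_le j)).trans_lt h0b
  constructor
  · rintro ⟨x, u, ⟨hz, hp⟩ | ⟨hz, hp⟩⟩
    · rw [hon_z] at hz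
      rcases hz with hz | ⟨j, hj, rfl, -⟩
      · exact Or.inl ((H.geo.ghost_touch A hAL v hv).1 ⟨x, u, Or.inl ⟨hz, hp⟩⟩)
      · exact absurd hp ((H.geo.clearP A hAL v hv).2 x _ (hb1 j).le (hb2 j).le)
    · rw [von_z A γ c.h n x u c.hh h0] at hz
      rcases hz with hz | ⟨rfl, h1, h2⟩ | ⟨j, hj, rfl, h1, h2⟩
      · exact Or.inl ((H.geo.ghost_touch A hAL v hv).1 ⟨x, u, Or.inr ⟨hz, hp⟩⟩)
      · refine absurd ?_ (H.geo.ghost_free A hAL v hv)
        refine ⟨A.c.1, u, Or.inr ⟨?_, hp⟩⟩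
        have hl := H.std.low
        have hb := hb1 0
        refine Or.inl ⟨rfl, H.std.tlx, ?_, ?_⟩
        · exact lt_of_le_of_lt (min_le_right _ _) (by linarith)
        · exact lt_of_lt_of_le h2 (le_max_left _ _)
      · have hu1 : A.b1 ≤ u := (hb1 (j+1)).le.trans h1.le
        have hu2 : u ≤ A.b2 := h2.le.trans (hb2 j).le
        rcases H.gam.kind j hj with ⟨w, hw, hγ⟩ | hγ | hγ
        · by_cases hvw : v = w
          · subst hvw
            exact Or.inr ⟨hw, j, hj, hγ⟩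
          · rw [hγ] at hp
            exact absurd hp ((H.geo.exclP A hAL w hw v hv hvw).2 u hu1 hu2)
        · rw [hγ] at hp
          exact absurd hp ((H.geo.clearP A hAL v hv).1 _ u (c.hf1 0).le (c.hf2 0).le)
        · rw [hγ] at hp
          exact absurd (H.far.p v hv R u hp) (lt_irrefl _)
  · rintro (hS | ⟨hK, j, hj, hγ⟩)
    · obtain ⟨x, u, ⟨h1, h2⟩ | ⟨h1, h2⟩⟩ := (H.geo.ghost_touch A hAL v hv).2 hS
      · exact ⟨x, u, Or.inl ⟨(hon_z A γ c.h n x u).2 (Or.inl h1), h2⟩⟩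
      · exact ⟨x, u, Or.inr ⟨(von_z A γ c.h n x u c.hh h0).2 (Or.inl h1), h2⟩⟩
    · have hlt : c.h (j+1) < c.h j := c.hh (Nat.lt_succ_self j)
      refine ⟨γ j, (c.h (j+1) + c.h j) / 2, Or.inr ⟨?_, ?_⟩⟩
      · exact (von_z A γ c.h n _ _ c.hh h0).2
          (Or.inr (Or.inr ⟨j, hj, rfl, by linarith, by linarith⟩))
      · rw [hγ]
        have := hb1 (j+1)
        have := hb2 j
        exact (H.geo.own A hAL v hK).2 _ (by linarith) (by linarith)

end core

end Pool.Agent.BN
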