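import Mathlib
import Pool.Agent.Lib_helper30.BN.Defs
import Pool.Agent.Lib_helper30.BN.P.A1
import Pool.Agent.Lib_helper30.BN.P.A2
import Pool.Agent.Lib_helper30.BN.P.A3
import Pool.Agent.Lib_helper30.BN.P.B1
set_option autoImplicit false

namespace Pool.Agent.BN
open Act

variable {V : Type}

section core
variable [DecidableEq V] {G : SimpleGraph V} {ph : V → Prop} {k : ℕ} {D : Finset V}
    {P : V → List Pt} {A : Act V} {L : List (Act V)} {c : Crd A} {γ : ℕ → ℚ} {n : ℕ} {R : ℚ}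
    {y : V} {rq : ℕ → Req V} {M : ℕ}

-- block C10
theorem n_exclZ (H : Core G ph k D P A L c γ n R y rq M) :
    ∀ r < M, ∀ w ∈ (newAct A c y (rq r) r).K, w ≠ y →
      (newAct A c y (rq r) r).Excl w (zpath A γ c.h n) := by
  intro r _ w hw hwy
  have hA : A ∈ A :: L := List.mem_cons_self
  have hwA : w ∈ A.K := by
    rcases Finset.mem_insert.1 hw with h | h
    · exact absurd h hwy
    · exact Finset.mem_of_mem_erase h
  have hex : A.Excl w A.g := H.geo.exclG A hA w hwA A hA
  have hc2 : c.h 0 < A.c.2 := ((c.hw1 0).trans (c.hw2 0)).trans H.std.up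
  constructor
  · intro x hx1 hx2
    have hx1' : c.f (4 * r + 2) ≤ x := hx1
    have hx2' : x ≤ c.f (4 * r + 3) := hx2
    change ¬ HOn (zpath A γ c.h n) x (Function.update A.row y (c.h 0) w)
    rw [Function.update_of_ne hwy, hon_z]
    rintro (h | ⟨j, _, hj, _⟩)
    · exact hex.1 x ((c.hf1 _).le.trans hx1') (hx2'.trans (c.hf2 _).le)
        ((hon_g A x (A.row w)).2 (Or.inl h))
    · have h1 : c.h j ≤ c.h 0 := c.hh.antitone (Nat.zero_le j)
      have h2 := c.hh1 j
      have h3 : c.h 0 < A.b2 := (c.hw1 0).trans (c.hw2 0)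
      rcases geo_row H.geo hA hA hwA with h4 | h4
      · rw [hj] at h4
        exact absurd h4 (not_lt.2 h2.le)
      · rw [hj] at h4
        exact absurd h4 (not_lt.2 (h1.trans h3.le))
  · intro v hv1 hv2
    have hv1' : c.w (2 * r) ≤ v := hv1
    have hv2' : v ≤ c.w (2 * r + 1) := hv2
    have hb1 : A.b1 < v := lt_of_lt_of_le ((c.hh1 0).trans (c.hw1 _)) hv1'
    have hb2 : v < A.b2 := lt_of_le_of_lt hv2' (c.hw2 _)
    have h0v : c.h 0 < v := lt_of_lt_of_le (c.hw1 _) hv1'
    change ¬ VOn (zpath A γ c.h n) (Function.update A.col y A.c.1 w) v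
    rw [Function.update_of_ne hwy, von_z A γ c.h n _ _ c.hh hc2]
    rintro (h | ⟨hx, _, _⟩ | ⟨j, _, _, _, hj⟩)
    · exact hex.2 v hb1.le hb2.le ((von_g A (A.col w) v).2 (Or.inl h))
    · refine hex.2 v hb1.le hb2.le ((von_g A (A.col w) v).2 (Or.inr ?_))
      rw [hx]
      left
      refine ⟨rfl, H.std.tlx, ?_, ?_⟩
      · exact (min_le_right _ _).trans_lt (H.std.low.trans hb1)
      · exact lt_of_lt_of_le (hb2.trans H.std.up) (le_max_left _ _)
    · have h1 : c.h j ≤ c.h 0 := c.hh.antitone (Nat.zero_le j)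
      exact absurd (hj.trans_le h1) (not_lt.2 h0v.le)

end core

end Pool.Agent.BN
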