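import Mathlib
import Pool.Agent.Lib_helper30.BN.Defs
set_option autoImplicit false

namespace Pool.Agent.BN
open Act

variable {V : Type}

theorem a5_hv (a b d x v : ℚ) :
    ¬ (a = v ∧ b = v ∧ min d d < x ∧ x < max d d) := by
  rintro ⟨_, _, h1, h2⟩
  rw [min_self] at h1
  rw [max_self] at h2
  exact absurd (lt_trans h1 h2) (lt_irrefl _)

theorem hon_new [DecidableEq V] (A : Act V) (c : Crd A) (y : V) (q : Req V) (r : ℕ) (x v : ℚ) :
    HOn (newAct A c y q r).g x v ↔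
      (v = y1 c q r ∧ min (A.col q.F) (A.col q.N) < x ∧ x < max (A.col q.F) (A.col q.N)) ∨
      (v = c.z q.j (3 * r + 2) ∧ min (A.col q.N) (ex c q r) < x ∧
        x < max (A.col q.N) (ex c q r)) := by
  simp only [Act.g, newAct, HOn, List.cons_append, List.nil_append, a5_hv, false_or, or_false]
  constructor
  · rintro (⟨h1, _, h2, h3⟩ | ⟨h1, _, h2, h3⟩)
    · exact Or.inl ⟨h1.symm, h2, h3⟩
    · exact Or.inr ⟨h1.symm, h2, h3⟩
  · rintro (⟨h1, h2, h3⟩ | ⟨h1, h2, h3⟩)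
    · exact Or.inl ⟨h1.symm, h1.symm, h2, h3⟩
    · exact Or.inr ⟨h1.symm, h1.symm, h2, h3⟩

theorem von_new [DecidableEq V] (A : Act V) (c : Crd A) (y : V) (q : Req V) (r : ℕ) (x v : ℚ) :
    VOn (newAct A c y q r).g x v ↔
      (x = A.col q.F ∧ min (c.z q.j (3 * r)) (y1 c q r) < v ∧ v < max (c.z q.j (3 * r)) (y1 c q r)) ∨
      (x = A.col q.N ∧ min (y1 c q r) (c.z q.j (3 * r + 2)) < v ∧
        v < max (y1 c q r) (c.z q.j (3 * r + 2))) := by
  simp only [Act.g, newAct, VOn, List.cons_append, List.nil_append, a5_hv, false_or, or_false]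
  constructor
  · rintro (⟨h1, _, h2, h3⟩ | ⟨h1, _, h2, h3⟩)
    · exact Or.inl ⟨h1.symm, h2, h3⟩
    · exact Or.inr ⟨h1.symm, h2, h3⟩
  · rintro (⟨h1, h2, h3⟩ | ⟨h1, h2, h3⟩)
    · exact Or.inl ⟨h1.symm, h1.symm, h2, h3⟩
    · exact Or.inr ⟨h1.symm, h1.symm, h2, h3⟩

theorem hon_newS [DecidableEq V] (A : Act V) (c : Crd A) (y : V) (q : Req V) (r : ℕ) (x v : ℚ) :
    HOn ((newAct A c y q r).q ++ [(newAct A c y q r).c]) x v ↔
      (v = y1 c q r ∧ min (A.col q.F) (A.col q.N) < x ∧ x < max (A.col q.F) (A.col q.N)) := by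
  simp only [newAct, HOn, List.cons_append, List.nil_append, a5_hv, false_or, or_false]
  constructor
  · rintro ⟨h1, _, h2, h3⟩
    exact ⟨h1.symm, h2, h3⟩
  · rintro ⟨h1, h2, h3⟩
    exact ⟨h1.symm, h1.symm, h2, h3⟩

theorem von_newS [DecidableEq V] (A : Act V) (c : Crd A) (y : V) (q : Req V) (r : ℕ) (x v : ℚ) :
    VOn ((newAct A c y q r).q ++ [(newAct A c y q r).c]) x v ↔
      (x = A.col q.F ∧ min (c.z q.j (3 * r)) (y1 c q r) < v ∧ v < max (c.z q.j (3 * r)) (y1 c q r)) ∨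
      (x = A.col q.N ∧ min (y1 c q r) (c.z q.j (3 * r + 2)) < v ∧
        v < max (y1 c q r) (c.z q.j (3 * r + 2))) := by
  simp only [newAct, VOn, List.cons_append, List.nil_append, a5_hv, false_or, or_false]
  constructor
  · rintro (⟨h1, _, h2, h3⟩ | ⟨h1, _, h2, h3⟩)
    · exact Or.inl ⟨h1.symm, h2, h3⟩
    · exact Or.inr ⟨h1.symm, h2, h3⟩
  · rintro (⟨h1, h2, h3⟩ | ⟨h1, h2, h3⟩)
    · exact Or.inl ⟨h1.symm, h1.symm, h2, h3⟩
    · exact Or.inr ⟨h1.symm, h1.symm, h2, h3⟩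

theorem hon_newT [DecidableEq V] (A : Act V) (c : Crd A) (y : V) (q : Req V) (r : ℕ) (x v : ℚ) :
    HOn [(newAct A c y q r).c, (newAct A c y q r).tl] x v ↔
      (v = c.z q.j (3 * r + 2) ∧ min (A.col q.N) (ex c q r) < x ∧
        x < max (A.col q.N) (ex c q r)) := by
  simp only [newAct, HOn, or_false]
  constructor
  · rintro ⟨h1, _, h2, h3⟩
    exact ⟨h1.symm, h2, h3⟩
  · rintro ⟨h1, h2, h3⟩
    exact ⟨h1.symm, h1.symm, h2, h3⟩

theorem von_newT [DecidableEq V] (A : Act V) (c : Crd A) (y : V) (q : Req V) (r : ℕ) (x v : ℚ) :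
    ¬ VOn [(newAct A c y q r).c, (newAct A c y q r).tl] x v := by
  simp only [newAct, VOn, or_false]
  exact a5_hv _ _ _ _ _

end Pool.Agent.BN
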