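import Mathlib
import Pool.Agent.Lib_helper30.BN.Defs
import Pool.Agent.Lib_helper30.BN.P.A5
import Pool.Agent.Lib_helper30.BN.P.A6
import Pool.Agent.Lib_helper30.BN.P.B1
set_option autoImplicit false

namespace Pool.Agent.BN
open Act

variable {V : Type}

section core
variable [DecidableEq V] {G : SimpleGraph V} {ph : V → Prop} {k : ℕ} {D : Finset V}
    {P : V → List Pt} {A : Act V} {L : List (Act V)} {c : Crd A} {γ : ℕ → ℚ} {n : ℕ} {R : ℚ}
    {y : V} {rq : ℕ → Req V} {M : ℕ}

theorem n_exclN (H : Core G ph k D P A L c γ n R y rq M) :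
    ∀ r < M, ∀ w ∈ (newAct A c y (rq r) r).K, ∀ s < M,
      (newAct A c y (rq r) r).Excl w (newAct A c y (rq s) s).g := by
  intro r _ w hw s hs
  obtain ⟨f1, f2, f3, f4, f5, f6, f7, f8, f9⟩ := crd_facts c (rq s) s
  have hq := H.req s hs
  constructor
  · intro x hx1 hx2 hon
    have hx1' : c.f (4 * r + 2) ≤ x := hx1
    have hx2' : x ≤ c.f (4 * r + 3) := hx2
    have ha1 := c.hf1 (4 * r + 2)
    have ha2 := c.hf2 (4 * r + 3)
    rw [hon_new] at hon
    by_cases hwy : w = y
    · subst hwy
      have hrow : (newAct A c w (rq r) r).row w = c.h 0 := by simp [newAct]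
      rw [hrow] at hon
      rcases hon with ⟨_, h2, h3⟩ | ⟨h1, _, _⟩
      · rcases hq.side with ⟨g1, g2⟩ | ⟨g1, g2⟩
        · have : min (A.col (rq s).F) (A.col (rq s).N) = A.col (rq s).N := min_eq_right g2.le
          rw [this] at h2
          linarith
        · have : max (A.col (rq s).F) (A.col (rq s).N) = A.col (rq s).N := max_eq_right g1.le
          rw [this] at h3
          linarith
      · exact f9 0 h1
    · have hwK : w ∈ A.K := by
        have : w ∈ insert y (A.K.erase (rq r).t) := hw
        rw [Finset.mem_insert] at this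
        rcases this with h | h
        · exact absurd h hwy
        · exact Finset.mem_of_mem_erase h
      have hrow : (newAct A c y (rq r) r).row w = A.row w := by
        simp [newAct, Function.update_of_ne hwy]
      rw [hrow] at hon
      have hg := geo_row H.geo (A := A) (B := A) (by simp) (by simp) hwK
      rcases hon with ⟨h1, _, _⟩ | ⟨h1, _, _⟩ <;> rcases hg with hg | hg <;> linarith
  · intro v hv1 _ hon
    have hv1' : c.w (2 * r) ≤ v := hv1
    have hw1 := c.hw1 (2 * r)
    rw [von_new] at hon
    rcases hon with ⟨_, _, h3⟩ | ⟨_, _, h3⟩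
    · have : max (c.z (rq s).j (3 * s)) (y1 c (rq s) s) ≤ c.h 0 := max_le (by linarith) f3
      linarith
    · have : max (y1 c (rq s) s) (c.z (rq s).j (3 * s + 2)) ≤ c.h 0 := max_le f3 (by linarith)
      linarith

end core

end Pool.Agent.BN
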