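import Mathlib
import Pool.Agent.Lib_helper30.BN.Defs
import Pool.Agent.Lib_helper30.BN.P.A5
import Pool.Agent.Lib_helper30.BN.P.A6
set_option autoImplicit false

namespace Pool.Agent.BN
open Act

variable {V : Type}

section core
variable [DecidableEq V] {G : SimpleGraph V} {ph : V → Prop} {k : ℕ} {D : Finset V}
    {P : V → List Pt} {A : Act V} {L : List (Act V)} {c : Crd A} {γ : ℕ → ℚ} {n : ℕ} {R : ℚ}
    {y : V} {rq : ℕ → Req V} {M : ℕ}

theorem n_touchP (H : Core G ph k D P A L c γ n R y rq M) :
    ∀ r < M, ∀ v ∈ D, (Touch ((newAct A c y (rq r) r).q ++ [(newAct A c y (rq r) r).c]) (P v) ↔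
      v = (rq r).F ∨ v = (rq r).N) := by
  intro r hr v hv
  have hA : A ∈ A :: L := List.mem_cons_self
  have hq := H.req r hr
  obtain ⟨f1, f2, f3, f4, f5, f6, f7, f8, f9⟩ := crd_facts c (rq r) r
  have hclear := H.geo.clearP A hA v hv
  have hKD := (H.geo.win A hA).2.2.1
  have hne : y1 c (rq r) r ≠ c.z (rq r).j (3 * r + 2) := by
    cases hcr : (rq r).cr with
    | false => exact (f4 hcr).ne
    | true => exact (f5 hcr).ne'
  constructor
  · rintro ⟨x, y', h | h⟩
    · exfalso
      obtain ⟨h1, h2⟩ := h
      rw [hon_newS] at h1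
      obtain ⟨h1, -, -⟩ := h1
      refine hclear.2 x y' ?_ ?_ h2
      · rw [h1]; linarith
      · rw [h1]; linarith
    · obtain ⟨h1, h2⟩ := h
      rw [von_newS] at h1
      rcases h1 with ⟨hx, h3, h4⟩ | ⟨hx, h3, h4⟩
      · left
        by_contra hvF
        have hex := H.geo.exclP A hA (rq r).F hq.F v hv hvF
        rw [hx] at h2
        refine hex.2 y' ?_ ?_ h2
        · rw [min_lt_iff] at h3
          rcases h3 with h | h <;> linarith
        · rw [lt_max_iff] at h4
          rcases h4 with h | h <;> linarith
      · right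
        by_contra hvN
        have hex := H.geo.exclP A hA (rq r).N hq.N v hv hvN
        rw [hx] at h2
        refine hex.2 y' ?_ ?_ h2
        · rw [min_lt_iff] at h3
          rcases h3 with h | h <;> linarith
        · rw [lt_max_iff] at h4
          rcases h4 with h | h <;> linarith
  · rintro (h | h)
    · rw [h]
      have hown := H.geo.own A hA (rq r).F hq.F
      refine ⟨A.col (rq r).F, (c.z (rq r).j (3 * r) + y1 c (rq r) r) / 2, Or.inr ⟨?_, ?_⟩⟩
      · rw [von_newS]
        left
        refine ⟨rfl, ?_, ?_⟩
        · rw [min_eq_left f2.le]; linarith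
        · rw [max_eq_right f2.le]; linarith
      · refine hown.2 _ ?_ ?_
        · linarith
        · linarith
    · rw [h]
      have hown := H.geo.own A hA (rq r).N hq.N
      refine ⟨A.col (rq r).N, (y1 c (rq r) r + c.z (rq r).j (3 * r + 2)) / 2, Or.inr ⟨?_, ?_⟩⟩
      · rw [von_newS]
        right
        refine ⟨rfl, ?_, ?_⟩
        · rcases lt_or_gt_of_ne hne with h5 | h5
          · rw [min_eq_left h5.le]; linarith
          · rw [min_eq_right h5.le]; linarith
        · rcases lt_or_gt_of_ne hne with h5 | h5
          · rw [max_eq_right h5.le]; linarith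
          · rw [max_eq_left h5.le]; linarith
      · refine hown.2 _ ?_ ?_
        · linarith
        · linarith

end core

end Pool.Agent.BN
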