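import Mathlib
import Pool.Agent.Lib_helper30.BN.Defs
import Pool.Agent.Lib_helper30.BN.P.A2
import Pool.Agent.Lib_helper30.BN.P.A3
import Pool.Agent.Lib_helper30.BN.P.A5
import Pool.Agent.Lib_helper30.BN.P.A6
set_option autoImplicit false

namespace Pool.Agent.BN
open Act

variable {V : Type}

section core
variable [DecidableEq V] {G : SimpleGraph V} {ph : V → Prop} {k : ℕ} {D : Finset V}
    {P : V → List Pt} {A : Act V} {L : List (Act V)} {c : Crd A} {γ : ℕ → ℚ} {n : ℕ} {R : ℚ}
    {y : V} {rq : ℕ → Req V} {M : ℕ}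

theorem n_touchZ (H : Core G ph k D P A L c γ n R y rq M) :
    ∀ r < M, Touch ((newAct A c y (rq r) r).q ++ [(newAct A c y (rq r) r).c])
      (zpath A γ c.h n) := by
  intro r hr
  obtain ⟨f1, f2, f3, f4, f5, f6, f7, f8, f9⟩ := crd_facts c (rq r) r
  have h0 : c.h 0 < A.c.2 := f8.trans H.std.up
  have hq := H.req r hr
  rcases hcr : (rq r).cr with _ | _
  · have hy1 : y1 c (rq r) r = c.z (rq r).j (3 * r + 1) := by simp [y1, hcr]
    have hz1 := c.hz1 (rq r).j (3 * r)
    have hz2 := c.hz2 (rq r).j (3 * r + 2)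
    have h4 := f4 hcr
    rcases hq.r2 hcr with hg | hg
    · refine ⟨A.col (rq r).F, (c.z (rq r).j (3 * r) + y1 c (rq r) r) / 2, Or.inr ⟨?_, ?_⟩⟩
      · rw [von_newS]
        left
        rw [min_eq_left f2.le, max_eq_right f2.le]
        exact ⟨rfl, by linarith, by linarith⟩
      · rw [von_z A γ c.h n _ _ c.hh h0]
        exact Or.inr (Or.inr ⟨(rq r).j, hq.j, hg.symm, by linarith, by linarith⟩)
    · refine ⟨A.col (rq r).N, (y1 c (rq r) r + c.z (rq r).j (3 * r + 2)) / 2, Or.inr ⟨?_, ?_⟩⟩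
      · rw [von_newS]
        right
        rw [min_eq_left h4.le, max_eq_right h4.le]
        exact ⟨rfl, by linarith, by linarith⟩
      · rw [von_z A γ c.h n _ _ c.hh h0]
        exact Or.inr (Or.inr ⟨(rq r).j, hq.j, hg.symm, by linarith, by linarith⟩)
  · have hy1 : y1 c (rq r) r = c.h (rq r).j := by simp [y1, hcr]
    obtain ⟨-, -, hN, hs⟩ := hq.cr hcr
    have hNF : A.col (rq r).N < A.col (rq r).F := by
      rcases hq.side with h | h
      · exact h.2
      · have := h.1.trans h.2
        have := H.geo.win A List.mem_cons_self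
        linarith [h.2]
    refine ⟨(A.col (rq r).N + A.col (rq r).F) / 2, y1 c (rq r) r, Or.inl ⟨?_, ?_⟩⟩
    · rw [hon_newS]
      rw [min_eq_right hNF.le, max_eq_left hNF.le]
      exact ⟨rfl, by linarith, by linarith⟩
    · rw [hon_z]
      refine Or.inr ⟨(rq r).j, hq.j, hy1, ?_⟩
      rcases hs with ⟨h1, h2⟩ | ⟨h1, h2⟩
      · have h12 : prev γ A.c.1 (rq r).j ≤ γ (rq r).j := by linarith
        rw [min_eq_left h12, max_eq_right h12]
        exact ⟨by linarith, by linarith⟩
      · have h12 : γ (rq r).j ≤ prev γ A.c.1 (rq r).j := by linarith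
        rw [min_eq_right h12, max_eq_left h12]
        exact ⟨by linarith, by linarith⟩

end core

end Pool.Agent.BN
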