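import Mathlib
import Pool.Agent.Lib_helper30.BN.Defs
import Pool.Agent.Lib_helper30.BN.P.A1
import Pool.Agent.Lib_helper30.BN.P.A2
import Pool.Agent.Lib_helper30.BN.P.A5
import Pool.Agent.Lib_helper30.BN.P.A6
set_option autoImplicit false

namespace Pool.Agent.BN
open Act

variable {V : Type}

section core
variable [DecidableEq V] {G : SimpleGraph V} {ph : V → Prop} {k : ℕ} {D : Finset V}
    {P : V → List Pt} {A : Act V} {L : List (Act V)} {c : Crd A} {γ : ℕ → ℚ} {n : ℕ} {R : ℚ}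
    {y : V} {rq : ℕ → Req V} {M : ℕ}

-- block C14
theorem n_freeP (H : Core G ph k D P A L c γ n R y rq M) :
    ∀ r < M, ∀ v ∈ D, ¬ Touch [(newAct A c y (rq r) r).c, (newAct A c y (rq r) r).tl] (P v) := by
  rintro r hr v hv ⟨x, u, (⟨h1, h2⟩ | ⟨h1, -⟩)⟩
  · rw [hon_newT] at h1
    obtain ⟨-, -, -, -, -, f1, f2, f3, -⟩ := crd_facts c (rq r) r
    refine (H.geo.clearP A List.mem_cons_self v hv).2 x u ?_ ?_ h2
    · rw [h1.1]
      exact f1.le
    · rw [h1.1]
      exact (f2.trans f3).le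
  · exact von_newT A c y (rq r) r x u h1

theorem n_freeZ (H : Core G ph k D P A L c γ n R y rq M) :
    ∀ r < M, ¬ Touch [(newAct A c y (rq r) r).c, (newAct A c y (rq r) r).tl]
      (zpath A γ c.h n) := by
  rintro r hr ⟨x, u, (⟨h1, h2⟩ | ⟨h1, -⟩)⟩
  · rw [hon_newT] at h1
    obtain ⟨-, -, -, -, -, f1, f2, f3, f4⟩ := crd_facts c (rq r) r
    rw [hon_z] at h2
    rcases h2 with h2 | ⟨i, -, hi, -, -⟩
    · have h3 : HOn A.g x u := (hon_g A x u).2 (Or.inl h2)
      refine (H.geo.clearG A List.mem_cons_self A List.mem_cons_self).2 x u ?_ ?_ h3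
      · rw [h1.1]
        exact f1.le
      · rw [h1.1]
        exact (f2.trans f3).le
    · exact f4 i (hi.symm.trans h1.1)
  · exact von_newT A c y (rq r) r x u h1

end core

end Pool.Agent.BN
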