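import Mathlib
import Pool.Agent.Lib_helper30.BN.Defs
import Pool.Agent.Lib_helper30.BN.P.A5
set_option autoImplicit false

namespace Pool.Agent.BN
open Act

variable {V : Type}

theorem c15_hz {A : Act V} (c : Crd A) (j j' i : ℕ) : c.h j ≠ c.z j' i := by
  intro e
  rcases Nat.lt_or_ge j' j with h | h
  · have h1 := c.hz1 j' i
    have h2 := c.hh.antitone (Nat.succ_le_of_lt h)
    rw [← e] at h1
    exact absurd (lt_of_lt_of_le h1 h2) (lt_irrefl _)
  · have h1 := c.hz2 j' i
    have h2 := c.hh.antitone h
    rw [← e] at h1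
    exact absurd (lt_of_le_of_lt h2 h1) (lt_irrefl _)

/-- the level is determined by the height -/
theorem c15_lev {A : Act V} (c : Crd A) (j j' : ℕ) (v : ℚ) (h1 : c.h (j + 1) < v) (h2 : v < c.h j)
    (h3 : c.h (j' + 1) < v) (h4 : v < c.h j') : j = j' := by
  rcases Nat.lt_trichotomy j j' with h | h | h
  · have := c.hh.antitone (Nat.succ_le_of_lt h)
    exact absurd (lt_of_lt_of_le (lt_trans h1 h4) this) (lt_irrefl _)
  · exact h
  · have := c.hh.antitone (Nat.succ_le_of_lt h)
    exact absurd (lt_of_lt_of_le (lt_trans h3 h2) this) (lt_irrefl _)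

theorem c15_zz {A : Act V} (c : Crd A) (j j' i i' : ℕ) (e : c.z j i = c.z j' i') :
    j = j' ∧ i = i' := by
  have h : j = j' := by
    refine c15_lev c j j' (c.z j i) (c.hz1 j i) (c.hz2 j i) ?_ ?_
    · rw [e]; exact c.hz1 j' i'
    · rw [e]; exact c.hz2 j' i'
  subst h
  exact ⟨rfl, (c.hz j).injective e⟩

theorem c15_y1 {A : Act V} (c : Crd A) (q : Req V) (r : ℕ) :
    c.h (q.j + 1) < y1 c q r ∧ y1 c q r ≤ c.h q.j := by
  unfold y1
  split
  · exact ⟨c.hh (Nat.lt_succ_self _), le_refl _⟩
  · exact ⟨c.hz1 _ _, le_of_lt (c.hz2 _ _)⟩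

section
variable [DecidableEq V] {G : SimpleGraph V} {ph : V → Prop} {k : ℕ} {D : Finset V}
    {P : V → List Pt} {A : Act V} {L : List (Act V)} {c : Crd A} {γ : ℕ → ℚ} {n : ℕ} {R : ℚ}
    {y : V} {rq : ℕ → Req V} {M : ℕ}

theorem c15_NF (H : Core G ph k D P A L c γ n R y rq M) (r : ℕ) (hr : r < M)
    (hc : (rq r).cr = true) : A.col (rq r).N < A.col (rq r).F := by
  have hq := H.req r hr
  have h1 := (hq.cr hc).2.2.1
  rcases hq.side with h | h
  · exact h.2
  · have h2 : A.a1 < A.a2 := lt_trans (c.hf1 0) (c.hf2 0)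
    exact absurd (lt_trans (lt_trans h.2 h2) h1) (lt_irrefl _)

theorem n_sepN (H : Core G ph k D P A L c γ n R y rq M) :
    ∀ r < M, ∀ s < M, r ≠ s →
      ¬ Touch (newAct A c y (rq r) r).g (newAct A c y (rq s) s).g := by
  intro r hr s hs hrs
  rintro ⟨x, v, hT⟩
  have hcmp := H.cmp r hr s hs hrs
  rcases hT with ⟨h1, h2⟩ | ⟨h1, h2⟩
  · rw [hon_new] at h1 h2
    rcases h1 with ⟨e1, l1, u1⟩ | ⟨e1, l1, u1⟩
    · rcases h2 with ⟨e2, l2, u2⟩ | ⟨e2, l2, u2⟩
      · rw [e1] at e2
        unfold y1 at e2
        cases hc1 : (rq r).cr with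
        | true =>
          cases hc2 : (rq s).cr with
          | true =>
            rw [hc1, hc2] at e2
            have ej : (rq r).j = (rq s).j := c.hh.injective e2
            have hh := (hcmp ej).2 hc1
            have hN1 := c15_NF H r hr hc1
            have hN2 := c15_NF H s hs hc2
            rw [min_eq_right (le_of_lt hN1)] at l1
            rw [max_eq_left (le_of_lt hN1)] at u1
            rw [min_eq_right (le_of_lt hN2)] at l2
            rw [max_eq_left (le_of_lt hN2)] at u2
            rcases hh with hh | hh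
            · exact absurd (lt_trans (lt_trans u1 hh) l2) (lt_irrefl _)
            · exact absurd (lt_trans (lt_trans u2 hh) l1) (lt_irrefl _)
          | false =>
            rw [hc1, hc2] at e2
            exact c15_hz c _ _ _ e2
        | false =>
          cases hc2 : (rq s).cr with
          | true =>
            rw [hc1, hc2] at e2
            exact c15_hz c _ _ _ e2.symm
          | false =>
            rw [hc1, hc2] at e2
            have := (c15_zz c _ _ _ _ e2).2
            omega
      · rw [e1] at e2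
        unfold y1 at e2
        cases hc1 : (rq r).cr with
        | true =>
          rw [hc1] at e2
          exact c15_hz c _ _ _ e2
        | false =>
          rw [hc1] at e2
          have := (c15_zz c _ _ _ _ e2).2
          omega
    · rcases h2 with ⟨e2, l2, u2⟩ | ⟨e2, l2, u2⟩
      · rw [e1] at e2
        unfold y1 at e2
        cases hc1 : (rq s).cr with
        | true =>
          rw [hc1] at e2
          exact c15_hz c _ _ _ e2.symm
        | false =>
          rw [hc1] at e2
          have := (c15_zz c _ _ _ _ e2).2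
          omega
      · rw [e1] at e2
        have := (c15_zz c _ _ _ _ e2).2
        omega
  · rw [von_new] at h1 h2
    -- the bounds of v for each request
    have key : ∀ t, (x = A.col (rq t).F ∧ min (c.z (rq t).j (3 * t)) (y1 c (rq t) t) < v ∧
          v < max (c.z (rq t).j (3 * t)) (y1 c (rq t) t)) ∨
        (x = A.col (rq t).N ∧ min (y1 c (rq t) t) (c.z (rq t).j (3 * t + 2)) < v ∧
          v < max (y1 c (rq t) t) (c.z (rq t).j (3 * t + 2))) →
        (x = A.col (rq t).F ∨ x = A.col (rq t).N) ∧ c.h ((rq t).j + 1) < v ∧ v < c.h (rq t).j ∧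
        ((rq t).cr = false → c.z (rq t).j (3 * t) < v ∧ v < c.z (rq t).j (3 * t + 2)) := by
      intro t ht
      obtain ⟨y1a, y1b⟩ := c15_y1 c (rq t) t
      have z0a := c.hz1 (rq t).j (3 * t)
      have z0b := c.hz2 (rq t).j (3 * t)
      have z2a := c.hz1 (rq t).j (3 * t + 2)
      have z2b := c.hz2 (rq t).j (3 * t + 2)
      have z01 : c.z (rq t).j (3 * t) < c.z (rq t).j (3 * t + 1) := c.hz _ (by omega)
      have z12 : c.z (rq t).j (3 * t + 1) < c.z (rq t).j (3 * t + 2) := c.hz _ (by omega)
      have ey : (rq t).cr = false → y1 c (rq t) t = c.z (rq t).j (3 * t + 1) := by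
        intro h
        unfold y1
        rw [h]
        rfl
      rcases ht with ⟨e, l, u⟩ | ⟨e, l, u⟩
      · refine ⟨Or.inl e, lt_trans (lt_min z0a y1a) l, lt_of_lt_of_le u (max_le (le_of_lt z0b) y1b),
          ?_⟩
        intro hf
        rw [ey hf, min_eq_left (le_of_lt z01)] at l
        rw [ey hf, max_eq_right (le_of_lt z01)] at u
        exact ⟨l, lt_trans u z12⟩
      · refine ⟨Or.inr e, lt_trans (lt_min y1a z2a) l, lt_of_lt_of_le u (max_le y1b (le_of_lt z2b)),
          ?_⟩
        intro hf
        rw [ey hf, min_eq_left (le_of_lt z12)] at l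
        rw [ey hf, max_eq_right (le_of_lt z12)] at u
        exact ⟨lt_trans z01 l, u⟩
    obtain ⟨x1, l1, u1, f1⟩ := key r h1
    obtain ⟨x2, l2, u2, f2⟩ := key s h2
    have ej : (rq r).j = (rq s).j := c15_lev c _ _ v l1 u1 l2 u2
    obtain ⟨ecr, hh⟩ := hcmp ej
    cases hc1 : (rq r).cr with
    | true =>
      have hc2 : (rq s).cr = true := by rw [← ecr]; exact hc1
      have hN1 := c15_NF H r hr hc1
      have hN2 := c15_NF H s hs hc2
      rcases hh hc1 with hh | hh
      · rcases x1 with x1 | x1 <;> rcases x2 with x2 | x2 <;> linarith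
      · rcases x1 with x1 | x1 <;> rcases x2 with x2 | x2 <;> linarith
    | false =>
      have hc2 : (rq s).cr = false := by rw [← ecr]; exact hc1
      obtain ⟨g1, g2⟩ := f1 hc1
      obtain ⟨g3, g4⟩ := f2 hc2
      rw [← ej] at g3 g4
      rcases Nat.lt_or_gt_of_ne hrs with h | h
      · have := (c.hz (rq r).j).monotone (show 3 * r + 2 ≤ 3 * s by omega)
        linarith
      · have := (c.hz (rq r).j).monotone (show 3 * s + 2 ≤ 3 * r by omega)
        linarith

end

end Pool.Agent.BN
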