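import Mathlib
import Pool.Agent.Lib_helper30.BN.Defs
import Pool.Agent.Lib_helper30.BN.P.A5
import Pool.Agent.Lib_helper30.BN.P.A6
set_option autoImplicit false

namespace Pool.Agent.BN
open Act

variable {V : Type}

section core
variable [DecidableEq V] {G : SimpleGraph V} {ph : V → Prop} {k : ℕ} {D : Finset V}
    {P : V → List Pt} {A : Act V} {L : List (Act V)} {c : Crd A} {γ : ℕ → ℚ} {n : ℕ} {R : ℚ}
    {y : V} {rq : ℕ → Req V} {M : ℕ}

-- block C16
theorem n_sepG (H : Core G ph k D P A L c γ n R y rq M) :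
    ∀ r < M, ∀ B ∈ L, ¬ Touch (newAct A c y (rq r) r).g B.g := by
  rintro r hr B hB ⟨x, u, (⟨h1, h2⟩ | ⟨h1, h2⟩)⟩
  · rw [hon_new] at h1
    obtain ⟨f1, f2, f3, -, -, f4, f5, f6, -⟩ := crd_facts c (rq r) r
    have key : A.b1 ≤ u ∧ u ≤ A.b2 := by
      rcases h1 with ⟨h, -, -⟩ | ⟨h, -, -⟩
      · rw [h]
        exact ⟨(f1.trans f2).le, (lt_of_le_of_lt f3 f6).le⟩
      · rw [h]
        exact ⟨f4.le, (f5.trans f6).le⟩
    exact (H.geo.clearG A List.mem_cons_self B (List.mem_cons_of_mem _ hB)).2 x u key.1 key.2 h2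
  · rw [von_new] at h1
    obtain ⟨f1, f2, f3, -, -, f4, f5, f6, -⟩ := crd_facts c (rq r) r
    have hy1 : A.b1 < y1 c (rq r) r := f1.trans f2
    have hy2 : y1 c (rq r) r < A.b2 := lt_of_le_of_lt f3 f6
    rcases h1 with ⟨hx, h3, h4⟩ | ⟨hx, h3, h4⟩
    · have h5 : A.b1 < u := (lt_min f1 hy1).trans h3
      have h6 : u < A.b2 := lt_of_lt_of_le h4 (max_le (f2.le.trans hy2.le) hy2.le)
      subst hx
      exact (H.geo.exclG A List.mem_cons_self _ (H.req r hr).F B
        (List.mem_cons_of_mem _ hB)).2 u h5.le h6.le h2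
    · have h5 : A.b1 < u := (lt_min hy1 f4).trans h3
      have h6 : u < A.b2 := lt_of_lt_of_le h4 (max_le hy2.le (f5.trans f6).le)
      subst hx
      exact (H.geo.exclG A List.mem_cons_self _ (H.req r hr).N B
        (List.mem_cons_of_mem _ hB)).2 u h5.le h6.le h2

end core

end Pool.Agent.BN
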