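import Mathlib
import Pool.Agent.Lib_helper30.BN.Defs
import Pool.Agent.Lib_helper30.BN.P.A5
import Pool.Agent.Lib_helper30.BN.P.A6
import Pool.Agent.Lib_helper30.BN.P.B1
set_option autoImplicit false

namespace Pool.Agent.BN
open Act

variable {V : Type}

section core
variable [DecidableEq V] {G : SimpleGraph V} {ph : V → Prop} {k : ℕ} {D : Finset V}
    {P : V → List Pt} {A : Act V} {L : List (Act V)} {c : Crd A} {γ : ℕ → ℚ} {n : ℕ} {R : ℚ}
    {y : V} {rq : ℕ → Req V} {M : ℕ}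

theorem c17_sep (H : Core G ph k D P A L c γ n R y rq M) {B : Act V} (hB : B ∈ L) : Sep A B :=
  (List.pairwise_cons.1 H.geo.sep).1 B hB

theorem c17_hon (A : Act V) (c : Crd A) (y : V) (q : Req V) (r : ℕ) {x v : ℚ}
    (h : HOn (newAct A c y q r).g x v) : A.b1 < v ∧ v < A.b2 := by
  obtain ⟨f1, f2, f3, -, -, f6, f7, f8, -⟩ := crd_facts c q r
  rcases (hon_new A c y q r x v).1 h with ⟨h1, -, -⟩ | ⟨h1, -, -⟩
  · subst h1
    exact ⟨lt_trans f1 f2, lt_of_le_of_lt f3 f8⟩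
  · subst h1
    exact ⟨f6, lt_trans f7 f8⟩

theorem c17_von (A : Act V) (c : Crd A) (y : V) (q : Req V) (r : ℕ) {x v : ℚ}
    (h : VOn (newAct A c y q r).g x v) :
    (x = A.col q.F ∨ x = A.col q.N) ∧ A.b1 < v ∧ v < A.b2 := by
  obtain ⟨f1, f2, f3, -, -, f6, f7, f8, -⟩ := crd_facts c q r
  have g1 : A.b1 < y1 c q r := lt_trans f1 f2
  have g2 : y1 c q r < A.b2 := lt_of_le_of_lt f3 f8
  have g3 : c.z q.j (3 * r) < A.b2 := lt_trans f2 g2
  have g4 : c.z q.j (3 * r + 2) < A.b2 := lt_trans f7 f8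
  rcases (von_new A c y q r x v).1 h with ⟨h1, h2, h3⟩ | ⟨h1, h2, h3⟩
  · exact ⟨Or.inl h1, lt_trans (lt_min f1 g1) h2, lt_trans h3 (max_lt g3 g2)⟩
  · exact ⟨Or.inr h1, lt_trans (lt_min g1 f6) h2, lt_trans h3 (max_lt g2 g4)⟩

-- block C17
theorem o_clearN (H : Core G ph k D P A L c γ n R y rq M) :
    ∀ r < M, ∀ B ∈ L, B.Clear (newAct A c y (rq r) r).g := by
  intro r hr B hB
  have hA : A ∈ A :: L := List.mem_cons_self
  have hB' : B ∈ A :: L := List.mem_cons_of_mem _ hB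
  refine ⟨fun x v hx1 hx2 hv => ?_, fun x v hv1 hv2 hh => ?_⟩
  · obtain ⟨h1, -, -⟩ := c17_von A c y (rq r) r hv
    rcases h1 with h1 | h1
    · subst h1
      rcases geo_col H.geo hA hB' (H.req r hr).F with h | h
      · exact absurd hx1 (not_le.2 h)
      · exact absurd hx2 (not_le.2 h)
    · subst h1
      rcases geo_col H.geo hA hB' (H.req r hr).N with h | h
      · exact absurd hx1 (not_le.2 h)
      · exact absurd hx2 (not_le.2 h)
  · obtain ⟨h1, h2⟩ := c17_hon A c y (rq r) r hh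
    rcases (c17_sep H hB).2 with h | h
    · exact absurd (lt_trans h2 h) (not_lt.2 hv1)
    · exact absurd (lt_trans h h1) (not_lt.2 hv2)

theorem o_exclN (H : Core G ph k D P A L c γ n R y rq M) :
    ∀ r < M, ∀ B ∈ L, ∀ w ∈ B.K, B.Excl w (newAct A c y (rq r) r).g := by
  intro r hr B hB w hw
  have hA : A ∈ A :: L := List.mem_cons_self
  have hB' : B ∈ A :: L := List.mem_cons_of_mem _ hB
  refine ⟨fun x hx1 hx2 hh => ?_, fun v hv1 hv2 hv => ?_⟩
  · obtain ⟨h1, h2⟩ := c17_hon A c y (rq r) r hh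
    rcases geo_row H.geo hB' hA hw with h | h
    · exact absurd h1 (not_lt.2 h.le)
    · exact absurd h2 (not_lt.2 h.le)
  · obtain ⟨-, h1, h2⟩ := c17_von A c y (rq r) r hv
    rcases (c17_sep H hB).2 with h | h
    · exact absurd (lt_trans h2 h) (not_lt.2 hv1)
    · exact absurd (lt_trans h h1) (not_lt.2 hv2)

end core

end Pool.Agent.BN
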