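import Mathlib
import Pool.Agent.Lib_helper30.BN.Defs
set_option autoImplicit false

/-! Block C18: the new windows are separated -/

namespace Pool.Agent.BN
open Act

variable {V : Type}

section core

variable [DecidableEq V] {G : SimpleGraph V} {ph : V → Prop} {k : ℕ} {D : Finset V}
    {P : V → List Pt} {A : Act V} {L : List (Act V)} {c : Crd A} {γ : ℕ → ℚ} {n : ℕ} {R : ℚ}
    {y : V} {rq : ℕ → Req V} {M : ℕ}

theorem n_Sep (H : Core G ph k D P A L c γ n R y rq M) :
    ∀ r < M, ∀ s < M, r ≠ s → Sep (newAct A c y (rq r) r) (newAct A c y (rq s) s) := by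
  intro r _ s _ hrs
  rcases lt_or_gt_of_ne hrs with h | h
  · exact ⟨Or.inl (c.hf (show 4 * r + 3 < 4 * s + 2 by omega)),
      Or.inl (c.hw (show 2 * r + 1 < 2 * s by omega))⟩
  · exact ⟨Or.inr (c.hf (show 4 * s + 3 < 4 * r + 2 by omega)),
      Or.inr (c.hw (show 2 * s + 1 < 2 * r by omega))⟩

theorem n_SepO (H : Core G ph k D P A L c γ n R y rq M) :
    ∀ r < M, ∀ B ∈ L, Sep (newAct A c y (rq r) r) B := by
  intro r _ B hB
  have h := List.rel_of_pairwise_cons H.geo.sep hB
  have h1 : A.a1 < c.f (4 * r + 2) := c.hf1 _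
  have h2 : c.f (4 * r + 3) < A.a2 := c.hf2 _
  have h3 : A.b1 < c.w (2 * r) := lt_trans (c.hh1 0) (c.hw1 _)
  have h4 : c.w (2 * r + 1) < A.b2 := c.hw2 _
  refine ⟨?_, ?_⟩
  · rcases h.1 with h5 | h5
    · exact Or.inl (lt_trans h2 h5)
    · exact Or.inr (lt_trans h5 h1)
  · rcases h.2 with h5 | h5
    · exact Or.inl (lt_trans h4 h5)
    · exact Or.inr (lt_trans h5 h3)

theorem n_win (H : Core G ph k D P A L c γ n R y rq M) :
    ∀ r < M, (newAct A c y (rq r) r).a1 < (newAct A c y (rq r) r).a2 ∧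
      (newAct A c y (rq r) r).b1 < (newAct A c y (rq r) r).b2 ∧
      (newAct A c y (rq r) r).K ⊆ insert y D ∧ (newAct A c y (rq r) r).K.card = k ∧
      (newAct A c y (rq r) r).S ⊆ (newAct A c y (rq r) r).K := by
  intro r hr
  have hq := H.req r hr
  obtain ⟨_, _, hK, hcard, _⟩ := H.geo.win A List.mem_cons_self
  have hyK : y ∉ A.K := fun h => H.yD (hK h)
  refine ⟨c.hf (show 4 * r + 2 < 4 * r + 3 by omega), c.hw (show 2 * r < 2 * r + 1 by omega),
    ?_, ?_, ?_⟩
  · show insert y (A.K.erase (rq r).t) ⊆ insert y D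
    exact Finset.insert_subset_insert y ((Finset.erase_subset _ _).trans hK)
  · show (insert y (A.K.erase (rq r).t)).card = k
    rw [Finset.card_insert_of_notMem (fun h => hyK (Finset.mem_of_mem_erase h)),
      Finset.card_erase_of_mem hq.t, hcard]
    have hpos : 0 < A.K.card := Finset.card_pos.mpr ⟨_, hq.t⟩
    omega
  · show ({(rq r).F, (rq r).N, y} : Finset V) ⊆ insert y (A.K.erase (rq r).t)
    intro v hv
    simp only [Finset.mem_insert, Finset.mem_singleton] at hv
    rcases hv with rfl | rfl | rfl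
    · exact Finset.mem_insert_of_mem (Finset.mem_erase.mpr ⟨hq.Ft, hq.F⟩)
    · exact Finset.mem_insert_of_mem (Finset.mem_erase.mpr ⟨hq.Nt, hq.N⟩)
    · exact Finset.mem_insert_self _ _

end core

end Pool.Agent.BN
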