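import Mathlib
import Pool.Agent.Lib_helper30.BN.Defs
import Pool.Agent.Lib_helper30.BN.P.A1
import Pool.Agent.Lib_helper30.BN.P.A2
import Pool.Agent.Lib_helper30.BN.P.A3
import Pool.Agent.Lib_helper30.BN.P.B1
set_option autoImplicit false

/-! Block C3: the path of the new vertex leaves the old windows clear -/

namespace Pool.Agent.BN
open Act

variable {V : Type}

variable [DecidableEq V] {G : SimpleGraph V} {ph : V → Prop} {k : ℕ} {D : Finset V}
    {P : V → List Pt} {A : Act V} {L : List (Act V)} {c : Crd A} {γ : ℕ → ℚ} {n : ℕ} {R : ℚ}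
    {y : V} {rq : ℕ → Req V} {M : ℕ}

theorem z_clear_old (H : Core G ph k D P A L c γ n R y rq M) :
    ∀ B ∈ L, B.Clear (zpath A γ c.h n) := by
  intro B hB
  have hA : A ∈ A :: L := List.mem_cons_self
  have hB' : B ∈ A :: L := List.mem_cons_of_mem _ hB
  have hclr := H.geo.clearG B hB' A hA
  have hsep : Sep A B := (List.pairwise_cons.1 H.geo.sep).1 B hB
  have h0 : c.h 0 < A.b2 := lt_trans (c.hw1 0) (c.hw2 0)
  have h0c : c.h 0 < A.c.2 := lt_trans h0 H.std.up
  refine ⟨?_, ?_⟩
  · intro x v hx1 hx2 hv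
    rcases (von_z A γ c.h n x v c.hh h0c).1 hv with h | ⟨h1, h2, h3⟩ | ⟨j, hj, h1, h2, h3⟩
    · exact hclr.1 x v hx1 hx2 ((von_g A x v).2 (Or.inl h))
    · refine hclr.1 x v hx1 hx2 ((von_g A x v).2 (Or.inr ?_))
      have hlow := H.std.low
      have hb := c.hh1 0
      refine Or.inl ⟨h1.symm, by rw [H.std.tlx]; exact h1.symm, ?_, ?_⟩
      · exact lt_of_le_of_lt (min_le_right _ _) (by linarith)
      · exact lt_of_lt_of_le h3 (le_max_left _ _)
    · rcases H.gam.kind j hj with ⟨w, hw, hg⟩ | hg | hg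
      · rcases geo_col H.geo hA hB' hw with h | h
        · rw [← hg, ← h1] at h; linarith
        · rw [← hg, ← h1] at h; linarith
      · have e1 := c.hf1 0
        have e2 := c.hf2 0
        rcases hsep.1 with h | h
        · rw [h1, hg] at hx1; linarith
        · rw [h1, hg] at hx2; linarith
      · have := H.far.a B hB'
        rw [h1, hg] at hx2; linarith
  · intro x v hv1 hv2 hh
    rcases (hon_z A γ c.h n x v).1 hh with h | ⟨j, hj, h1, h2, h3⟩
    · exact hclr.2 x v hv1 hv2 ((hon_g A x v).2 (Or.inl h))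
    · have e1 := c.hh1 j
      have e2 : c.h j ≤ c.h 0 := c.hh.antitone (Nat.zero_le j)
      rcases hsep.2 with h | h
      · rw [h1] at hv1; linarith
      · rw [h1] at hv2; linarith

end Pool.Agent.BN
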