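import Mathlib
import Pool.Agent.Lib_helper30.BN.Defs
import Pool.Agent.Lib_helper30.BN.P.A1
import Pool.Agent.Lib_helper30.BN.P.A2
import Pool.Agent.Lib_helper30.BN.P.A3
import Pool.Agent.Lib_helper30.BN.P.B1
set_option autoImplicit false

namespace Pool.Agent.BN
open Act

variable {V : Type}

section core
variable [DecidableEq V] {G : SimpleGraph V} {ph : V → Prop} {k : ℕ} {D : Finset V}
    {P : V → List Pt} {A : Act V} {L : List (Act V)} {c : Crd A} {γ : ℕ → ℚ} {n : ℕ} {R : ℚ}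
    {y : V} {rq : ℕ → Req V} {M : ℕ}

/-- the vertical part at `c.1` consists of points of the ghost -/
theorem c4_vert (hs : StdStart A) {v : ℚ} (h1 : A.b1 < v) (h2 : v < A.c.2) :
    VOn A.g A.c.1 v := by
  rw [von_g]
  right
  unfold VOn
  left
  refine ⟨rfl, hs.tlx, ?_, ?_⟩
  · exact lt_of_le_of_lt (min_le_right _ _) (lt_trans hs.low h1)
  · exact lt_of_lt_of_le h2 (le_max_left _ _)

theorem c4_h (c : Crd A) (j : ℕ) : A.b1 < c.h j ∧ c.h j < A.b2 := by
  refine ⟨c.hh1 j, ?_⟩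
  have h1 : c.h j ≤ c.h 0 := c.hh.antitone (Nat.zero_le j)
  exact lt_of_le_of_lt h1 (lt_trans (c.hw1 0) (c.hw2 0))

theorem z_excl_old (H : Core G ph k D P A L c γ n R y rq M) :
    ∀ B ∈ L, ∀ w ∈ B.K, B.Excl w (zpath A γ c.h n) := by
  intro B hB w hw
  have hA : A ∈ A :: L := List.mem_cons_self
  have hB' : B ∈ A :: L := List.mem_cons_of_mem _ hB
  have hex := H.geo.exclG B hB' w hw A hA
  have h0 : c.h 0 < A.c.2 := lt_trans (c4_h c 0).2 H.std.up
  have hsep : Sep A B := (List.pairwise_cons.1 H.geo.sep).1 B hB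
  constructor
  · intro x hx1 hx2 hon
    rw [hon_z] at hon
    rcases hon with hon | ⟨j, -, hj, -, -⟩
    · exact hex.1 x hx1 hx2 ((hon_g A _ _).2 (Or.inl hon))
    · have h1 := geo_row H.geo hB' hA hw
      have h2 := c4_h c j
      rw [hj] at h1
      rcases h1 with h1 | h1
      · exact absurd h1 (not_lt.2 h2.1.le)
      · exact absurd h1 (not_lt.2 h2.2.le)
  · intro v hv1 hv2 von
    rw [von_z A γ c.h n _ _ c.hh h0] at von
    rcases von with von | ⟨hc, h1, h2⟩ | ⟨j, -, -, h1, h2⟩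
    · exact hex.2 v hv1 hv2 ((von_g A _ _).2 (Or.inl von))
    · refine hex.2 v hv1 hv2 ?_
      rw [hc]
      exact c4_vert H.std (lt_trans (c4_h c 0).1 h1) h2
    · have h3 := (c4_h c (j + 1)).1
      have h4 := (c4_h c j).2
      rcases hsep.2 with h5 | h5
      · linarith
      · linarith

end core

end Pool.Agent.BN
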