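import Mathlib
import Pool.Agent.Lib_helper30.BN.Defs
import Pool.Agent.Lib_helper30.BN.P.A1
import Pool.Agent.Lib_helper30.BN.P.A2
import Pool.Agent.Lib_helper30.BN.P.A3
set_option autoImplicit false

namespace Pool.Agent.BN
open Act

variable {V : Type}

section core
variable [DecidableEq V] {G : SimpleGraph V} {ph : V → Prop} {k : ℕ} {D : Finset V}
    {P : V → List Pt} {A : Act V} {L : List (Act V)} {c : Crd A} {γ : ℕ → ℚ} {n : ℕ} {R : ℚ}
    {y : V} {rq : ℕ → Req V} {M : ℕ}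

/-- the vertical part at `c.1` consists of points of the ghost -/
theorem c5_vert (hs : StdStart A) {v : ℚ} (h1 : A.b1 < v) (h2 : v < A.c.2) :
    VOn A.g A.c.1 v := by
  rw [von_g]
  right
  unfold VOn
  left
  refine ⟨rfl, hs.tlx, ?_, ?_⟩
  · exact lt_of_le_of_lt (min_le_right _ _) (lt_trans hs.low h1)
  · exact lt_of_lt_of_le h2 (le_max_left _ _)

theorem c5_h (c : Crd A) (j : ℕ) : A.b1 < c.h j ∧ c.h j < A.b2 := by
  refine ⟨c.hh1 j, ?_⟩
  have h1 : c.h j ≤ c.h 0 := c.hh.antitone (Nat.zero_le j)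
  exact lt_of_le_of_lt h1 (lt_trans (c.hw1 0) (c.hw2 0))

theorem z_ghost_old (H : Core G ph k D P A L c γ n R y rq M) :
    ∀ B ∈ L, ¬ Touch B.g (zpath A γ c.h n) := by
  intro B hB
  have hA : A ∈ A :: L := List.mem_cons_self
  have hB' : B ∈ A :: L := List.mem_cons_of_mem _ hB
  have h0 : c.h 0 < A.c.2 := lt_trans (c5_h c 0).2 H.std.up
  have hsep : ¬ Touch A.g B.g := (List.pairwise_cons.1 H.geo.ghost_sep).1 B hB
  have hcl := H.geo.clearG A hA B hB'
  rintro ⟨x, v, ⟨hb, hz⟩ | ⟨hb, hz⟩⟩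
  · rw [hon_z] at hz
    rcases hz with hz | ⟨j, -, hj, -, -⟩
    · exact hsep ⟨x, v, Or.inl ⟨(hon_g A _ _).2 (Or.inl hz), hb⟩⟩
    · have h2 := c5_h c j
      rw [← hj] at h2
      exact hcl.2 x v h2.1.le h2.2.le hb
  · rw [von_z A γ c.h n _ _ c.hh h0] at hz
    rcases hz with hz | ⟨hc, h1, h2⟩ | ⟨j, hjn, hj, h1, h2⟩
    · exact hsep ⟨x, v, Or.inr ⟨(von_g A _ _).2 (Or.inl hz), hb⟩⟩
    · refine hsep ⟨x, v, Or.inr ⟨?_, hb⟩⟩
      rw [hc]
      exact c5_vert H.std (lt_trans (c5_h c 0).1 h1) h2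
    · have h3 := lt_trans (c5_h c (j + 1)).1 h1
      have h4 := lt_trans h2 (c5_h c j).2
      rcases H.gam.kind j hjn with ⟨w, hw, hk⟩ | hk | hk
      · rw [hj, hk] at hb
        exact (H.geo.exclG A hA w hw B hB').2 v h3.le h4.le hb
      · rw [hj, hk] at hb
        exact hcl.1 _ v (c.hf1 0).le (c.hf2 0).le hb
      · have h5 := H.far.g B hB' x v hb
        rw [hj, hk] at h5
        exact lt_irrefl _ h5

end core

end Pool.Agent.BN
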