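import Mathlib
import Pool.Agent.Lib_helper30.BN.Defs
import Pool.Agent.Lib_helper30.BN.P.A1
import Pool.Agent.Lib_helper30.BN.P.A2
import Pool.Agent.Lib_helper30.BN.P.A3
import Pool.Agent.Lib_helper30.BN.P.B1
set_option autoImplicit false

/-! BN block C6: the new windows are clear (helper8) -/

namespace Pool.Agent.BN
open Act

variable {V : Type}

section core
variable [DecidableEq V] {G : SimpleGraph V} {ph : V → Prop} {k : ℕ} {D : Finset V}
    {P : V → List Pt} {A : Act V} {L : List (Act V)} {c : Crd A} {γ : ℕ → ℚ} {n : ℕ} {R : ℚ}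
    {y : V} {rq : ℕ → Req V} {M : ℕ}

omit [DecidableEq V] in
theorem c6_x (c : Crd A) {r : ℕ} {x : ℚ} (h1 : c.f (4 * r + 2) ≤ x) (h2 : x ≤ c.f (4 * r + 3)) :
    A.a1 < x ∧ x < A.a2 ∧ c.f 0 < x := by
  have h3 := c.hf1 (4 * r + 2)
  have h4 := c.hf2 (4 * r + 3)
  have h5 : c.f 0 < c.f (4 * r + 2) := c.hf (by omega)
  exact ⟨lt_of_lt_of_le h3 h1, lt_of_le_of_lt h2 h4, lt_of_lt_of_le h5 h1⟩

omit [DecidableEq V] in
theorem c6_y (c : Crd A) {r : ℕ} {v : ℚ} (h1 : c.w (2 * r) ≤ v) (h2 : v ≤ c.w (2 * r + 1)) :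
    A.b1 < v ∧ v < A.b2 ∧ c.h 0 < v := by
  have h3 := c.hw1 (2 * r)
  have h4 := c.hw2 (2 * r + 1)
  have h5 := c.hh1 0
  have h6 : c.h 0 < v := lt_of_lt_of_le h3 h1
  exact ⟨h5.trans h6, lt_of_le_of_lt h2 h4, h6⟩

theorem n_clearP (H : Core G ph k D P A L c γ n R y rq M) :
    ∀ r < M, ∀ v ∈ D, (newAct A c y (rq r) r).Clear (P v) := by
  intro r _ v hv
  have h := H.geo.clearP A List.mem_cons_self v hv
  constructor
  · intro x u h1 h2
    obtain ⟨h3, h4, _⟩ := c6_x c h1 h2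
    exact h.1 x u h3.le h4.le
  · intro x u h1 h2
    obtain ⟨h3, h4, _⟩ := c6_y c h1 h2
    exact h.2 x u h3.le h4.le

theorem n_clearG (H : Core G ph k D P A L c γ n R y rq M) :
    ∀ r < M, ∀ B ∈ L, (newAct A c y (rq r) r).Clear B.g := by
  intro r _ B hB
  have h := H.geo.clearG A List.mem_cons_self B (List.mem_cons_of_mem _ hB)
  constructor
  · intro x u h1 h2
    obtain ⟨h3, h4, _⟩ := c6_x c h1 h2
    exact h.1 x u h3.le h4.le
  · intro x u h1 h2
    obtain ⟨h3, h4, _⟩ := c6_y c h1 h2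
    exact h.2 x u h3.le h4.le

theorem n_clearZ (H : Core G ph k D P A L c γ n R y rq M) :
    ∀ r < M, (newAct A c y (rq r) r).Clear (zpath A γ c.h n) := by
  intro r _
  have hA : A ∈ A :: L := List.mem_cons_self
  have h := H.geo.clearG A hA A hA
  have h0 : c.h 0 < A.c.2 := ((c.hw1 0).trans (c.hw2 0)).trans H.std.up
  constructor
  · intro x u h1 h2 hv
    obtain ⟨h3, h4, h5⟩ := c6_x c h1 h2
    rw [von_z A γ c.h n x u c.hh h0] at hv
    rcases hv with hv | ⟨hx, _, _⟩ | ⟨j, hj, hx, _, _⟩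
    · exact h.1 x u h3.le h4.le ((von_g A x u).2 (Or.inl hv))
    · have := H.std.left
      rw [← hx] at this
      exact absurd this (not_lt.2 h3.le)
    · rcases H.gam.kind j hj with ⟨w, hw, hg⟩ | hg | hg
      · rcases geo_col H.geo hA hA hw with h6 | h6
        · rw [← hg, ← hx] at h6; exact absurd h6 (not_lt.2 h3.le)
        · rw [← hg, ← hx] at h6; exact absurd h6 (not_lt.2 h4.le)
      · rw [← hx] at hg; exact absurd hg h5.ne'
      · have h6 := H.far.a A hA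
        rw [← hg, ← hx] at h6
        exact absurd h6 (not_lt.2 h4.le)
  · intro x u h1 h2 hv
    obtain ⟨h3, h4, h5⟩ := c6_y c h1 h2
    rw [hon_z A γ c.h n x u] at hv
    rcases hv with hv | ⟨j, _, hu, _, _⟩
    · exact h.2 x u h3.le h4.le ((hon_g A x u).2 (Or.inl hv))
    · have h6 : c.h j ≤ c.h 0 := c.hh.antitone (Nat.zero_le j)
      rw [← hu] at h6
      exact absurd h5 (not_lt.2 h6)

end core

end Pool.Agent.BN
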