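import Mathlib
import Pool.Agent.Lib_helper30.BN.Defs
import Pool.Agent.Lib_helper30.BN.P.A5
import Pool.Agent.Lib_helper30.BN.P.A6
import Pool.Agent.Lib_helper30.BN.P.B1
set_option autoImplicit false

/-! Block C7: the windows of the new cliques are clear of the new ghosts -/

namespace Pool.Agent.BN
open Act

variable {V : Type}

section core
variable [DecidableEq V] {G : SimpleGraph V} {ph : V → Prop} {k : ℕ} {D : Finset V}
    {P : V → List Pt} {A : Act V} {L : List (Act V)} {c : Crd A} {γ : ℕ → ℚ} {n : ℕ} {R : ℚ}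
    {y : V} {rq : ℕ → Req V} {M : ℕ}

-- block C7
theorem n_clearN (H : Core G ph k D P A L c γ n R y rq M) :
    ∀ r < M, ∀ s < M, (newAct A c y (rq r) r).Clear (newAct A c y (rq s) s).g := by
  intro r hr s hs
  have hA : A ∈ A :: L := List.mem_cons_self
  have hq := H.req s hs
  have hF := geo_col H.geo hA hA hq.F
  have hN := geo_col H.geo hA hA hq.N
  have hcf := crd_facts c (rq s) s
  refine ⟨?_, ?_⟩
  · intro x v hx1 hx2 hv
    have e1 : (newAct A c y (rq r) r).a1 = c.f (4 * r + 2) := rfl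
    have e2 : (newAct A c y (rq r) r).a2 = c.f (4 * r + 3) := rfl
    rw [e1] at hx1
    rw [e2] at hx2
    have h1 : A.a1 < x := lt_of_lt_of_le (c.hf1 _) hx1
    have h2 : x < A.a2 := lt_of_le_of_lt hx2 (c.hf2 _)
    rw [von_new] at hv
    rcases hv with ⟨hxF, -, -⟩ | ⟨hxN, -, -⟩
    · rw [← hxF] at hF
      rcases hF with hF | hF
      · exact absurd h1 (not_lt.mpr hF.le)
      · exact absurd h2 (not_lt.mpr hF.le)
    · rw [← hxN] at hN
      rcases hN with hN | hN
      · exact absurd h1 (not_lt.mpr hN.le)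
      · exact absurd h2 (not_lt.mpr hN.le)
  · intro x v hv1 hv2 hh
    have e1 : (newAct A c y (rq r) r).b1 = c.w (2 * r) := rfl
    rw [e1] at hv1
    have h0 : c.h 0 < v := lt_of_lt_of_le (c.hw1 _) hv1
    rw [hon_new] at hh
    obtain ⟨_, _, hy, _, _, _, hz, _, _⟩ := hcf
    rcases hh with ⟨hv, -, -⟩ | ⟨hv, -, -⟩
    · rw [hv] at h0
      exact absurd h0 (not_lt.mpr hy)
    · rw [hv] at h0
      exact absurd h0 (not_lt.mpr hz.le)

end core

end Pool.Agent.BN
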