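import Mathlib
import Pool.Agent.Lib_helper30.BN.Defs
import Pool.Agent.Lib_helper30.BN.P.A2
import Pool.Agent.Lib_helper30.BN.P.A3
set_option autoImplicit false

/-! BN block C8: the rows and columns of the members of the new windows (helper8) -/

namespace Pool.Agent.BN
open Act

variable {V : Type}

section core
variable [DecidableEq V] {G : SimpleGraph V} {ph : V → Prop} {k : ℕ} {D : Finset V}
    {P : V → List Pt} {A : Act V} {L : List (Act V)} {c : Crd A} {γ : ℕ → ℚ} {n : ℕ} {R : ℚ}
    {y : V} {rq : ℕ → Req V} {M : ℕ}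

theorem n_own (H : Core G ph k D P A L c γ n R y rq M) :
    ∀ r < M, ∀ w ∈ (newAct A c y (rq r) r).K,
      (newAct A c y (rq r) r).Own w (Function.update P y (zpath A γ c.h n) w) := by
  intro r _ w hw
  have hA : A ∈ A :: L := List.mem_cons_self
  have h0 : c.h 0 < A.c.2 := ((c.hw1 0).trans (c.hw2 0)).trans H.std.up
  have hw' : w ∈ insert y (A.K.erase (rq r).t) := hw
  rw [Finset.mem_insert] at hw'
  by_cases hwy : w = y
  · subst hwy
    rw [Function.update_self]
    constructor
    · intro x h1 h2
      have h1' : c.f (4 * r + 2) ≤ x := h1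
      have h2' : x ≤ c.f (4 * r + 3) := h2
      have hrow : (newAct A c w (rq r) r).row w = c.h 0 := Function.update_self _ _ _
      rw [hrow, hon_z]
      right
      refine ⟨0, H.gam.pos, rfl, ?_, ?_⟩
      · have h3 : prev γ A.c.1 0 = A.c.1 := rfl
        rw [h3]
        exact lt_of_le_of_lt (min_le_left _ _)
          (H.std.left.trans (lt_of_lt_of_le (c.hf1 _) h1'))
      · exact lt_of_lt_of_le ((lt_of_le_of_lt h2' (c.hf2 _)).trans H.gam.first)
          (le_max_right _ _)
    · intro v h1 h2
      have h1' : c.w (2 * r) ≤ v := h1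
      have h2' : v ≤ c.w (2 * r + 1) := h2
      have hcol : (newAct A c w (rq r) r).col w = A.c.1 := Function.update_self _ _ _
      rw [hcol, von_z A γ c.h n _ v c.hh h0]
      right; left
      exact ⟨rfl, lt_of_lt_of_le (c.hw1 _) h1',
        (lt_of_le_of_lt h2' (c.hw2 _)).trans H.std.up⟩
  · have hwK : w ∈ A.K := by
      rcases hw' with h | h
      · exact absurd h hwy
      · exact Finset.mem_of_mem_erase h
    rw [Function.update_of_ne hwy]
    have hown := H.geo.own A hA w hwK
    constructor
    · intro x h1 h2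
      have h1' : c.f (4 * r + 2) ≤ x := h1
      have h2' : x ≤ c.f (4 * r + 3) := h2
      have hrow : (newAct A c y (rq r) r).row w = A.row w := Function.update_of_ne hwy _ _
      rw [hrow]
      exact hown.1 x ((c.hf1 _).le.trans h1') (h2'.trans (c.hf2 _).le)
    · intro v h1 h2
      have h1' : c.w (2 * r) ≤ v := h1
      have h2' : v ≤ c.w (2 * r + 1) := h2
      have hcol : (newAct A c y (rq r) r).col w = A.col w := Function.update_of_ne hwy _ _
      rw [hcol]
      exact hown.2 v (((c.hh1 0).trans (c.hw1 _)).le.trans h1') (h2'.trans (c.hw2 _).le)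

end core

end Pool.Agent.BN
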