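import Mathlib
import Pool.Agent.Lib_helper30.BN.Defs
import Pool.Agent.Lib_helper30.BN.P.A6
set_option autoImplicit false

namespace Pool.Agent.BN
open Act

variable {V : Type}

section core
variable [DecidableEq V] {G : SimpleGraph V} {ph : V → Prop} {k : ℕ} {D : Finset V}
    {P : V → List Pt} {A : Act V} {L : List (Act V)} {c : Crd A} {γ : ℕ → ℚ} {n : ℕ} {R : ℚ}
    {y : V} {rq : ℕ → Req V} {M : ℕ}

omit [DecidableEq V] in
/-- the bounds of the new window lie in the old one -/
theorem c9_bounds (c : Crd A) (r : ℕ) :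
    A.a1 < c.f (4 * r + 2) ∧ c.f (4 * r + 3) < A.a2 ∧ A.b1 < c.w (2 * r) ∧
      c.w (2 * r + 1) < A.b2 ∧ A.b1 < c.h 0 ∧ c.h 0 < A.b2 :=
  ⟨c.hf1 _, c.hf2 _, (c.hh1 0).trans (c.hw1 _), c.hw2 _, c.hh1 0, (c.hw1 0).trans (c.hw2 0)⟩

omit [DecidableEq V] in
/-- the free segment of the ghost passes at the heights of the window -/
theorem c9_seg (hs : StdStart A) {v : ℚ} (h1 : A.b1 < v) (h2 : v < A.b2) :
    VOn [A.c, A.tl] A.c.1 v := by
  left
  refine ⟨rfl, hs.tlx, ?_, ?_⟩
  · exact (min_le_right _ _).trans_lt (hs.low.trans h1)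
  · exact lt_of_lt_of_le (h2.trans hs.up) (le_max_left _ _)

theorem c9_mem {w : V} {r : ℕ} (hw : w ∈ (newAct A c y (rq r) r).K) (hwy : w ≠ y) : w ∈ A.K := by
  rcases Finset.mem_insert.1 hw with h | h
  · exact absurd h hwy
  · exact Finset.mem_of_mem_erase h

theorem c9_core (H : Core G ph k D P A L c γ n R y rq M) (r : ℕ) (w : V)
    (hw : w ∈ (newAct A c y (rq r) r).K) (p : List Pt) (h1 : A.Clear p)
    (h2 : w ≠ y → A.Excl w p) (h3 : ¬ Touch [A.c, A.tl] p) :
    (newAct A c y (rq r) r).Excl w p := by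
  obtain ⟨e1, e2, e3, e4, e5, e6⟩ := c9_bounds c r
  by_cases hwy : w = y
  · subst hwy
    constructor
    · intro x hx1 hx2
      change ¬ HOn p x (Function.update A.row w (c.h 0) w)
      rw [Function.update_self]
      exact h1.2 x _ e5.le e6.le
    · intro v hv1 hv2
      change ¬ VOn p (Function.update A.col w A.c.1 w) v
      rw [Function.update_self]
      intro hv
      have hv1' : c.w (2 * r) ≤ v := hv1
      have hv2' : v ≤ c.w (2 * r + 1) := hv2
      exact h3 ⟨A.c.1, v, Or.inr ⟨c9_seg H.std (lt_of_lt_of_le e3 hv1') (lt_of_le_of_lt hv2' e4), hv⟩⟩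
  · have h4 := h2 hwy
    constructor
    · intro x hx1 hx2
      have hx1' : c.f (4 * r + 2) ≤ x := hx1
      have hx2' : x ≤ c.f (4 * r + 3) := hx2
      change ¬ HOn p x (Function.update A.row y (c.h 0) w)
      rw [Function.update_of_ne hwy]
      exact h4.1 x (e1.le.trans hx1') (hx2'.trans e2.le)
    · intro v hv1 hv2
      have hv1' : c.w (2 * r) ≤ v := hv1
      have hv2' : v ≤ c.w (2 * r + 1) := hv2
      change ¬ VOn p (Function.update A.col y A.c.1 w) v
      rw [Function.update_of_ne hwy]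
      exact h4.2 v (e3.le.trans hv1') (hv2'.trans e4.le)

-- block C9
theorem n_exclP (H : Core G ph k D P A L c γ n R y rq M) :
    ∀ r < M, ∀ w ∈ (newAct A c y (rq r) r).K, ∀ v ∈ D, v ≠ w →
      (newAct A c y (rq r) r).Excl w (P v) := by
  intro r _ w hw v hv hvw
  have hA : A ∈ A :: L := List.mem_cons_self
  exact c9_core H r w hw (P v) (H.geo.clearP A hA v hv)
    (fun hwy => H.geo.exclP A hA w (c9_mem hw hwy) v hv hvw) (H.geo.ghost_free A hA v hv)

theorem n_exclG (H : Core G ph k D P A L c γ n R y rq M) :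
    ∀ r < M, ∀ w ∈ (newAct A c y (rq r) r).K, ∀ B ∈ L,
      (newAct A c y (rq r) r).Excl w B.g := by
  intro r _ w hw B hB
  have hA : A ∈ A :: L := List.mem_cons_self
  have hB' : B ∈ A :: L := List.mem_cons_of_mem _ hB
  have h1 : ¬ Touch A.g B.g := (List.pairwise_cons.1 H.geo.ghost_sep).1 B hB
  exact c9_core H r w hw B.g (H.geo.clearG A hA B hB')
    (fun hwy => H.geo.exclG A hA w (c9_mem hw hwy) B hB') (touch_start h1).2

end core

end Pool.Agent.BN
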