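import Mathlib
import Pool.Agent.Lib_helper30.BN.Defs
import Pool.Agent.Lib_helper30.BN.P.A6
import Pool.Agent.Lib_helper30.BN.P.C1
import Pool.Agent.Lib_helper30.BN.P.C10
import Pool.Agent.Lib_helper30.BN.P.C11
import Pool.Agent.Lib_helper30.BN.P.C12
import Pool.Agent.Lib_helper30.BN.P.C13
import Pool.Agent.Lib_helper30.BN.P.C14
import Pool.Agent.Lib_helper30.BN.P.C15
import Pool.Agent.Lib_helper30.BN.P.C16
import Pool.Agent.Lib_helper30.BN.P.C17
import Pool.Agent.Lib_helper30.BN.P.C18
import Pool.Agent.Lib_helper30.BN.P.C2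
import Pool.Agent.Lib_helper30.BN.P.C3
import Pool.Agent.Lib_helper30.BN.P.C4
import Pool.Agent.Lib_helper30.BN.P.C5
import Pool.Agent.Lib_helper30.BN.P.C6
import Pool.Agent.Lib_helper30.BN.P.C7
import Pool.Agent.Lib_helper30.BN.P.C8
import Pool.Agent.Lib_helper30.BN.P.C9
set_option autoImplicit false

namespace Pool.Agent.BN
open Act

variable {V : Type}

section
variable [DecidableEq V] {G : SimpleGraph V} {ph : V → Prop} {k : ℕ} {D : Finset V}
    {P : V → List Pt} {A : Act V} {L : List (Act V)} {c : Crd A} {γ : ℕ → ℚ} {n : ℕ} {R : ℚ}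
    {y : V} {rq : ℕ → Req V} {M : ℕ}

theorem c19_mem (B : Act V) : B ∈ newActs A c y rq M ++ L ↔
    (∃ r < M, B = newAct A c y (rq r) r) ∨ B ∈ L := by
  unfold newActs
  rw [List.mem_append, List.mem_map]
  constructor
  · rintro (⟨r, hr, e⟩ | h)
    · exact Or.inl ⟨r, List.mem_range.mp hr, e.symm⟩
    · exact Or.inr h
  · rintro (⟨r, hr, e⟩ | h)
    · exact Or.inl ⟨r, List.mem_range.mpr hr, e.symm⟩
    · exact Or.inr h

theorem c19_pair (T : Act V → Act V → Prop)
    (h1 : ∀ r < M, ∀ s < M, r ≠ s → T (newAct A c y (rq r) r) (newAct A c y (rq s) s))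
    (h2 : ∀ r < M, ∀ B ∈ L, T (newAct A c y (rq r) r) B) (h3 : L.Pairwise T) :
    (newActs A c y rq M ++ L).Pairwise T := by
  unfold newActs
  rw [List.pairwise_append]
  refine ⟨?_, h3, ?_⟩
  · rw [List.pairwise_map]
    have hp : (List.range M).Pairwise (fun a b => a < b) := List.pairwise_lt_range
    refine hp.imp_of_mem ?_
    intro a b ha hb hab
    exact h1 a (List.mem_range.mp ha) b (List.mem_range.mp hb) (ne_of_lt hab)
  · intro B hB C hC
    obtain ⟨r, hr, rfl⟩ := List.mem_map.mp hB
    exact h2 r (List.mem_range.mp hr) C hC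

theorem core_geo (H : Core G ph k D P A L c γ n R y rq M) :
    Geo G ph k (insert y D) (Function.update P y (zpath A γ c.h n))
      (newActs A c y rq M ++ L) := by
  have hne : ∀ v ∈ D, v ≠ y := fun v hv e => H.yD (e ▸ hv)
  have hPy : Function.update P y (zpath A γ c.h n) y = zpath A γ c.h n := Function.update_self ..
  have hPv : ∀ v ∈ D, Function.update P y (zpath A γ c.h n) v = P v := fun v hv =>
    Function.update_of_ne (hne v hv) ..
  have hin : ∀ B ∈ L, B ∈ A :: L := fun B hB => List.mem_cons_of_mem A hB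
  have hKD : ∀ B ∈ L, B.K ⊆ D := fun B hB => (H.geo.win B (hin B hB)).2.2.1
  have hSK : ∀ B ∈ L, B.S ⊆ B.K := fun B hB => (H.geo.win B (hin B hB)).2.2.2.2
  constructor
  -- touch_iff
  · intro u hu v hv huv
    rw [Finset.mem_insert] at hu hv
    rcases hu with hu | hu
    · rcases hv with hv | hv
      · exact absurd (hu.trans hv.symm) huv
      · rw [hu, hPy, hPv v hv, z_touch H v hv, H.adj v hv]
    · rcases hv with hv | hv
      · rw [hv, hPy, hPv u hu, touch_comm, z_touch H u hu, G.adj_comm, H.adj u hu]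
      · rw [hPv u hu, hPv v hv]
        exact H.geo.touch_iff u hu v hv huv
  -- path_ok
  · intro v hv hph
    rw [Finset.mem_insert] at hv
    rcases hv with hv | hv
    · rw [hv] at hph
      rw [hv, hPy]
      exact z_path H hph
    · rw [hPv v hv]
      exact H.geo.path_ok v hv hph
  -- win
  · intro B hB
    rcases (c19_mem B).mp hB with ⟨r, hr, rfl⟩ | hB
    · exact n_win H r hr
    · obtain ⟨w1, w2, w3, w4, w5⟩ := H.geo.win B (hin B hB)
      exact ⟨w1, w2, w3.trans (Finset.subset_insert y D), w4, w5⟩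
  -- clearP
  · intro B hB v hv
    rw [Finset.mem_insert] at hv
    rcases (c19_mem B).mp hB with ⟨r, hr, rfl⟩ | hB
    · rcases hv with hv | hv
      · rw [hv, hPy]; exact n_clearZ H r hr
      · rw [hPv v hv]; exact n_clearP H r hr v hv
    · rcases hv with hv | hv
      · rw [hv, hPy]; exact z_clear_old H B hB
      · rw [hPv v hv]; exact H.geo.clearP B (hin B hB) v hv
  -- clearG
  · intro B hB C hC
    rcases (c19_mem B).mp hB with ⟨r, hr, rfl⟩ | hB
    · rcases (c19_mem C).mp hC with ⟨s, hs, rfl⟩ | hC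
      · exact n_clearN H r hr s hs
      · exact n_clearG H r hr C hC
    · rcases (c19_mem C).mp hC with ⟨s, hs, rfl⟩ | hC
      · exact o_clearN H s hs B hB
      · exact H.geo.clearG B (hin B hB) C (hin C hC)
  -- own
  · intro B hB w hw
    rcases (c19_mem B).mp hB with ⟨r, hr, rfl⟩ | hB
    · exact n_own H r hr w hw
    · rw [hPv w (hKD B hB hw)]
      exact H.geo.own B (hin B hB) w hw
  -- exclP
  · intro B hB w hw v hv hvw
    rw [Finset.mem_insert] at hv
    rcases (c19_mem B).mp hB with ⟨r, hr, rfl⟩ | hB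
    · rcases hv with hv | hv
      · rw [hv, hPy]
        exact n_exclZ H r hr w hw (fun e => hvw (hv.trans e.symm))
      · rw [hPv v hv]; exact n_exclP H r hr w hw v hv hvw
    · rcases hv with hv | hv
      · rw [hv, hPy]; exact z_excl_old H B hB w hw
      · rw [hPv v hv]; exact H.geo.exclP B (hin B hB) w hw v hv hvw
  -- exclG
  · intro B hB w hw C hC
    rcases (c19_mem B).mp hB with ⟨r, hr, rfl⟩ | hB
    · rcases (c19_mem C).mp hC with ⟨s, hs, rfl⟩ | hC
      · exact n_exclN H r hr w hw s hs
      · exact n_exclG H r hr w hw C hC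
    · rcases (c19_mem C).mp hC with ⟨s, hs, rfl⟩ | hC
      · exact o_exclN H s hs B hB w hw
      · exact H.geo.exclG B (hin B hB) w hw C (hin C hC)
  -- sep
  · refine c19_pair _ (n_Sep H) (n_SepO H) ?_
    exact (List.pairwise_cons.mp H.geo.sep).2
  -- ghost_touch
  · intro B hB v hv
    rw [Finset.mem_insert] at hv
    rcases (c19_mem B).mp hB with ⟨r, hr, rfl⟩ | hB
    · have hS : ∀ u, u ∈ (newAct A c y (rq r) r).S ↔ u = (rq r).F ∨ u = (rq r).N ∨ u = y := by
        intro u
        change u ∈ ({(rq r).F, (rq r).N, y} : Finset V) ↔ _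
        rw [Finset.mem_insert, Finset.mem_insert, Finset.mem_singleton]
      rcases hv with hv | hv
      · rw [hv, hPy, hS]
        exact ⟨fun _ => Or.inr (Or.inr rfl), fun _ => n_touchZ H r hr⟩
      · rw [hPv v hv, hS, n_touchP H r hr v hv]
        constructor
        · rintro (h | h)
          · exact Or.inl h
          · exact Or.inr (Or.inl h)
        · rintro (h | h | h)
          · exact Or.inl h
          · exact Or.inr h
          · exact absurd h (hne v hv)
    · rcases hv with hv | hv
      · rw [hv, hPy]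
        constructor
        · intro h
          exact absurd h (touch_start (z_ghost_old H B hB)).1
        · intro h
          exact absurd (hKD B hB (hSK B hB h)) H.yD
      · rw [hPv v hv]
        exact H.geo.ghost_touch B (hin B hB) v hv
  -- ghost_free
  · intro B hB v hv
    rw [Finset.mem_insert] at hv
    rcases (c19_mem B).mp hB with ⟨r, hr, rfl⟩ | hB
    · rcases hv with hv | hv
      · rw [hv, hPy]; exact n_freeZ H r hr
      · rw [hPv v hv]; exact n_freeP H r hr v hv
    · rcases hv with hv | hv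
      · rw [hv, hPy]
        exact (touch_start (z_ghost_old H B hB)).2
      · rw [hPv v hv]
        exact H.geo.ghost_free B (hin B hB) v hv
  -- ghost_sep
  · refine c19_pair _ (n_sepN H) (n_sepG H) ?_
    exact (List.pairwise_cons.mp H.geo.ghost_sep).2

end

end Pool.Agent.BN
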