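import Mathlib
import Pool.Agent.Lib_helper30.BN.Defs

namespace Pool.Agent.BN

open Act

variable {V : Type}

section core
variable [DecidableEq V] {G : SimpleGraph V} {ph : V → Prop} {k : ℕ} {D : Finset V}
    {P : V → List Pt} {A : Act V} {L : List (Act V)} {c : Crd A} {γ : ℕ → ℚ} {n : ℕ} {R : ℚ}
    {y : V} {rq : ℕ → Req V} {M : ℕ}

theorem new_full (H : Core G ph k D P A L c γ n R y rq M) :
    ∀ r < M, (∃ ω ∈ A.K, ω ≠ (rq r).t ∧ ω ≠ (rq r).F ∧ ω ≠ (rq r).N ∧ A.b2 < A.row ω) →
      (newAct A c y (rq r) r).Full := by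
  intro r hr hω
  obtain ⟨ω, hωK, hωt, hωF, hωN, hωr⟩ := hω
  have hq := H.req r hr
  have hwin := H.geo.win A (List.mem_cons_self)
  have hKD : A.K ⊆ D := hwin.2.2.1
  have hyK : y ∉ A.K := fun h => H.yD (hKD h)
  set q := rq r with hqd
  have hFy : q.F ≠ y := fun h => hyK (h ▸ hq.F)
  have hNy : q.N ≠ y := fun h => hyK (h ▸ hq.N)
  have hωy : ω ≠ y := fun h => hyK (h ▸ hωK)
  have hS : ({q.F, q.N, y} : Finset V) ⊆ insert y (A.K.erase q.t) := by
    intro v hv
    simp only [Finset.mem_insert, Finset.mem_singleton] at hv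
    rcases hv with h | h | h
    · rw [h]; exact Finset.mem_insert_of_mem (Finset.mem_erase.mpr ⟨hq.Ft, hq.F⟩)
    · rw [h]; exact Finset.mem_insert_of_mem (Finset.mem_erase.mpr ⟨hq.Nt, hq.N⟩)
    · rw [h]; exact Finset.mem_insert_self _ _
  have hcard : ({q.F, q.N, y} : Finset V).card = 3 := by
    rw [Finset.card_insert_of_notMem, Finset.card_insert_of_notMem, Finset.card_singleton]
    · simpa using hNy
    · simp only [Finset.mem_insert, Finset.mem_singleton, not_or]
      exact ⟨hq.FN, hFy⟩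
  have hωK' : ω ∈ insert y (A.K.erase q.t) :=
    Finset.mem_insert_of_mem (Finset.mem_erase.mpr ⟨hωt, hωK⟩)
  have hωS : ω ∉ ({q.F, q.N, y} : Finset V) := by
    simp only [Finset.mem_insert, Finset.mem_singleton, not_or]
    exact ⟨hωF, hωN, hωy⟩
  have hcF : Function.update A.col y A.c.1 q.F = A.col q.F := Function.update_of_ne hFy _ _
  have hcN : Function.update A.col y A.c.1 q.N = A.col q.N := Function.update_of_ne hNy _ _
  have hrω : Function.update A.row y (c.h 0) ω = A.row ω := Function.update_of_ne hωy _ _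
  have hz : c.z q.j (3 * r + 2) < c.w (2 * r) := by
    have h1 := c.hz2 q.j (3 * r + 2)
    have h2 : c.h q.j ≤ c.h 0 := c.hh.antitone (Nat.zero_le _)
    have h3 := c.hw1 (2 * r)
    linarith
  have hw2 : c.w (2 * r + 1) < A.row ω := lt_trans (c.hw2 _) hωr
  have hf12 : c.f (4 * r + 1) < c.f (4 * r + 2) := c.hf (by omega)
  have hf34 : c.f (4 * r + 3) < c.f (4 * r + 4) := c.hf (by omega)
  rcases hq.side with ⟨h1, h2⟩ | ⟨h1, h2⟩
  · refine ⟨(false, false, true), c.z q.j (3 * r), y1 c q r, c.z q.j (3 * r + 2),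
      c.f (4 * r + 1), q.F, q.N, ω, ?_, ?_, ?_, ?_, ?_, ?_, ?_, ?_, ?_, ?_, ?_, ?_, ?_, ?_⟩
    · simp [acts, sw, newAct, act, hcF, hcN]
    · simp [acts, sw, newAct, act, hcN]
    · simp [acts, sw, newAct, act, ex, h1]
    · exact hz
    · exact hf12
    · show c.f (4 * r + 3) < Function.update A.col y A.c.1 q.N
      rw [hcN]
      exact lt_trans (c.hf2 _) h1
    · show Function.update A.col y A.c.1 q.N < Function.update A.col y A.c.1 q.F
      rw [hcN, hcF]
      exact h2
    · show q.F ∈ ({q.F, q.N, y} : Finset V)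
      simp
    · show q.N ∈ ({q.F, q.N, y} : Finset V)
      simp
    · exact hS
    · exact hcard
    · exact hωK'
    · exact hωS
    · show c.w (2 * r + 1) < Function.update A.row y (c.h 0) ω
      rw [hrω]
      exact hw2
  · have hnot : ¬ A.a2 < A.col q.N := by
      have := hwin.1
      linarith
    refine ⟨(true, false, true), c.z q.j (3 * r), y1 c q r, c.z q.j (3 * r + 2),
      -c.f (4 * r + 4), q.F, q.N, ω, ?_, ?_, ?_, ?_, ?_, ?_, ?_, ?_, ?_, ?_, ?_, ?_, ?_, ?_⟩
    · simp [acts, sw, nx, newAct, act, hcF, hcN]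
    · simp [acts, sw, nx, newAct, act, hcN]
    · simp [acts, sw, nx, newAct, act, ex, hnot]
    · exact hz
    · show -c.f (4 * r + 4) < -c.f (4 * r + 3)
      linarith
    · show -c.f (4 * r + 2) < -Function.update A.col y A.c.1 q.N
      rw [hcN]
      have := c.hf1 (4 * r + 2)
      linarith
    · show -Function.update A.col y A.c.1 q.N < -Function.update A.col y A.c.1 q.F
      rw [hcN, hcF]
      linarith
    · show q.F ∈ ({q.F, q.N, y} : Finset V)
      simp
    · show q.N ∈ ({q.F, q.N, y} : Finset V)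
      simp
    · exact hS
    · exact hcard
    · exact hωK'
    · exact hωS
    · show c.w (2 * r + 1) < Function.update A.row y (c.h 0) ω
      rw [hrω]
      exact hw2

end core

end Pool.Agent.BN
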