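import Mathlib
import Pool.Agent.Lib_helper30.BN.Defs
import Pool.Agent.Lib_helper30.BN.P.C19
import Pool.Agent.Lib_helper30.BN.P.C20
set_option autoImplicit false

namespace Pool.Agent.BN
open Act

variable {V : Type}

-- block E1
theorem step_of_req [DecidableEq V] {G : SimpleGraph V} {ph : V → Prop} {k : ℕ} {D : Finset V}
    {P : V → List Pt} {A : Act V} {L : List (Act V)} {c : Crd A} {γ : ℕ → ℚ} {n : ℕ} {R : ℚ}
    {y : V} {rq : ℕ → Req V} {ts : List V} (H : Core G ph k D P A L c γ n R y rq ts.length)
    (hL : ∀ B ∈ L, B.Full)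
    (hts : ∀ (r : ℕ) (h : r < ts.length), (rq r).t = ts[r])
    (hω : ∀ r < ts.length, ∃ ω ∈ A.K, ω ≠ (rq r).t ∧ ω ≠ (rq r).F ∧ ω ≠ (rq r).N ∧
      A.b2 < A.row ω) :
    StepOut G ph k D A L y ts := by
  refine ⟨Function.update P y (zpath A γ c.h n), newActs A c y rq ts.length ++ L, core_geo H,
    ?_, ?_⟩
  · intro B hB
    rcases List.mem_append.1 hB with h | h
    · unfold newActs at h
      rw [List.mem_map] at h
      obtain ⟨r, hr, rfl⟩ := h
      rw [List.mem_range] at hr
      exact new_full H r hr (hω r hr)
    · exact hL B h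
  · rw [List.map_append]
    congr 1
    unfold newActs
    rw [List.map_map]
    apply List.ext_getElem
    · simp
    · intro i h1 h2
      have hi : i < ts.length := by simpa using h2
      simp only [List.getElem_map, List.getElem_range, Function.comp_apply]
      show insert y (A.K.erase (rq i).t) = _
      rw [hts i hi]

end Pool.Agent.BN
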