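import Mathlib
import Pool.Agent.Lib_helper30.BN.Defs
import Pool.Agent.Lib_helper30.BN.P.B1
import Pool.Agent.Lib_helper30.BN.P.D3
import Pool.Agent.Lib_helper30.BN.P.E1
set_option autoImplicit false

namespace Pool.Agent.BN
open Act

variable {V : Type}

theorem e3_getD_idxOf [DecidableEq V] (l : List V) (ν v : V) (hv : v ∈ l) :
    l.getD (l.idxOf v) ν = v := by
  have h : l.idxOf v < l.length := List.idxOf_lt_length_iff.2 hv
  rw [List.getD_eq_getElem _ _ h, List.getElem_idxOf]

theorem e3_getD_mem (l : List V) (ν : V) (j : ℕ) (hj : j < l.length) : l.getD j ν ∈ l := by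
  rw [List.getD_eq_getElem _ _ hj]
  exact List.getElem_mem hj

/-- the request for the label `t` -/
noncomputable def e3_req [DecidableEq V] (l : List V) (sel : V → V × V × V) (t : V) : Req V :=
  { t := t
    F := (sel t).1
    N := (sel t).2.1
    j := if (sel t).1 ∈ l then l.idxOf (sel t).1 else l.idxOf (sel t).2.1
    cr := false }

/-- block E3: common treatment of the steps whose new ghosts use contacts of the new path.
`l` is the list of the members whose columns are used, in this order. -/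
theorem step_r2 [DecidableEq V] {G : SimpleGraph V} {ph : V → Prop} {k : ℕ} {D : Finset V}
    {P : V → List Pt} {A : Act V} {L : List (Act V)} (hG : Geo G ph k D P (A :: L))
    (hS : StdStart A) (hL : ∀ B ∈ L, B.Full) {y : V} (hy : y ∉ D) (l : List V)
    (hl : ∀ v ∈ l, v ∈ A.K) (ν : V) (hν : l.head? = some ν) (hν2 : A.a2 < A.col ν)
    (hadj : ∀ v ∈ D, (G.Adj y v ↔ v ∈ A.S ∨ v ∈ l))
    (hlen : ¬ ph y → A.q.length + 2 + 2 * l.length ≤ 2 * k - 1)
    (ts : List V) (hts : ∀ t ∈ ts, t ∈ A.K)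
    (hsel : ∀ t ∈ A.K, ∃ F N ω : V, F ∈ A.K ∧ N ∈ A.K ∧ ω ∈ A.K ∧ F ≠ N ∧ F ≠ t ∧ N ≠ t ∧
      ω ≠ t ∧ ω ≠ F ∧ ω ≠ N ∧ A.b2 < A.row ω ∧ (F ∈ l ∨ N ∈ l) ∧
      ((A.a2 < A.col N ∧ A.col N < A.col F) ∨ (A.col F < A.col N ∧ A.col N < A.a1))) :
    StepOut G ph k D A L y ts := by
  classical
  obtain ⟨hw1, hw2, _, _, _⟩ := hG.win A List.mem_cons_self
  obtain ⟨c⟩ := exists_crd A hw1 hw2
  obtain ⟨R, hR⟩ := exists_farR D P (A :: L)
  have hsel' : ∀ t : V, ∃ s : V × V × V, t ∈ A.K →
      s.1 ∈ A.K ∧ s.2.1 ∈ A.K ∧ s.2.2 ∈ A.K ∧ s.1 ≠ s.2.1 ∧ s.1 ≠ t ∧ s.2.1 ≠ t ∧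
      s.2.2 ≠ t ∧ s.2.2 ≠ s.1 ∧ s.2.2 ≠ s.2.1 ∧ A.b2 < A.row s.2.2 ∧ (s.1 ∈ l ∨ s.2.1 ∈ l) ∧
      ((A.a2 < A.col s.2.1 ∧ A.col s.2.1 < A.col s.1) ∨
        (A.col s.1 < A.col s.2.1 ∧ A.col s.2.1 < A.a1)) := by
    intro t
    by_cases ht : t ∈ A.K
    · obtain ⟨F, N, ω, h⟩ := hsel t ht
      exact ⟨(F, N, ω), fun _ => h⟩
    · exact ⟨(ν, ν, ν), fun h => absurd h ht⟩
  choose sel hsel2 using hsel'
  have htK : ∀ r < ts.length, ts.getD r ν ∈ A.K :=
    fun r hr => hts _ (e3_getD_mem ts ν r hr)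
  have hpos : 0 < l.length := by
    rcases l with _ | ⟨a, l⟩
    · simp at hν
    · simp
  have h0 : l.getD 0 ν = ν := by
    rcases l with _ | ⟨a, l⟩
    · simp at hν
    · simp only [List.head?_cons, Option.some.injEq] at hν
      simp [hν]
  have H : Core G ph k D P A L c (fun j => A.col (l.getD j ν)) l.length R y
      (fun r => e3_req l sel (ts.getD r ν)) ts.length := by
    refine
      { geo := hG, std := hS, yD := hy, gam := ?_, far := hR, req := ?_, cmp := ?_, adj := ?_,
        len := hlen }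
    · refine { pos := hpos, first := ?_, kind := ?_ }
      · show A.a2 < A.col (l.getD 0 ν)
        rw [h0]
        exact hν2
      · intro j hj
        exact Or.inl ⟨l.getD j ν, hl _ (e3_getD_mem l ν j hj), rfl⟩
    · intro r hr
      obtain ⟨h1, h2, h3, h4, h5, h6, h7, h8, h9, h10, h11, h12⟩ := hsel2 _ (htK r hr)
      refine
        { t := htK r hr, F := h1, N := h2, FN := h4, Ft := h5, Nt := h6, j := ?_, side := h12,
          r2 := ?_, cr := ?_ }
      · show (if (sel (ts.getD r ν)).1 ∈ l then l.idxOf (sel (ts.getD r ν)).1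
          else l.idxOf (sel (ts.getD r ν)).2.1) < l.length
        split_ifs with h
        · exact List.idxOf_lt_length_iff.2 h
        · exact List.idxOf_lt_length_iff.2 (h11.resolve_left h)
      · intro _
        show A.col (l.getD (if (sel (ts.getD r ν)).1 ∈ l then l.idxOf (sel (ts.getD r ν)).1
          else l.idxOf (sel (ts.getD r ν)).2.1) ν) = A.col (sel (ts.getD r ν)).1 ∨
          A.col (l.getD (if (sel (ts.getD r ν)).1 ∈ l then l.idxOf (sel (ts.getD r ν)).1
          else l.idxOf (sel (ts.getD r ν)).2.1) ν) = A.col (sel (ts.getD r ν)).2.1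
        split_ifs with h
        · left
          rw [e3_getD_idxOf l ν _ h]
        · right
          rw [e3_getD_idxOf l ν _ (h11.resolve_left h)]
      · intro h
        exact absurd h (by simp [e3_req])
    · intro r _ r' _ _ _
      refine ⟨rfl, fun h => ?_⟩
      exact absurd h (by simp [e3_req])
    · intro v hv
      rw [hadj v hv]
      constructor
      · rintro (h | h)
        · exact Or.inl h
        · refine Or.inr ⟨hl v h, l.idxOf v, List.idxOf_lt_length_iff.2 h, ?_⟩
          show A.col (l.getD (l.idxOf v) ν) = A.col v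
          rw [e3_getD_idxOf l ν v h]
      · rintro (h | ⟨hvK, j, hj, hjv⟩)
        · exact Or.inl h
        · right
          have h1 := e3_getD_mem l ν j hj
          have h2 : l.getD j ν = v :=
            geo_col_inj hG List.mem_cons_self (hl _ h1) hvK hjv
          rwa [h2] at h1
  refine step_of_req H hL ?_ ?_
  · intro r hr
    show ts.getD r ν = ts[r]
    exact List.getD_eq_getElem _ _ hr
  · intro r hr
    obtain ⟨h1, h2, h3, h4, h5, h6, h7, h8, h9, h10, h11, h12⟩ := hsel2 _ (htK r hr)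
    exact ⟨(sel (ts.getD r ν)).2.2, h3, h7, h8, h9, h10⟩

end Pool.Agent.BN
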