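import Mathlib
import Pool.Agent.Lib_helper30.BN.Defs
import Pool.Agent.Lib_helper30.BN.P.B1
set_option autoImplicit false

namespace Pool.Agent.BN
open Act

variable {V : Type}

/-- two members on the same side can be ordered -/
theorem e2_same [DecidableEq V] {G : SimpleGraph V} {ph : V → Prop} {k : ℕ} {D : Finset V}
    {P : V → List Pt} {A : Act V} {L : List (Act V)} (hG : Geo G ph k D P (A :: L))
    {p q : V} (hp : p ∈ A.K) (hq : q ∈ A.K) (hpq : p ≠ q)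
    (hs : (A.a2 < A.col p ∧ A.a2 < A.col q) ∨ (A.col p < A.a1 ∧ A.col q < A.a1)) :
    ∃ F N : V, ((F = p ∧ N = q) ∨ (F = q ∧ N = p)) ∧
      ((A.a2 < A.col N ∧ A.col N < A.col F) ∨ (A.col F < A.col N ∧ A.col N < A.a1)) := by
  have hne : A.col p ≠ A.col q := fun h =>
    hpq (geo_col_inj hG List.mem_cons_self hp hq h)
  rcases hs with ⟨h1, h2⟩ | ⟨h1, h2⟩
  · rcases lt_or_gt_of_ne hne with h | h
    · exact ⟨q, p, Or.inr ⟨rfl, rfl⟩, Or.inl ⟨h1, h⟩⟩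
    · exact ⟨p, q, Or.inl ⟨rfl, rfl⟩, Or.inl ⟨h2, h⟩⟩
  · rcases lt_or_gt_of_ne hne with h | h
    · exact ⟨p, q, Or.inl ⟨rfl, rfl⟩, Or.inr ⟨h, h2⟩⟩
    · exact ⟨q, p, Or.inr ⟨rfl, rfl⟩, Or.inr ⟨h, h1⟩⟩

-- block E2
theorem r2_pick [DecidableEq V] {G : SimpleGraph V} {ph : V → Prop} {k : ℕ} {D : Finset V}
    {P : V → List Pt} {A : Act V} {L : List (Act V)} (hG : Geo G ph k D P (A :: L))
    (T0 : Finset V) {p q u : V} (hp : p ∈ A.K) (hq : q ∈ A.K) (hu : u ∈ A.K)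
    (hp0 : p ∉ T0) (hq0 : q ∉ T0) (hu0 : u ∉ T0) (hpq : p ≠ q) (hpu : p ≠ u) (hqu : q ≠ u) :
    ∃ F N : V, F ∈ A.K ∧ N ∈ A.K ∧ F ∉ T0 ∧ N ∉ T0 ∧ F ≠ N ∧
      ((A.a2 < A.col N ∧ A.col N < A.col F) ∨ (A.col F < A.col N ∧ A.col N < A.a1)) ∧
      (F = p ∨ F = q ∨ N = p ∨ N = q) := by
  have key : ∀ {a b : V}, a ∈ A.K → b ∈ A.K → a ∉ T0 → b ∉ T0 → a ≠ b → (a = p ∨ a = q) →
      ((A.a2 < A.col a ∧ A.a2 < A.col b) ∨ (A.col a < A.a1 ∧ A.col b < A.a1)) →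
      ∃ F N : V, F ∈ A.K ∧ N ∈ A.K ∧ F ∉ T0 ∧ N ∉ T0 ∧ F ≠ N ∧
        ((A.a2 < A.col N ∧ A.col N < A.col F) ∨ (A.col F < A.col N ∧ A.col N < A.a1)) ∧
        (F = p ∨ F = q ∨ N = p ∨ N = q) := by
    intro a b ha hb ha0 hb0 hab hpa hs
    obtain ⟨F, N, hFN, h2⟩ := e2_same hG ha hb hab hs
    rcases hFN with ⟨rfl, rfl⟩ | ⟨rfl, rfl⟩
    · refine ⟨F, N, ha, hb, ha0, hb0, hab, h2, ?_⟩
      rcases hpa with h | h
      · exact Or.inl h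
      · exact Or.inr (Or.inl h)
    · refine ⟨F, N, hb, ha, hb0, ha0, hab.symm, h2, ?_⟩
      rcases hpa with h | h
      · exact Or.inr (Or.inr (Or.inl h))
      · exact Or.inr (Or.inr (Or.inr h))
  have hA : A ∈ A :: L := List.mem_cons_self
  rcases geo_col hG hA hA hp with h1 | h1 <;> rcases geo_col hG hA hA hq with h2 | h2
  · exact key hp hq hp0 hq0 hpq (Or.inl rfl) (Or.inr ⟨h1, h2⟩)
  · rcases geo_col hG hA hA hu with h3 | h3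
    · exact key hp hu hp0 hu0 hpu (Or.inl rfl) (Or.inr ⟨h1, h3⟩)
    · exact key hq hu hq0 hu0 hqu (Or.inr rfl) (Or.inl ⟨h2, h3⟩)
  · rcases geo_col hG hA hA hu with h3 | h3
    · exact key hq hu hq0 hu0 hqu (Or.inr rfl) (Or.inr ⟨h2, h3⟩)
    · exact key hp hu hp0 hu0 hpu (Or.inl rfl) (Or.inl ⟨h1, h3⟩)
  · exact key hp hq hp0 hq0 hpq (Or.inl rfl) (Or.inl ⟨h1, h2⟩)

end Pool.Agent.BN
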