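import Mathlib
import Pool.Agent.Lib_helper30.BN.Defs
import Pool.Agent.Lib_helper30.BN.P.E2

namespace Pool.Agent.BN
open Act

variable {V : Type}

theorem e4_three [DecidableEq V] (l : List V) (hnd : l.Nodup) (hlen : 4 ≤ l.length) (t : V) :
    ∃ p q u : V, p ∈ l ∧ q ∈ l ∧ u ∈ l ∧ p ≠ t ∧ q ≠ t ∧ u ≠ t ∧ p ≠ q ∧ p ≠ u ∧ q ≠ u := by
  have hcard : 2 < (l.toFinset.erase t).card := by
    have h1 : l.toFinset.card = l.length := List.toFinset_card_of_nodup hnd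
    have h2 := Finset.pred_card_le_card_erase (s := l.toFinset) (a := t)
    omega
  obtain ⟨p, q, u, hp, hq, hu, h1, h2, h3⟩ := Finset.two_lt_card_iff.mp hcard
  rw [Finset.mem_erase, List.mem_toFinset] at hp hq hu
  exact ⟨p, q, u, hp.2, hq.2, hu.2, hp.1, hq.1, hu.1, h1, h2, h3⟩

/-- block E4: selection when the owners `α`, `β` of the rows of the start are available -/
theorem sel_rows [DecidableEq V] {G : SimpleGraph V} {ph : V → Prop} {k : ℕ} {D : Finset V}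
    {P : V → List Pt} {A : Act V} {L : List (Act V)} (hG : Geo G ph k D P (A :: L))
    (l : List V) (hl : ∀ v ∈ l, v ∈ A.K) (hnd : l.Nodup) (hlen : 4 ≤ l.length)
    {α β : V} (hα : α ∈ A.K) (hβ : β ∈ A.K) (hαβ : α ≠ β) (hαl : α ∉ l) (hβl : β ∉ l)
    (hα2 : A.b2 < A.row α) (hβ2 : A.b2 < A.row β) :
    ∀ t ∈ A.K, ∃ F N ω : V, F ∈ A.K ∧ N ∈ A.K ∧ ω ∈ A.K ∧ F ≠ N ∧ F ≠ t ∧ N ≠ t ∧
      ω ≠ t ∧ ω ≠ F ∧ ω ≠ N ∧ A.b2 < A.row ω ∧ (F ∈ l ∨ N ∈ l) ∧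
      ((A.a2 < A.col N ∧ A.col N < A.col F) ∨ (A.col F < A.col N ∧ A.col N < A.a1)) := by
  intro t _
  obtain ⟨ω, hωK, hωt, hωl, hω2⟩ : ∃ ω ∈ A.K, ω ≠ t ∧ ω ∉ l ∧ A.b2 < A.row ω := by
    by_cases h : t = α
    · exact ⟨β, hβ, fun hh => hαβ (by rw [hh, h]), hβl, hβ2⟩
    · exact ⟨α, hα, fun hh => h hh.symm, hαl, hα2⟩
  obtain ⟨p, q, u, hp, hq, hu, hpt, hqt, hut, hpq, hpu, hqu⟩ := e4_three l hnd hlen t
  have hmem : ∀ v ∈ l, v ≠ t → v ∉ ({t, ω} : Finset V) := by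
    intro v hv hvt
    simp only [Finset.mem_insert, Finset.mem_singleton, not_or]
    exact ⟨hvt, fun h => hωl (h ▸ hv)⟩
  obtain ⟨F, N, hF, hN, hF0, hN0, hFN, hside, hor⟩ :=
    r2_pick hG ({t, ω} : Finset V) (hl p hp) (hl q hq) (hl u hu) (hmem p hp hpt)
      (hmem q hq hqt) (hmem u hu hut) hpq hpu hqu
  simp only [Finset.mem_insert, Finset.mem_singleton, not_or] at hF0 hN0
  refine ⟨F, N, ω, hF, hN, hωK, hFN, hF0.1, hN0.1, hωt, fun h => hF0.2 h.symm,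
    fun h => hN0.2 h.symm, hω2, ?_, hside⟩
  rcases hor with h | h | h | h
  · left; rw [h]; exact hp
  · left; rw [h]; exact hq
  · right; rw [h]; exact hp
  · right; rw [h]; exact hq

end Pool.Agent.BN
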