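import Mathlib
import Pool.Agent.Lib_helper30.BN.Defs
import Pool.Agent.Lib_helper30.BN.P.E3
import Pool.Agent.Lib_helper30.BN.P.E4
set_option autoImplicit false

namespace Pool.Agent.BN
open Act

variable {V : Type}

theorem crit_std [DecidableEq V] {G : SimpleGraph V} {ph : V → Prop} {k : ℕ} (hk : 8 ≤ k)
    {D : Finset V} {P : V → List Pt} {A : Act V} {L : List (Act V)}
    (hG : Geo G ph k D P (A :: L)) (hL : ∀ B ∈ L, B.Full) (hA : A.StdFull) {y : V} (hy : y ∉ D)
    (hadj : ∀ v ∈ D, (G.Adj y v ↔ v ∈ A.K)) (ts : List V) (hts : ∀ t ∈ ts, t ∈ A.K) :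
    StepOut G ph k D A L y ts := by
  obtain ⟨x0, x1, xs, e, α, β, ω, hq, hc, htl, hxs, he, hβ2, hαβ, hα, hβ, hSK, hS3, hω, hωS, hω2⟩ :=
    hA
  obtain ⟨-, hb12, -, hKc, -⟩ := hG.win A (by simp)
  have hne : α ≠ β := by
    intro h
    rw [h] at hαβ
    exact lt_irrefl _ hαβ
  have hstd : StdStart A := by
    refine ⟨by rw [htl, hc], by rw [hc]; exact hxs, by rw [hc]; exact hβ2, by rw [htl]; exact he,
      ?_⟩
    rw [hq, hc, htl]
    refine ⟨Or.inr rfl, le_refl _, hαβ, Or.inl rfl, hαβ.le, hαβ, Or.inr rfl, le_refl _, ?_,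
      Or.inl rfl, ?_⟩
    · change e < A.row β
      linarith
    · change e ≤ A.row β
      linarith
  have hmem : ∀ v, v ∈ ω :: ((A.K \ A.S).erase ω).toList ↔ v ∈ A.K ∧ v ∉ A.S := by
    intro v
    rw [List.mem_cons, Finset.mem_toList, Finset.mem_erase, Finset.mem_sdiff]
    constructor
    · rintro (rfl | ⟨-, h⟩)
      · exact ⟨hω, hωS⟩
      · exact h
    · intro h
      by_cases h1 : v = ω
      · exact Or.inl h1
      · exact Or.inr ⟨h1, h⟩
  have hlen : (ω :: ((A.K \ A.S).erase ω).toList).length = k - 3 := by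
    rw [List.length_cons, Finset.length_toList,
      Finset.card_erase_of_mem (Finset.mem_sdiff.2 ⟨hω, hωS⟩), Finset.card_sdiff_of_subset hSK, hKc, hS3]
    omega
  have hnd : (ω :: ((A.K \ A.S).erase ω).toList).Nodup := by
    rw [List.nodup_cons]
    refine ⟨?_, Finset.nodup_toList _⟩
    rw [Finset.mem_toList]
    exact Finset.notMem_erase _ _
  have hlK : ∀ v ∈ ω :: ((A.K \ A.S).erase ω).toList, v ∈ A.K := fun v hv => ((hmem v).1 hv).1
  have hsel := sel_rows hG (ω :: ((A.K \ A.S).erase ω).toList) hlK hnd (by omega)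
    (α := α) (β := β) (hSK hα) (hSK hβ) hne (fun h => ((hmem α).1 h).2 hα)
    (fun h => ((hmem β).1 h).2 hβ) (by linarith) (by linarith)
  exact step_r2 hG hstd hL hy (ω :: ((A.K \ A.S).erase ω).toList) hlK ω
    (by rw [List.head?_cons]) hω2 (by
      intro v hv
      rw [hadj v hv, hmem v]
      constructor
      · intro h
        by_cases h1 : v ∈ A.S
        · exact Or.inl h1
        · exact Or.inr ⟨h, h1⟩
      · rintro (h | h)
        · exact hSK h
        · exact h.1)
    (by
      intro _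
      rw [hlen, hq]
      simp only [List.length_cons, List.length_nil]
      omega) ts hts hsel

end Pool.Agent.BN
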