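import Mathlib
import Pool.Agent.Lib_helper30.BN.Defs
set_option autoImplicit false

namespace Pool.Agent.BN
open Act

variable {V : Type}

theorem f3_act_inv_x (p : Pt) : act (true, false, false) (act (true, false, false) p) = p := by
  simp [act]

theorem f3_act_inv_y (p : Pt) : act (false, true, false) (act (false, true, false) p) = p := by
  simp [act]

theorem f3_act_inv_s (p : Pt) : act (false, false, true) (act (false, false, true) p) = p := by
  simp [act]

theorem f3_act_xy (p : Pt) : act (false, true, false) (act (true, false, false) p) =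
    act (true, false, false) (act (false, true, false) p) := by
  simp [act]

theorem f3_act_sx (p : Pt) : act (true, false, false) (act (false, false, true) p) =
    act (false, false, true) (act (false, true, false) p) := by
  simp [act]

theorem f3_act_sy (p : Pt) : act (false, true, false) (act (false, false, true) p) =
    act (false, false, true) (act (true, false, false) p) := by
  simp [act]

theorem nx_nx (A : Act V) : A.nx.nx = A := by
  cases A
  simp only [Act.nx, neg_neg, List.map_map]
  congr 1
  · rw [show (act (true, false, false) ∘ act (true, false, false) : Pt → Pt) = id from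
      funext f3_act_inv_x]
    simp
  · exact f3_act_inv_x _
  · exact f3_act_inv_x _

theorem ny_ny (A : Act V) : A.ny.ny = A := by
  cases A
  simp only [Act.ny, neg_neg, List.map_map]
  congr 1
  · rw [show (act (false, true, false) ∘ act (false, true, false) : Pt → Pt) = id from
      funext f3_act_inv_y]
    simp
  · exact f3_act_inv_y _
  · exact f3_act_inv_y _

theorem sw_sw (A : Act V) : A.sw.sw = A := by
  cases A
  simp only [Act.sw, List.map_map]
  congr 1
  rw [show (act (false, false, true) ∘ act (false, false, true) : Pt → Pt) = id from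
      funext f3_act_inv_s]
  simp

theorem f3_nx_ny (A : Act V) : A.nx.ny = A.ny.nx := by
  cases A
  simp only [Act.nx, Act.ny, List.map_map]
  congr 1

theorem f3_sw_nx (A : Act V) : A.sw.nx = A.ny.sw := by
  cases A
  simp only [Act.nx, Act.ny, Act.sw, List.map_map]
  congr 1

theorem f3_sw_ny (A : Act V) : A.sw.ny = A.nx.sw := by
  cases A
  simp only [Act.nx, Act.ny, Act.sw, List.map_map]
  congr 1

theorem f3_acts_nx (A : Act V) (s : Bool × Bool × Bool) :
    A.nx.acts s = A.acts (!s.1, s.2.1, s.2.2) := by
  obtain ⟨a, b, c⟩ := s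
  cases a <;> cases b <;> cases c <;> simp [Act.acts, nx_nx]

theorem f3_acts_ny (A : Act V) (s : Bool × Bool × Bool) :
    A.ny.acts s = A.acts (s.1, !s.2.1, s.2.2) := by
  obtain ⟨a, b, c⟩ := s
  cases a <;> cases b <;> cases c <;> simp [Act.acts, ny_ny, ← f3_nx_ny]

theorem f3_acts_sw (A : Act V) (s : Bool × Bool × Bool) :
    A.sw.acts s = A.acts (s.2.1, s.1, !s.2.2) := by
  obtain ⟨a, b, c⟩ := s
  cases a <;> cases b <;> cases c <;>
    simp [Act.acts, sw_sw, f3_nx_ny, f3_sw_nx, f3_sw_ny]

theorem full_nx (A : Act V) : A.nx.Full ↔ A.Full := by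
  constructor
  · rintro ⟨s, h⟩
    rw [f3_acts_nx] at h
    exact ⟨_, h⟩
  · rintro ⟨s, h⟩
    refine ⟨(!s.1, s.2.1, s.2.2), ?_⟩
    rw [f3_acts_nx]
    simpa using h

theorem full_ny (A : Act V) : A.ny.Full ↔ A.Full := by
  constructor
  · rintro ⟨s, h⟩
    rw [f3_acts_ny] at h
    exact ⟨_, h⟩
  · rintro ⟨s, h⟩
    refine ⟨(s.1, !s.2.1, s.2.2), ?_⟩
    rw [f3_acts_ny]
    simpa using h

theorem full_sw (A : Act V) : A.sw.Full ↔ A.Full := by
  constructor
  · rintro ⟨s, h⟩
    rw [f3_acts_sw] at h
    exact ⟨_, h⟩
  · rintro ⟨s, h⟩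
    refine ⟨(s.2.1, s.1, !s.2.2), ?_⟩
    rw [f3_acts_sw]
    simpa using h

end Pool.Agent.BN
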