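import Mathlib
import Pool.Agent.Lib_helper30.BN.Defs
set_option autoImplicit false

/-! BN, block F1 (helper6): the symmetries. -/

namespace Pool.Agent.BN
open Act

theorem act_act_nx (s : Bool × Bool × Bool) (p : Pt) :
    act s (act (true, false, false) p) = act (!s.1, s.2.1, s.2.2) p := by
  rcases s with ⟨a, b, c⟩
  cases a <;> cases b <;> cases c <;> simp [act]

theorem act_act_ny (s : Bool × Bool × Bool) (p : Pt) :
    act s (act (false, true, false) p) = act (s.1, !s.2.1, s.2.2) p := by
  rcases s with ⟨a, b, c⟩
  cases a <;> cases b <;> cases c <;> simp [act]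

theorem act_act_sw (s : Bool × Bool × Bool) (p : Pt) :
    act s (act (false, false, true) p) = act (s.2.1, s.1, !s.2.2) p := by
  rcases s with ⟨a, b, c⟩
  cases a <;> cases b <;> cases c <;> simp [act]

theorem mono_nx (p : List Pt) : Mono (p.map (act (true, false, false))) ↔ Mono p := by
  have key : ∀ s : Bool × Bool × Bool, (p.map (act (true, false, false))).map (act s) =
      p.map (act (!s.1, s.2.1, s.2.2)) := by
    intro s
    rw [List.map_map]
    apply List.map_congr_left
    intro q _
    exact act_act_nx s q
  constructor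
  · rintro ⟨s, hs⟩
    rw [key] at hs
    exact ⟨_, hs⟩
  · rintro ⟨s, hs⟩
    refine ⟨(!s.1, s.2.1, s.2.2), ?_⟩
    rw [key]
    simpa using hs

theorem mono_ny (p : List Pt) : Mono (p.map (act (false, true, false))) ↔ Mono p := by
  have key : ∀ s : Bool × Bool × Bool, (p.map (act (false, true, false))).map (act s) =
      p.map (act (s.1, !s.2.1, s.2.2)) := by
    intro s
    rw [List.map_map]
    apply List.map_congr_left
    intro q _
    exact act_act_ny s q
  constructor
  · rintro ⟨s, hs⟩
    rw [key] at hs
    exact ⟨_, hs⟩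
  · rintro ⟨s, hs⟩
    refine ⟨(s.1, !s.2.1, s.2.2), ?_⟩
    rw [key]
    simpa using hs

theorem mono_sw (p : List Pt) : Mono (p.map (act (false, false, true))) ↔ Mono p := by
  have key : ∀ s : Bool × Bool × Bool, (p.map (act (false, false, true))).map (act s) =
      p.map (act (s.2.1, s.1, !s.2.2)) := by
    intro s
    rw [List.map_map]
    apply List.map_congr_left
    intro q _
    exact act_act_sw s q
  constructor
  · rintro ⟨s, hs⟩
    rw [key] at hs
    exact ⟨_, hs⟩
  · rintro ⟨s, hs⟩
    refine ⟨(s.2.1, s.1, !s.2.2), ?_⟩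
    rw [key]
    simpa using hs

end Pool.Agent.BN
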