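import Mathlib
import Pool.Agent.Lib_helper30.BN.Defs
set_option autoImplicit false

/-! Block F2: symmetries and the interior points of the segments -/

namespace Pool.Agent.BN
open Act

theorem f2_min (a b x : ℚ) : (min (-a) (-b) < x ∧ x < max (-a) (-b)) ↔
    (min a b < -x ∧ -x < max a b) := by
  rw [min_neg_neg, max_neg_neg]
  constructor
  · rintro ⟨h1, h2⟩
    exact ⟨by linarith, by linarith⟩
  · rintro ⟨h1, h2⟩
    exact ⟨by linarith, by linarith⟩

theorem hon_nx (p : List Pt) (x y : ℚ) :
    HOn (p.map (act (true, false, false))) x y ↔ HOn p (-x) y := by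
  induction p with
  | nil => exact Iff.rfl
  | cons a l ih =>
    cases l with
    | nil => exact Iff.rfl
    | cons b l =>
      rw [List.map_cons] at ih ⊢
      rw [List.map_cons]
      simp only [HOn]
      refine or_congr ?_ ih
      show (a.2 = y ∧ b.2 = y ∧ min (-a.1) (-b.1) < x ∧ x < max (-a.1) (-b.1)) ↔ _
      rw [f2_min]

theorem von_nx (p : List Pt) (x y : ℚ) :
    VOn (p.map (act (true, false, false))) x y ↔ VOn p (-x) y := by
  induction p with
  | nil => exact Iff.rfl
  | cons a l ih =>
    cases l with
    | nil => exact Iff.rfl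
    | cons b l =>
      rw [List.map_cons] at ih ⊢
      rw [List.map_cons]
      simp only [VOn]
      refine or_congr ?_ ih
      show (-a.1 = x ∧ -b.1 = x ∧ min a.2 b.2 < y ∧ y < max a.2 b.2) ↔ _
      rw [neg_eq_iff_eq_neg, neg_eq_iff_eq_neg]

theorem hon_ny (p : List Pt) (x y : ℚ) :
    HOn (p.map (act (false, true, false))) x y ↔ HOn p x (-y) := by
  induction p with
  | nil => exact Iff.rfl
  | cons a l ih =>
    cases l with
    | nil => exact Iff.rfl
    | cons b l =>
      rw [List.map_cons] at ih ⊢
      rw [List.map_cons]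
      simp only [HOn]
      refine or_congr ?_ ih
      show (-a.2 = y ∧ -b.2 = y ∧ min a.1 b.1 < x ∧ x < max a.1 b.1) ↔ _
      rw [neg_eq_iff_eq_neg, neg_eq_iff_eq_neg]

theorem von_ny (p : List Pt) (x y : ℚ) :
    VOn (p.map (act (false, true, false))) x y ↔ VOn p x (-y) := by
  induction p with
  | nil => exact Iff.rfl
  | cons a l ih =>
    cases l with
    | nil => exact Iff.rfl
    | cons b l =>
      rw [List.map_cons] at ih ⊢
      rw [List.map_cons]
      simp only [VOn]
      refine or_congr ?_ ih
      show (a.1 = x ∧ b.1 = x ∧ min (-a.2) (-b.2) < y ∧ y < max (-a.2) (-b.2)) ↔ _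
      rw [f2_min]

theorem hon_sw (p : List Pt) (x y : ℚ) :
    HOn (p.map (act (false, false, true))) x y ↔ VOn p y x := by
  induction p with
  | nil => exact Iff.rfl
  | cons a l ih =>
    cases l with
    | nil => exact Iff.rfl
    | cons b l =>
      rw [List.map_cons] at ih ⊢
      rw [List.map_cons]
      simp only [HOn, VOn]
      exact or_congr Iff.rfl ih

theorem von_sw (p : List Pt) (x y : ℚ) :
    VOn (p.map (act (false, false, true))) x y ↔ HOn p y x := by
  induction p with
  | nil => exact Iff.rfl
  | cons a l ih =>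
    cases l with
    | nil => exact Iff.rfl
    | cons b l =>
      rw [List.map_cons] at ih ⊢
      rw [List.map_cons]
      simp only [HOn, VOn]
      exact or_congr Iff.rfl ih

theorem touch_nx (p q : List Pt) :
    Touch (p.map (act (true, false, false))) (q.map (act (true, false, false))) ↔ Touch p q := by
  unfold Touch
  simp only [hon_nx, von_nx]
  constructor
  · rintro ⟨x, y, h⟩
    exact ⟨-x, y, h⟩
  · rintro ⟨x, y, h⟩
    exact ⟨-x, y, by rwa [neg_neg]⟩

theorem touch_ny (p q : List Pt) :
    Touch (p.map (act (false, true, false))) (q.map (act (false, true, false))) ↔ Touch p q := by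
  unfold Touch
  simp only [hon_ny, von_ny]
  constructor
  · rintro ⟨x, y, h⟩
    exact ⟨x, -y, h⟩
  · rintro ⟨x, y, h⟩
    exact ⟨x, -y, by rwa [neg_neg]⟩

theorem touch_sw (p q : List Pt) :
    Touch (p.map (act (false, false, true))) (q.map (act (false, false, true))) ↔ Touch p q := by
  unfold Touch
  simp only [hon_sw, von_sw]
  constructor
  · rintro ⟨x, y, h⟩
    exact ⟨y, x, h.symm⟩
  · rintro ⟨x, y, h⟩
    exact ⟨y, x, h.symm⟩

end Pool.Agent.BN
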