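import Mathlib
import Pool.Agent.Lib_helper30.BN.Defs
import Pool.Agent.Lib_helper30.BN.P.F1
import Pool.Agent.Lib_helper30.BN.P.F2
set_option autoImplicit false

namespace Pool.Agent.BN
open Act

variable {V : Type}

theorem f4_g (A : Act V) : A.nx.g = A.g.map (act (true, false, false)) := by
  simp [Act.g, Act.nx]

theorem f4_start (A : Act V) :
    A.nx.q ++ [A.nx.c] = (A.q ++ [A.c]).map (act (true, false, false)) := by
  simp [Act.nx]

theorem f4_end (A : Act V) :
    [A.nx.c, A.nx.tl] = [A.c, A.tl].map (act (true, false, false)) := by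
  simp [Act.nx]

theorem f4_clear {A : Act V} {p : List Pt} (h : A.Clear p) :
    A.nx.Clear (p.map (act (true, false, false))) := by
  obtain ⟨h1, h2⟩ := h
  refine ⟨fun x y hx1 hx2 h => ?_, fun x y hy1 hy2 h => ?_⟩
  · have e1 : -A.a2 ≤ x := hx1
    have e2 : x ≤ -A.a1 := hx2
    exact h1 (-x) y (by linarith) (by linarith) ((von_nx p x y).1 h)
  · exact h2 (-x) y hy1 hy2 ((hon_nx p x y).1 h)

theorem f4_own {A : Act V} {w : V} {p : List Pt} (h : A.Own w p) :
    A.nx.Own w (p.map (act (true, false, false))) := by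
  obtain ⟨h1, h2⟩ := h
  refine ⟨fun x hx1 hx2 => ?_, fun y hy1 hy2 => ?_⟩
  · have e1 : -A.a2 ≤ x := hx1
    have e2 : x ≤ -A.a1 := hx2
    exact (hon_nx p x _).2 (h1 (-x) (by linarith) (by linarith))
  · refine (von_nx p _ y).2 ?_
    have e : -(A.nx.col w) = A.col w := neg_neg (A.col w)
    rw [e]
    exact h2 y hy1 hy2

theorem f4_excl {A : Act V} {w : V} {p : List Pt} (h : A.Excl w p) :
    A.nx.Excl w (p.map (act (true, false, false))) := by
  obtain ⟨h1, h2⟩ := h
  refine ⟨fun x hx1 hx2 h => ?_, fun y hy1 hy2 h => ?_⟩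
  · have e1 : -A.a2 ≤ x := hx1
    have e2 : x ≤ -A.a1 := hx2
    exact h1 (-x) (by linarith) (by linarith) ((hon_nx p x _).1 h)
  · have h' := (von_nx p _ y).1 h
    have e : -(A.nx.col w) = A.col w := neg_neg (A.col w)
    rw [e] at h'
    exact h2 y hy1 hy2 h'

theorem geo_nx {G : SimpleGraph V} {ph : V → Prop} {k : ℕ} {D : Finset V} {P : V → List Pt}
    {L : List (Act V)} (hG : Geo G ph k D P L) :
    Geo G ph k D (fun v => (P v).map (act (true, false, false))) (L.map Act.nx) := by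
  refine ⟨?_, ?_, ?_, ?_, ?_, ?_, ?_, ?_, ?_, ?_, ?_, ?_⟩
  · intro u hu v hv huv
    rw [touch_nx]
    exact hG.touch_iff u hu v hv huv
  · intro v hv hp
    rw [mono_nx, List.length_map]
    exact hG.path_ok v hv hp
  · intro B hB
    obtain ⟨A, hA, rfl⟩ := List.mem_map.1 hB
    obtain ⟨h1, h2, h3, h4, h5⟩ := hG.win A hA
    refine ⟨?_, h2, h3, h4, h5⟩
    change -A.a2 < -A.a1
    linarith
  · intro B hB v hv
    obtain ⟨A, hA, rfl⟩ := List.mem_map.1 hB
    exact f4_clear (hG.clearP A hA v hv)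
  · intro B hB B' hB'
    obtain ⟨A, hA, rfl⟩ := List.mem_map.1 hB
    obtain ⟨A', hA', rfl⟩ := List.mem_map.1 hB'
    rw [f4_g]
    exact f4_clear (hG.clearG A hA A' hA')
  · intro B hB w hw
    obtain ⟨A, hA, rfl⟩ := List.mem_map.1 hB
    exact f4_own (hG.own A hA w hw)
  · intro B hB w hw v hv hvw
    obtain ⟨A, hA, rfl⟩ := List.mem_map.1 hB
    exact f4_excl (hG.exclP A hA w hw v hv hvw)
  · intro B hB w hw B' hB'
    obtain ⟨A, hA, rfl⟩ := List.mem_map.1 hB
    obtain ⟨A', hA', rfl⟩ := List.mem_map.1 hB'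
    rw [f4_g]
    exact f4_excl (hG.exclG A hA w hw A' hA')
  · rw [List.pairwise_map]
    refine hG.sep.imp ?_
    intro A B h
    obtain ⟨h1, h2⟩ := h
    refine ⟨?_, h2⟩
    rcases h1 with h1 | h1
    · right
      change -B.a1 < -A.a2
      linarith
    · left
      change -A.a1 < -B.a2
      linarith
  · intro B hB v hv
    obtain ⟨A, hA, rfl⟩ := List.mem_map.1 hB
    rw [f4_start, touch_nx]
    exact hG.ghost_touch A hA v hv
  · intro B hB v hv
    obtain ⟨A, hA, rfl⟩ := List.mem_map.1 hB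
    rw [f4_end, touch_nx]
    exact hG.ghost_free A hA v hv
  · rw [List.pairwise_map]
    refine hG.ghost_sep.imp ?_
    intro A B h
    rw [f4_g, f4_g, touch_nx]
    exact h

end Pool.Agent.BN
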