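import Mathlib
import Pool.Agent.Lib_helper30.BN.Defs
import Pool.Agent.Lib_helper30.BN.P.F1
import Pool.Agent.Lib_helper30.BN.P.F2
set_option autoImplicit false

namespace Pool.Agent.BN
open Act

variable {V : Type}

theorem f5_g (A : Act V) : A.ny.g = A.g.map (act (false, true, false)) := by
  simp only [Act.g, Act.ny, List.map_append, List.map_cons, List.map_nil]

theorem f5_qc (A : Act V) : A.ny.q ++ [A.ny.c] = (A.q ++ [A.c]).map (act (false, true, false)) := by
  simp only [Act.ny, List.map_append, List.map_cons, List.map_nil]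

theorem f5_ct (A : Act V) : [A.ny.c, A.ny.tl] = [A.c, A.tl].map (act (false, true, false)) := by
  simp only [Act.ny, List.map_cons, List.map_nil]

theorem f5_clear {A : Act V} {p : List Pt} (h : A.Clear p) :
    A.ny.Clear (p.map (act (false, true, false))) := by
  refine ⟨fun x y h1 h2 h3 => ?_, fun x y h1 h2 h3 => ?_⟩
  · rw [von_ny] at h3
    exact h.1 x (-y) h1 h2 h3
  · rw [hon_ny] at h3
    have h4 : -A.b2 ≤ y := h1
    have h5 : y ≤ -A.b1 := h2
    exact h.2 x (-y) (by linarith) (by linarith) h3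

theorem f5_own {A : Act V} {w : V} {p : List Pt} (h : A.Own w p) :
    A.ny.Own w (p.map (act (false, true, false))) := by
  refine ⟨fun x h1 h2 => ?_, fun y h1 h2 => ?_⟩
  · rw [hon_ny]
    show HOn p x (-(-A.row w))
    rw [neg_neg]
    exact h.1 x h1 h2
  · rw [von_ny]
    have h4 : -A.b2 ≤ y := h1
    have h5 : y ≤ -A.b1 := h2
    exact h.2 (-y) (by linarith) (by linarith)

theorem f5_excl {A : Act V} {w : V} {p : List Pt} (h : A.Excl w p) :
    A.ny.Excl w (p.map (act (false, true, false))) := by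
  refine ⟨fun x h1 h2 h3 => ?_, fun y h1 h2 h3 => ?_⟩
  · rw [hon_ny] at h3
    have h6 : HOn p x (-(-A.row w)) := h3
    rw [neg_neg] at h6
    exact h.1 x h1 h2 h6
  · rw [von_ny] at h3
    have h4 : -A.b2 ≤ y := h1
    have h5 : y ≤ -A.b1 := h2
    exact h.2 (-y) (by linarith) (by linarith) h3

-- block F5
theorem geo_ny {G : SimpleGraph V} {ph : V → Prop} {k : ℕ} {D : Finset V} {P : V → List Pt}
    {L : List (Act V)} (hG : Geo G ph k D P L) :
    Geo G ph k D (fun v => (P v).map (act (false, true, false))) (L.map Act.ny) := by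
  constructor
  · intro u hu v hv huv
    rw [touch_ny]
    exact hG.touch_iff u hu v hv huv
  · intro v hv hp
    obtain ⟨h1, h2, h3⟩ := hG.path_ok v hv hp
    rw [mono_ny, List.length_map]
    exact ⟨h1, h2, h3⟩
  · intro A' hA'
    obtain ⟨A, hA, rfl⟩ := List.mem_map.1 hA'
    obtain ⟨h1, h2, h3, h4, h5⟩ := hG.win A hA
    refine ⟨h1, ?_, h3, h4, h5⟩
    show -A.b2 < -A.b1
    linarith
  · intro A' hA' v hv
    obtain ⟨A, hA, rfl⟩ := List.mem_map.1 hA'
    exact f5_clear (hG.clearP A hA v hv)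
  · intro A' hA' B' hB'
    obtain ⟨A, hA, rfl⟩ := List.mem_map.1 hA'
    obtain ⟨B, hB, rfl⟩ := List.mem_map.1 hB'
    rw [f5_g]
    exact f5_clear (hG.clearG A hA B hB)
  · intro A' hA' w hw
    obtain ⟨A, hA, rfl⟩ := List.mem_map.1 hA'
    exact f5_own (hG.own A hA w hw)
  · intro A' hA' w hw v hv hvw
    obtain ⟨A, hA, rfl⟩ := List.mem_map.1 hA'
    exact f5_excl (hG.exclP A hA w hw v hv hvw)
  · intro A' hA' w hw B' hB'
    obtain ⟨A, hA, rfl⟩ := List.mem_map.1 hA'
    obtain ⟨B, hB, rfl⟩ := List.mem_map.1 hB'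
    rw [f5_g]
    exact f5_excl (hG.exclG A hA w hw B hB)
  · rw [List.pairwise_map]
    refine hG.sep.imp ?_
    intro A B h
    refine ⟨h.1, ?_⟩
    show -A.b1 < -B.b2 ∨ -B.b1 < -A.b2
    rcases h.2 with h1 | h1
    · right; linarith
    · left; linarith
  · intro A' hA' v hv
    obtain ⟨A, hA, rfl⟩ := List.mem_map.1 hA'
    rw [f5_qc, touch_ny]
    exact hG.ghost_touch A hA v hv
  · intro A' hA' v hv
    obtain ⟨A, hA, rfl⟩ := List.mem_map.1 hA'
    rw [f5_ct, touch_ny]
    exact hG.ghost_free A hA v hv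
  · rw [List.pairwise_map]
    refine hG.ghost_sep.imp ?_
    intro A B h
    rw [f5_g, f5_g, touch_ny]
    exact h

end Pool.Agent.BN
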