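import Mathlib
import Pool.Agent.Lib_helper30.BN.Defs
import Pool.Agent.Lib_helper30.BN.P.F1
import Pool.Agent.Lib_helper30.BN.P.F2
set_option autoImplicit false

namespace Pool.Agent.BN
open Act

variable {V : Type}

theorem f6_g (A : Act V) : A.sw.g = A.g.map (act (false, false, true)) := by
  simp only [Act.g, Act.sw, List.map_append, List.map_cons, List.map_nil]

theorem f6_qc (A : Act V) : A.sw.q ++ [A.sw.c] = (A.q ++ [A.c]).map (act (false, false, true)) := by
  simp only [Act.sw, List.map_append, List.map_cons, List.map_nil]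

theorem f6_ct (A : Act V) : [A.sw.c, A.sw.tl] = [A.c, A.tl].map (act (false, false, true)) := by
  simp only [Act.sw, List.map_cons, List.map_nil]

theorem f6_clear {A : Act V} {p : List Pt} (h : A.Clear p) :
    A.sw.Clear (p.map (act (false, false, true))) := by
  refine ⟨fun x y h1 h2 h3 => ?_, fun x y h1 h2 h3 => ?_⟩
  · rw [von_sw] at h3
    exact h.2 y x h1 h2 h3
  · rw [hon_sw] at h3
    exact h.1 y x h1 h2 h3

theorem f6_own {A : Act V} {w : V} {p : List Pt} (h : A.Own w p) :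
    A.sw.Own w (p.map (act (false, false, true))) := by
  refine ⟨fun x h1 h2 => ?_, fun y h1 h2 => ?_⟩
  · rw [hon_sw]
    exact h.2 x h1 h2
  · rw [von_sw]
    exact h.1 y h1 h2

theorem f6_excl {A : Act V} {w : V} {p : List Pt} (h : A.Excl w p) :
    A.sw.Excl w (p.map (act (false, false, true))) := by
  refine ⟨fun x h1 h2 h3 => ?_, fun y h1 h2 h3 => ?_⟩
  · rw [hon_sw] at h3
    exact h.2 x h1 h2 h3
  · rw [von_sw] at h3
    exact h.1 y h1 h2 h3

-- block F6
theorem geo_sw {G : SimpleGraph V} {ph : V → Prop} {k : ℕ} {D : Finset V} {P : V → List Pt}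
    {L : List (Act V)} (hG : Geo G ph k D P L) :
    Geo G ph k D (fun v => (P v).map (act (false, false, true))) (L.map Act.sw) := by
  constructor
  · intro u hu v hv huv
    rw [touch_sw]
    exact hG.touch_iff u hu v hv huv
  · intro v hv hp
    obtain ⟨h1, h2, h3⟩ := hG.path_ok v hv hp
    rw [mono_sw, List.length_map]
    exact ⟨h1, h2, h3⟩
  · intro A' hA'
    obtain ⟨A, hA, rfl⟩ := List.mem_map.1 hA'
    obtain ⟨h1, h2, h3, h4, h5⟩ := hG.win A hA
    exact ⟨h2, h1, h3, h4, h5⟩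
  · intro A' hA' v hv
    obtain ⟨A, hA, rfl⟩ := List.mem_map.1 hA'
    exact f6_clear (hG.clearP A hA v hv)
  · intro A' hA' B' hB'
    obtain ⟨A, hA, rfl⟩ := List.mem_map.1 hA'
    obtain ⟨B, hB, rfl⟩ := List.mem_map.1 hB'
    rw [f6_g]
    exact f6_clear (hG.clearG A hA B hB)
  · intro A' hA' w hw
    obtain ⟨A, hA, rfl⟩ := List.mem_map.1 hA'
    exact f6_own (hG.own A hA w hw)
  · intro A' hA' w hw v hv hvw
    obtain ⟨A, hA, rfl⟩ := List.mem_map.1 hA'
    exact f6_excl (hG.exclP A hA w hw v hv hvw)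
  · intro A' hA' w hw B' hB'
    obtain ⟨A, hA, rfl⟩ := List.mem_map.1 hA'
    obtain ⟨B, hB, rfl⟩ := List.mem_map.1 hB'
    rw [f6_g]
    exact f6_excl (hG.exclG A hA w hw B hB)
  · rw [List.pairwise_map]
    refine hG.sep.imp ?_
    intro A B h
    exact ⟨h.2, h.1⟩
  · intro A' hA' v hv
    obtain ⟨A, hA, rfl⟩ := List.mem_map.1 hA'
    rw [f6_qc, touch_sw]
    exact hG.ghost_touch A hA v hv
  · intro A' hA' v hv
    obtain ⟨A, hA, rfl⟩ := List.mem_map.1 hA'
    rw [f6_ct, touch_sw]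
    exact hG.ghost_free A hA v hv
  · rw [List.pairwise_map]
    refine hG.ghost_sep.imp ?_
    intro A B h
    rw [f6_g, f6_g, touch_sw]
    exact h

end Pool.Agent.BN
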