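import Mathlib
import Pool.Agent.Lib_helper30.BN.Defs
import Pool.Agent.Lib_helper30.BN.P.F3
import Pool.Agent.Lib_helper30.BN.P.F4
import Pool.Agent.Lib_helper30.BN.P.F5
import Pool.Agent.Lib_helper30.BN.P.F6
set_option autoImplicit false

/-! BN, block F7 (helper6): the symmetries of a step. -/

namespace Pool.Agent.BN
open Act

variable {V : Type}

theorem stepout_nx [DecidableEq V] {G : SimpleGraph V} {ph : V → Prop} {k : ℕ} {D : Finset V}
    {A : Act V} {L : List (Act V)} {y : V} {ts : List V}
    (h : StepOut G ph k D A.nx (L.map Act.nx) y ts) : StepOut G ph k D A L y ts := by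
  obtain ⟨P', L', h1, h2, h3⟩ := h
  refine ⟨_, _, geo_nx h1, ?_, ?_⟩
  · intro B hB
    rw [List.mem_map] at hB
    obtain ⟨B', hB', rfl⟩ := hB
    exact (full_nx B').2 (h2 B' hB')
  · have e : ∀ l : List (Act V), (l.map Act.nx).map Act.K = l.map Act.K := by
      intro l
      rw [List.map_map]
      rfl
    rw [e, h3, e]
    rfl

theorem stepout_ny [DecidableEq V] {G : SimpleGraph V} {ph : V → Prop} {k : ℕ} {D : Finset V}
    {A : Act V} {L : List (Act V)} {y : V} {ts : List V}
    (h : StepOut G ph k D A.ny (L.map Act.ny) y ts) : StepOut G ph k D A L y ts := by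
  obtain ⟨P', L', h1, h2, h3⟩ := h
  refine ⟨_, _, geo_ny h1, ?_, ?_⟩
  · intro B hB
    rw [List.mem_map] at hB
    obtain ⟨B', hB', rfl⟩ := hB
    exact (full_ny B').2 (h2 B' hB')
  · have e : ∀ l : List (Act V), (l.map Act.ny).map Act.K = l.map Act.K := by
      intro l
      rw [List.map_map]
      rfl
    rw [e, h3, e]
    rfl

theorem stepout_sw [DecidableEq V] {G : SimpleGraph V} {ph : V → Prop} {k : ℕ} {D : Finset V}
    {A : Act V} {L : List (Act V)} {y : V} {ts : List V}
    (h : StepOut G ph k D A.sw (L.map Act.sw) y ts) : StepOut G ph k D A L y ts := by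
  obtain ⟨P', L', h1, h2, h3⟩ := h
  refine ⟨_, _, geo_sw h1, ?_, ?_⟩
  · intro B hB
    rw [List.mem_map] at hB
    obtain ⟨B', hB', rfl⟩ := hB
    exact (full_sw B').2 (h2 B' hB')
  · have e : ∀ l : List (Act V), (l.map Act.sw).map Act.K = l.map Act.K := by
      intro l
      rw [List.map_map]
      rfl
    rw [e, h3, e]
    rfl

end Pool.Agent.BN
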