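import Mathlib
import Pool.Agent.Lib_helper30.BN.Defs
import Pool.Agent.Lib_helper30.BN.P.E6
import Pool.Agent.Lib_helper30.BN.P.F3
import Pool.Agent.Lib_helper30.BN.P.F4
import Pool.Agent.Lib_helper30.BN.P.F5
import Pool.Agent.Lib_helper30.BN.P.F6
import Pool.Agent.Lib_helper30.BN.P.F7
set_option autoImplicit false

namespace Pool.Agent.BN
open Act

variable {V : Type}

theorem g1_sw [DecidableEq V] {G : SimpleGraph V} {ph : V → Prop} {k : ℕ} (hk : 8 ≤ k)
    {D : Finset V} {P : V → List Pt} {A : Act V} {L : List (Act V)}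
    (hG : Geo G ph k D P (A :: L)) (hL : ∀ B ∈ L, B.Full) {y : V} (hy : y ∉ D)
    (hadj : ∀ v ∈ D, (G.Adj y v ↔ v ∈ A.K)) (ts : List V) (hts : ∀ t ∈ ts, t ∈ A.K)
    (b : Bool) (hA : (if b then A.sw else A).StdFull) :
    StepOut G ph k D A L y ts := by
  cases b with
  | false => exact crit_std hk hG hL (by simpa using hA) hy hadj ts hts
  | true =>
    apply stepout_sw
    refine crit_std hk (geo_sw hG) ?_ (by simpa using hA) hy hadj ts hts
    intro B hB
    obtain ⟨B', hB', rfl⟩ := List.mem_map.1 hB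
    exact (full_sw B').2 (hL B' hB')

theorem g1_ny [DecidableEq V] {G : SimpleGraph V} {ph : V → Prop} {k : ℕ} (hk : 8 ≤ k)
    {D : Finset V} {P : V → List Pt} {A : Act V} {L : List (Act V)}
    (hG : Geo G ph k D P (A :: L)) (hL : ∀ B ∈ L, B.Full) {y : V} (hy : y ∉ D)
    (hadj : ∀ v ∈ D, (G.Adj y v ↔ v ∈ A.K)) (ts : List V) (hts : ∀ t ∈ ts, t ∈ A.K)
    (a b : Bool)
    (hA : (if b then (if a then A.ny else A).sw else (if a then A.ny else A)).StdFull) :
    StepOut G ph k D A L y ts := by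
  cases a with
  | false => exact g1_sw hk hG hL hy hadj ts hts b (by simpa using hA)
  | true =>
    apply stepout_ny
    refine g1_sw hk (geo_ny hG) ?_ hy hadj ts hts b (by simpa using hA)
    intro B hB
    obtain ⟨B', hB', rfl⟩ := List.mem_map.1 hB
    exact (full_ny B').2 (hL B' hB')

-- block G1
theorem crit_gen [DecidableEq V] {G : SimpleGraph V} {ph : V → Prop} {k : ℕ} (hk : 8 ≤ k)
    {D : Finset V} {P : V → List Pt} {A : Act V} {L : List (Act V)}
    (hG : Geo G ph k D P (A :: L)) (hL : ∀ B ∈ L, B.Full) (hA : A.Full) {y : V} (hy : y ∉ D)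
    (hadj : ∀ v ∈ D, (G.Adj y v ↔ v ∈ A.K)) (ts : List V) (hts : ∀ t ∈ ts, t ∈ A.K) :
    StepOut G ph k D A L y ts := by
  obtain ⟨⟨s1, s2, s3⟩, hs⟩ := hA
  cases s1 with
  | false => exact g1_ny hk hG hL hy hadj ts hts s2 s3 (by simpa [acts] using hs)
  | true =>
    apply stepout_nx
    refine g1_ny hk (geo_nx hG) ?_ hy hadj ts hts s2 s3 (by simpa [acts] using hs)
    intro B hB
    obtain ⟨B', hB', rfl⟩ := List.mem_map.1 hB
    exact (full_nx B').2 (hL B' hB')

end Pool.Agent.BN
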