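import Mathlib
import Pool.Agent.Lib_helper30.BN.Defs
import Pool.Agent.Lib_helper30.BN.P.A1
import Pool.Agent.Lib_helper30.BN.P.B1
set_option autoImplicit false

namespace Pool.Agent.BN
open Act

variable {V : Type}

/-- a window inside the old one with a new ghost -/
lemma d1_main {G : SimpleGraph V} {ph : V → Prop} {k : ℕ} {D : Finset V}
    {P : V → List Pt} {A : Act V} {L : List (Act V)}
    (hG : Geo G ph k D P (A :: L)) (A' : Act V) (hK : A'.K = A.K) (hrow : A'.row = A.row)
    (hcol : A'.col = A.col) (w1 : A.a1 ≤ A'.a1) (w2 : A'.a1 < A'.a2) (w3 : A'.a2 ≤ A.a2)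
    (v1 : A.b1 ≤ A'.b1) (v2 : A'.b1 < A'.b2) (v3 : A'.b2 ≤ A.b2) (hS : A'.S ⊆ A.K)
    (hF : A'.tl.1 = A'.c.1)
    (hH : ∀ x y, HOn A'.g x y → A.a1 ≤ x ∧ x ≤ A.a2 ∧ x < A'.a1 ∧ ∃ w ∈ A.K, y = A.row w ∧ A.b2 < y)
    (hV : ∀ x y, VOn A'.g x y → A.a1 ≤ x ∧ x ≤ A.a2 ∧ x < A'.a1)
    (hT : ∀ v ∈ D, (Touch (A'.q ++ [A'.c]) (P v) ↔ v ∈ A'.S)) :
    Geo G ph k D P (A' :: L) := by
  have hA : A ∈ A :: L := List.mem_cons_self
  have hL : ∀ B ∈ L, B ∈ A :: L := fun B hB => List.mem_cons_of_mem _ hB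
  have hsep := List.pairwise_cons.mp hG.sep
  have hgs := List.pairwise_cons.mp hG.ghost_sep
  have subx : ∀ x, A'.a1 ≤ x → x ≤ A'.a2 → A.a1 ≤ x ∧ x ≤ A.a2 := fun x h1 h2 =>
    ⟨w1.trans h1, h2.trans w3⟩
  have suby : ∀ y, A'.b1 ≤ y → y ≤ A'.b2 → A.b1 ≤ y ∧ y ≤ A.b2 := fun y h1 h2 =>
    ⟨v1.trans h1, h2.trans v3⟩
  have clr : ∀ p, A.Clear p → A'.Clear p := fun p hp =>
    ⟨fun x y h1 h2 => hp.1 x y (subx x h1 h2).1 (subx x h1 h2).2,
      fun x y h1 h2 => hp.2 x y (suby y h1 h2).1 (suby y h1 h2).2⟩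
  have exc : ∀ w p, A.Excl w p → A'.Excl w p := fun w p hp =>
    ⟨fun x h1 h2 => by rw [hrow]; exact hp.1 x (subx x h1 h2).1 (subx x h1 h2).2,
      fun y h1 h2 => by rw [hcol]; exact hp.2 y (suby y h1 h2).1 (suby y h1 h2).2⟩
  have own : ∀ w p, A.Own w p → A'.Own w p := fun w p hp =>
    ⟨fun x h1 h2 => by rw [hrow]; exact hp.1 x (subx x h1 h2).1 (subx x h1 h2).2,
      fun y h1 h2 => by rw [hcol]; exact hp.2 y (suby y h1 h2).1 (suby y h1 h2).2⟩
  have hwA := hG.win A hA
  refine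
    { touch_iff := hG.touch_iff
      path_ok := hG.path_ok
      win := ?_
      clearP := ?_
      clearG := ?_
      own := ?_
      exclP := ?_
      exclG := ?_
      sep := ?_
      ghost_touch := ?_
      ghost_free := ?_
      ghost_sep := ?_ }
  · intro B hB
    rcases List.mem_cons.mp hB with rfl | hB2
    · exact ⟨w2, v2, by rw [hK]; exact hwA.2.2.1, by rw [hK]; exact hwA.2.2.2.1, by rw [hK]; exact hS⟩
    · exact hG.win B (hL B hB2)
  · intro B hB v hv
    rcases List.mem_cons.mp hB with rfl | hB2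
    · exact clr _ (hG.clearP A hA v hv)
    · exact hG.clearP B (hL B hB2) v hv
  · intro B hB C hC
    rcases List.mem_cons.mp hB with rfl | hB2
    · rcases List.mem_cons.mp hC with rfl | hC2
      · refine ⟨fun x y h1 h2 h3 => ?_, fun x y h1 h2 h3 => ?_⟩
        · have h := (hV x y h3).2.2
          exact absurd h1 (not_le.mpr h)
        · obtain ⟨_, _, _, w, _, _, h⟩ := hH x y h3
          exact absurd (h2.trans v3) (not_le.mpr h)
      · exact clr _ (hG.clearG A hA C (hL C hC2))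
    · rcases List.mem_cons.mp hC with rfl | hC2
      · have hs := (hsep.1 B hB2).1
        refine ⟨fun x y h1 h2 h3 => ?_, fun x y h1 h2 h3 => ?_⟩
        · obtain ⟨h4, h5, _⟩ := hV x y h3
          rcases hs with hs | hs <;> linarith
        · obtain ⟨_, _, _, w, hw, hyw, _⟩ := hH x y h3
          rcases geo_row hG hA (hL B hB2) hw with h | h
          · rw [← hyw] at h
            linarith
          · rw [← hyw] at h
            linarith
      · exact hG.clearG B (hL B hB2) C (hL C hC2)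
  · intro B hB w hw
    rcases List.mem_cons.mp hB with rfl | hB2
    · rw [hK] at hw
      exact own w _ (hG.own A hA w hw)
    · exact hG.own B (hL B hB2) w hw
  · intro B hB w hw v hv hvw
    rcases List.mem_cons.mp hB with rfl | hB2
    · rw [hK] at hw
      exact exc w _ (hG.exclP A hA w hw v hv hvw)
    · exact hG.exclP B (hL B hB2) w hw v hv hvw
  · intro B hB w hw C hC
    rcases List.mem_cons.mp hB with rfl | hB2
    · rw [hK] at hw
      rcases List.mem_cons.mp hC with rfl | hC2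
      · refine ⟨fun x h1 h2 h3 => ?_, fun y h1 h2 h3 => ?_⟩
        · have h := (hH x _ h3).2.2.1
          exact absurd h1 (not_le.mpr h)
        · obtain ⟨h4, h5, _⟩ := hV _ y h3
          rw [hcol] at h4 h5
          rcases geo_col hG hA hA hw with h | h <;> linarith
      · exact exc w _ (hG.exclG A hA w hw C (hL C hC2))
    · rcases List.mem_cons.mp hC with rfl | hC2
      · have hs := (hsep.1 B hB2).1
        refine ⟨fun x h1 h2 h3 => ?_, fun y h1 h2 h3 => ?_⟩
        · obtain ⟨h4, h5, _, _⟩ := hH x _ h3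
          rcases hs with hs | hs <;> linarith
        · obtain ⟨h4, h5, _⟩ := hV _ y h3
          rcases geo_col hG (hL B hB2) hA hw with h | h <;> linarith
      · exact hG.exclG B (hL B hB2) w hw C (hL C hC2)
  · refine List.pairwise_cons.mpr ⟨fun B hB2 => ?_, hsep.2⟩
    obtain ⟨h1, h2⟩ := hsep.1 B hB2
    refine ⟨?_, ?_⟩
    · rcases h1 with h | h
      · exact Or.inl (lt_of_le_of_lt w3 h)
      · exact Or.inr (lt_of_lt_of_le h w1)
    · rcases h2 with h | h
      · exact Or.inl (lt_of_le_of_lt v3 h)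
      · exact Or.inr (lt_of_lt_of_le h v1)
  · intro B hB v hv
    rcases List.mem_cons.mp hB with rfl | hB2
    · exact hT v hv
    · exact hG.ghost_touch B (hL B hB2) v hv
  · intro B hB v hv
    rcases List.mem_cons.mp hB with rfl | hB2
    · rintro ⟨x, y, h | h⟩
      · have h1 := h.1
        simp only [HOn, or_false] at h1
        rw [hF, min_self, max_self] at h1
        linarith [h1.2.2.1, h1.2.2.2]
      · have h1 : VOn B.g x y := (von_g B x y).mpr (Or.inr h.1)
        obtain ⟨h2, h3, _⟩ := hV x y h1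
        exact (hG.clearP A hA v hv).1 x y h2 h3 h.2
    · exact hG.ghost_free B (hL B hB2) v hv
  · refine List.pairwise_cons.mpr ⟨fun B hB2 => ?_, hgs.2⟩
    rintro ⟨x, y, h | h⟩
    · obtain ⟨h1, h2, _, w, hw, hyw, _⟩ := hH x y h.1
      have h3 := (hG.exclG A hA w hw B (hL B hB2)).1 x h1 h2
      rw [← hyw] at h3
      exact h3 h.2
    · obtain ⟨h1, h2, _⟩ := hV x y h.1
      exact (hG.clearG A hA B (hL B hB2)).1 x y h1 h2 h.2

-- block D1
theorem reghost_rows {G : SimpleGraph V} {ph : V → Prop} {k : ℕ} {D : Finset V}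
    {P : V → List Pt} {A : Act V} {L : List (Act V)} [DecidableEq V]
    (hG : Geo G ph k D P (A :: L)) {α β : V} (hα : α ∈ A.K) (hβ : β ∈ A.K)
    (h1 : A.b2 < A.row β) (h2 : A.row β < A.row α) :
    ∃ A' : Act V, Geo G ph k D P (A' :: L) ∧ StdStart A' ∧ A'.K = A.K ∧ A'.S = {α, β} ∧
      A'.row = A.row ∧ A'.col = A.col ∧ A'.q.length = 3 ∧
      A.a1 ≤ A'.a1 ∧ A'.a2 ≤ A.a2 ∧ A.b1 ≤ A'.b1 ∧ A'.b2 ≤ A.b2 := by
  have hA : A ∈ A :: L := List.mem_cons_self
  obtain ⟨ha, hb, -, -, -⟩ := hG.win A hA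
  obtain ⟨x0, hx0, hx0'⟩ := exists_between ha
  obtain ⟨x1, hx1, hx1'⟩ := exists_between hx0'
  obtain ⟨xs, hxs, hxs'⟩ := exists_between hx1'
  obtain ⟨a1', ha1, ha1'⟩ := exists_between hxs'
  obtain ⟨a2', ha2, ha2'⟩ := exists_between ha1'
  obtain ⟨e, he, he'⟩ := exists_between hb
  obtain ⟨b1', hb1, hb1'⟩ := exists_between he'
  obtain ⟨b2', hb2, hb2'⟩ := exists_between hb1'
  have hHg : ∀ x y, HOn [(x0, A.row α), (x1, A.row α), (x1, A.row β), (xs, A.row β), (xs, e)] x y ↔
      (A.row α = y ∧ x0 < x ∧ x < x1) ∨ (A.row β = y ∧ x1 < x ∧ x < xs) := by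
    intro x y
    simp only [HOn, min_self, max_self, min_eq_left hx1.le, max_eq_right hx1.le,
      min_eq_left hxs.le, max_eq_right hxs.le, or_false]
    constructor
    · rintro (⟨h3, -, h4, h5⟩ | ⟨-, -, h4, h5⟩ | ⟨h3, -, h4, h5⟩ | ⟨-, -, h4, h5⟩)
      · exact Or.inl ⟨h3, h4, h5⟩
      · exact absurd h4 (not_lt.mpr h5.le)
      · exact Or.inr ⟨h3, h4, h5⟩
      · exact absurd h4 (not_lt.mpr h5.le)
    · rintro (⟨h3, h4, h5⟩ | ⟨h3, h4, h5⟩)
      · exact Or.inl ⟨h3, h3, h4, h5⟩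
      · exact Or.inr (Or.inr (Or.inl ⟨h3, h3, h4, h5⟩))
  have hVg : ∀ x y, VOn [(x0, A.row α), (x1, A.row α), (x1, A.row β), (xs, A.row β), (xs, e)] x y →
      x = x1 ∨ x = xs := by
    intro x y
    simp only [VOn, min_self, max_self, or_false]
    rintro (⟨-, -, h4, h5⟩ | ⟨h3, -, -, -⟩ | ⟨-, -, h4, h5⟩ | ⟨h3, -, -, -⟩)
    · exact absurd h4 (not_lt.mpr h5.le)
    · exact Or.inl h3.symm
    · exact absurd h4 (not_lt.mpr h5.le)
    · exact Or.inr h3.symm
  have hHs : ∀ x y, HOn [(x0, A.row α), (x1, A.row α), (x1, A.row β), (xs, A.row β)] x y ↔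
      (A.row α = y ∧ x0 < x ∧ x < x1) ∨ (A.row β = y ∧ x1 < x ∧ x < xs) := by
    intro x y
    simp only [HOn, min_self, max_self, min_eq_left hx1.le, max_eq_right hx1.le,
      min_eq_left hxs.le, max_eq_right hxs.le, or_false]
    constructor
    · rintro (⟨h3, -, h4, h5⟩ | ⟨-, -, h4, h5⟩ | ⟨h3, -, h4, h5⟩)
      · exact Or.inl ⟨h3, h4, h5⟩
      · exact absurd h4 (not_lt.mpr h5.le)
      · exact Or.inr ⟨h3, h4, h5⟩
    · rintro (⟨h3, h4, h5⟩ | ⟨h3, h4, h5⟩)
      · exact Or.inl ⟨h3, h3, h4, h5⟩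
      · exact Or.inr (Or.inr ⟨h3, h3, h4, h5⟩)
  have hVs : ∀ x y, VOn [(x0, A.row α), (x1, A.row α), (x1, A.row β), (xs, A.row β)] x y →
      x = x1 := by
    intro x y
    simp only [VOn, min_self, max_self, or_false]
    rintro (⟨-, -, h4, h5⟩ | ⟨h3, -, -, -⟩ | ⟨-, -, h4, h5⟩)
    · exact absurd h4 (not_lt.mpr h5.le)
    · exact h3.symm
    · exact absurd h4 (not_lt.mpr h5.le)
  refine ⟨{ K := A.K, a1 := a1', a2 := a2', b1 := b1', b2 := b2', row := A.row, col := A.col,
            q := [(x0, A.row α), (x1, A.row α), (x1, A.row β)], c := (xs, A.row β),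
            tl := (xs, e), S := {α, β} }, ?_, ?_, rfl, rfl, rfl, rfl, rfl, ?_, ?_, ?_, ?_⟩
  · refine d1_main hG _ rfl rfl rfl ?_ ha2 ha2'.le ?_ hb2 hb2'.le ?_ rfl ?_ ?_ ?_
    · change A.a1 ≤ a1'
      linarith
    · change A.b1 ≤ b1'
      linarith
    · intro w hw
      rcases Finset.mem_insert.mp hw with rfl | hw
      · exact hα
      · rw [Finset.mem_singleton.mp hw]
        exact hβ
    · intro x y h
      rcases (hHg x y).mp h with ⟨h3, h4, h5⟩ | ⟨h3, h4, h5⟩
      · exact ⟨by linarith, by linarith, by change x < a1'; linarith, α, hα, h3.symm, by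
          rw [← h3]; linarith⟩
      · exact ⟨by linarith, by linarith, by change x < a1'; linarith, β, hβ, h3.symm, by
          rw [← h3]; linarith⟩
    · intro x y h
      rcases hVg x y h with rfl | rfl
      · exact ⟨by linarith, by linarith, by change _ < a1'; linarith⟩
      · exact ⟨by linarith, by linarith, by change _ < a1'; linarith⟩
    · intro v hv
      constructor
      · rintro ⟨x, y, h | h⟩
        · rcases (hHs x y).mp h.1 with ⟨h3, h4, h5⟩ | ⟨h3, h4, h5⟩
          · by_contra hne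
            have hva : v ≠ α := fun h => hne (by rw [h]; exact Finset.mem_insert_self _ _)
            have h6 := (hG.exclP A hA α hα v hv hva).1 x (by linarith) (by linarith)
            rw [h3] at h6
            exact h6 h.2
          · by_contra hne
            have hva : v ≠ β := fun h => hne (by
              rw [h]; exact Finset.mem_insert_of_mem (Finset.mem_singleton_self _))
            have h6 := (hG.exclP A hA β hβ v hv hva).1 x (by linarith) (by linarith)
            rw [h3] at h6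
            exact h6 h.2
        · have h3 := hVs x y h.1
          exact absurd h.2 ((hG.clearP A hA v hv).1 x y (by linarith) (by linarith))
      · intro hvS
        rcases Finset.mem_insert.mp hvS with rfl | hvS
        · obtain ⟨x, hx, hx'⟩ := exists_between hx1
          exact ⟨x, A.row v, Or.inl ⟨(hHs x _).mpr (Or.inl ⟨rfl, hx, hx'⟩),
            (hG.own A hA v hα).1 x (by linarith) (by linarith)⟩⟩
        · have hvb := Finset.mem_singleton.mp hvS
          subst hvb
          obtain ⟨x, hx, hx'⟩ := exists_between hxs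
          exact ⟨x, A.row v, Or.inl ⟨(hHs x _).mpr (Or.inr ⟨rfl, hx, hx'⟩),
            (hG.own A hA v hβ).1 x (by linarith) (by linarith)⟩⟩
  · refine ⟨rfl, ?_, ?_, ?_, ?_⟩
    · exact ha1
    · change b2' < A.row β
      linarith
    · exact hb1
    · have e1 : e < A.row β := by linarith
      change YDec [(x0, A.row α), (x1, A.row α), (x1, A.row β), (xs, A.row β), (xs, e)]
      simp only [YDec]
      exact ⟨Or.inr trivial, le_rfl, h2, Or.inl trivial, h2.le, h2, Or.inr trivial, le_rfl, e1,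
        Or.inl trivial, e1.le⟩
  · change A.a1 ≤ a1'
    linarith
  · exact ha2'.le
  · change A.b1 ≤ b1'
    linarith
  · exact hb2'.le

end Pool.Agent.BN
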