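import Mathlib
import Pool.Agent.Lib_helper30.BN.Defs
import Pool.Agent.Lib_helper30.BN.P.D1
import Pool.Agent.Lib_helper30.BN.P.E3
import Pool.Agent.Lib_helper30.BN.P.E4
set_option autoImplicit false

namespace Pool.Agent.BN
open Act

variable {V : Type}

theorem km1_std [DecidableEq V] {G : SimpleGraph V} {ph : V → Prop} {k : ℕ} (hk : 8 ≤ k)
    {D : Finset V} {P : V → List Pt} {A : Act V} {L : List (Act V)}
    (hG : Geo G ph k D P (A :: L)) (hL : ∀ B ∈ L, B.Full) {y : V} (hy : y ∉ D)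
    {N : Finset V} (hN : N ⊆ A.K) (hc : N.card = k - 1)
    (hadj : ∀ v ∈ D, (G.Adj y v ↔ v ∈ N)) (ts : List V) (hts : ∀ t ∈ ts, t ∈ A.K)
    {α β ν : V} (hα : α ∈ N) (hβ : β ∈ N) (hν : ν ∈ N) (hνα : ν ≠ α) (hνβ : ν ≠ β)
    (hβ2 : A.b2 < A.row β) (hαβ : A.row β < A.row α) (hν2 : A.a2 < A.col ν) :
    StepOut G ph k D A L y ts := by
  have hne : α ≠ β := by
    intro h
    rw [h] at hαβ
    exact lt_irrefl _ hαβ
  obtain ⟨A', hG', hS', hK', hSS, hrow, hcol, hq, ha1, ha2, hb1, hb2⟩ :=
    reghost_rows hG (hN hα) (hN hβ) hβ2 hαβ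
  have hmem : ∀ v, v ∈ ν :: (((N.erase α).erase β).erase ν).toList ↔
      v ∈ N ∧ v ≠ α ∧ v ≠ β := by
    intro v
    rw [List.mem_cons, Finset.mem_toList, Finset.mem_erase, Finset.mem_erase, Finset.mem_erase]
    constructor
    · rintro (rfl | ⟨-, h1, h2, h3⟩)
      · exact ⟨hν, hνα, hνβ⟩
      · exact ⟨h3, h2, h1⟩
    · rintro ⟨h1, h2, h3⟩
      by_cases h : v = ν
      · exact Or.inl h
      · exact Or.inr ⟨h, h3, h2, h1⟩
  have hlen : (ν :: (((N.erase α).erase β).erase ν).toList).length = k - 3 := by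
    rw [List.length_cons, Finset.length_toList, Finset.card_erase_of_mem, Finset.card_erase_of_mem,
      Finset.card_erase_of_mem hα, hc]
    · omega
    · exact Finset.mem_erase.2 ⟨hne.symm, hβ⟩
    · exact Finset.mem_erase.2 ⟨hνβ, Finset.mem_erase.2 ⟨hνα, hν⟩⟩
  have hnd : (ν :: (((N.erase α).erase β).erase ν).toList).Nodup := by
    rw [List.nodup_cons]
    refine ⟨?_, Finset.nodup_toList _⟩
    rw [Finset.mem_toList]
    exact Finset.notMem_erase _ _
  have hlK : ∀ v ∈ ν :: (((N.erase α).erase β).erase ν).toList, v ∈ A'.K := by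
    intro v hv
    rw [hK']
    exact hN ((hmem v).1 hv).1
  have hsel := sel_rows hG' (ν :: (((N.erase α).erase β).erase ν).toList) hlK hnd (by omega)
    (α := α) (β := β) (by rw [hK']; exact hN hα) (by rw [hK']; exact hN hβ) hne
    (fun h => ((hmem α).1 h).2.1 rfl) (fun h => ((hmem β).1 h).2.2 rfl)
    (by rw [hrow]; linarith) (by rw [hrow]; linarith)
  have hout := step_r2 hG' hS' hL hy (ν :: (((N.erase α).erase β).erase ν).toList) hlK ν
    (by rw [List.head?_cons]) (by rw [hcol]; linarith) (by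
      intro v hv
      rw [hadj v hv, hSS, hmem v, Finset.mem_insert, Finset.mem_singleton]
      constructor
      · intro h
        by_cases h1 : v = α
        · exact Or.inl (Or.inl h1)
        · by_cases h2 : v = β
          · exact Or.inl (Or.inr h2)
          · exact Or.inr ⟨h, h1, h2⟩
      · rintro ((rfl | rfl) | h)
        · exact hα
        · exact hβ
        · exact h.1)
    (by intro _; rw [hlen, hq]; omega) ts (by rw [hK']; exact hts) hsel
  unfold StepOut at hout ⊢
  rw [hK'] at hout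
  exact hout

end Pool.Agent.BN
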