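import Mathlib
import Pool.Agent.Lib_helper30.BN.Defs
import Pool.Agent.Lib_helper30.BN.P.B1
import Pool.Agent.Lib_helper30.BN.P.E7
import Pool.Agent.Lib_helper30.BN.P.F3
import Pool.Agent.Lib_helper30.BN.P.F4
import Pool.Agent.Lib_helper30.BN.P.F5
import Pool.Agent.Lib_helper30.BN.P.F7
set_option autoImplicit false

namespace Pool.Agent.BN
open Act

variable {V : Type}

theorem g2_aux [DecidableEq V] {G : SimpleGraph V} {ph : V → Prop} {k : ℕ} (hk : 8 ≤ k)
    {D : Finset V} {P : V → List Pt} {A : Act V} {L : List (Act V)}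
    (hG : Geo G ph k D P (A :: L)) (hL : ∀ B ∈ L, B.Full) {y : V} (hy : y ∉ D)
    {N : Finset V} (hN : N ⊆ A.K) (hc : N.card = k - 1)
    (hadj : ∀ v ∈ D, (G.Adj y v ↔ v ∈ N)) (ts : List V) (hts : ∀ t ∈ ts, t ∈ A.K)
    {α β : V} (hα : α ∈ N) (hβ : β ∈ N) (hβ2 : A.b2 < A.row β) (hαβ : A.row β < A.row α) :
    StepOut G ph k D A L y ts := by
  have hex : ∃ ν ∈ N, ν ∉ ({α, β} : Finset V) := by
    by_contra hcon
    push Not at hcon
    have h1 : N ⊆ {α, β} := fun v hv => hcon v hv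
    have h2 := Finset.card_le_card h1
    have h3 : ({α, β} : Finset V).card ≤ 2 := Finset.card_le_two
    omega
  obtain ⟨ν, hν, hν'⟩ := hex
  have hνα : ν ≠ α := fun h => hν' (by simp [h])
  have hνβ : ν ≠ β := fun h => hν' (by simp [h])
  have hAL : A ∈ A :: L := List.mem_cons_self
  rcases geo_col hG hAL hAL (hN hν) with h | h
  · refine stepout_nx ?_
    have hG' := geo_nx hG
    rw [List.map_cons] at hG'
    refine km1_std hk hG' ?_ hy (N := N) hN hc hadj ts hts hα hβ hν hνα hνβ hβ2 hαβ ?_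
    · intro B hB
      obtain ⟨B', hB', rfl⟩ := List.mem_map.1 hB
      exact (full_nx B').2 (hL B' hB')
    · change -A.a1 < -A.col ν
      linarith
  · exact km1_std hk hG hL hy hN hc hadj ts hts hα hβ hν hνα hνβ hβ2 hαβ h

theorem g2_up [DecidableEq V] {G : SimpleGraph V} {ph : V → Prop} {k : ℕ} (hk : 8 ≤ k)
    {D : Finset V} {P : V → List Pt} {A : Act V} {L : List (Act V)}
    (hG : Geo G ph k D P (A :: L)) (hL : ∀ B ∈ L, B.Full) {y : V} (hy : y ∉ D)
    {N : Finset V} (hN : N ⊆ A.K) (hc : N.card = k - 1)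
    (hadj : ∀ v ∈ D, (G.Adj y v ↔ v ∈ N)) (ts : List V) (hts : ∀ t ∈ ts, t ∈ A.K)
    {α β : V} (hα : α ∈ N) (hβ : β ∈ N) (hne : α ≠ β) (hα2 : A.b2 < A.row α)
    (hβ2 : A.b2 < A.row β) : StepOut G ph k D A L y ts := by
  have hAL : A ∈ A :: L := List.mem_cons_self
  rcases lt_trichotomy (A.row β) (A.row α) with h | h | h
  · exact g2_aux hk hG hL hy hN hc hadj ts hts hα hβ hβ2 h
  · exact absurd (geo_row_inj hG hAL (hN hβ) (hN hα) h).symm hne
  · exact g2_aux hk hG hL hy hN hc hadj ts hts hβ hα hα2 h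

theorem g2_down [DecidableEq V] {G : SimpleGraph V} {ph : V → Prop} {k : ℕ} (hk : 8 ≤ k)
    {D : Finset V} {P : V → List Pt} {A : Act V} {L : List (Act V)}
    (hG : Geo G ph k D P (A :: L)) (hL : ∀ B ∈ L, B.Full) {y : V} (hy : y ∉ D)
    {N : Finset V} (hN : N ⊆ A.K) (hc : N.card = k - 1)
    (hadj : ∀ v ∈ D, (G.Adj y v ↔ v ∈ N)) (ts : List V) (hts : ∀ t ∈ ts, t ∈ A.K)
    {α β : V} (hα : α ∈ N) (hβ : β ∈ N) (hne : α ≠ β) (hα2 : A.row α < A.b1)
    (hβ2 : A.row β < A.b1) : StepOut G ph k D A L y ts := by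
  refine stepout_ny ?_
  have hG' := geo_ny hG
  rw [List.map_cons] at hG'
  refine g2_up hk hG' ?_ hy (N := N) hN hc hadj ts hts hα hβ hne ?_ ?_
  · intro B hB
    obtain ⟨B', hB', rfl⟩ := List.mem_map.1 hB
    exact (full_ny B').2 (hL B' hB')
  · change -A.b1 < -A.row α
    linarith
  · change -A.b1 < -A.row β
    linarith

theorem km1_gen [DecidableEq V] {G : SimpleGraph V} {ph : V → Prop} {k : ℕ} (hk : 8 ≤ k)
    {D : Finset V} {P : V → List Pt} {A : Act V} {L : List (Act V)}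
    (hG : Geo G ph k D P (A :: L)) (hL : ∀ B ∈ L, B.Full) {y : V} (hy : y ∉ D)
    {N : Finset V} (hN : N ⊆ A.K) (hc : N.card = k - 1)
    (hadj : ∀ v ∈ D, (G.Adj y v ↔ v ∈ N)) (ts : List V) (hts : ∀ t ∈ ts, t ∈ A.K) :
    StepOut G ph k D A L y ts := by
  have h3 : 2 < N.card := by omega
  obtain ⟨p, q, r, hp, hq, hr, hpq, hpr, hqr⟩ := Finset.two_lt_card_iff.1 h3
  have hAL : A ∈ A :: L := List.mem_cons_self
  have rp := geo_row hG hAL hAL (hN hp)
  have rq := geo_row hG hAL hAL (hN hq)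
  have rr := geo_row hG hAL hAL (hN hr)
  rcases rp with rp | rp
  · rcases rq with rq | rq
    · exact g2_down hk hG hL hy hN hc hadj ts hts hp hq hpq rp rq
    · rcases rr with rr | rr
      · exact g2_down hk hG hL hy hN hc hadj ts hts hp hr hpr rp rr
      · exact g2_up hk hG hL hy hN hc hadj ts hts hq hr hqr rq rr
  · rcases rq with rq | rq
    · rcases rr with rr | rr
      · exact g2_down hk hG hL hy hN hc hadj ts hts hq hr hqr rq rr
      · exact g2_up hk hG hL hy hN hc hadj ts hts hp hr hpr rp rr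
    · exact g2_up hk hG hL hy hN hc hadj ts hts hp hq hpq rp rq

end Pool.Agent.BN
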