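import Mathlib
import Pool.Agent.Lib_helper30.BN.Defs
import Pool.Agent.Lib_helper30.BN.P.B1
set_option autoImplicit false

namespace Pool.Agent.BN
open Act

variable {V : Type}

theorem d2_hon {xs yt e x y : ℚ} (h : e < yt) : ¬ HOn [(xs, yt), (xs, e)] x y := by
  intro hx
  rw [HOn] at hx
  rcases hx with ⟨h1, h2, -⟩ | hx
  · rw [← h1] at h2
    exact absurd h2 h.ne
  · simp [HOn] at hx

theorem d2_von {xs yt e x y : ℚ} (h : e < yt) (hx : VOn [(xs, yt), (xs, e)] x y) :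
    x = xs ∧ e < y ∧ y < yt := by
  rw [VOn] at hx
  rcases hx with ⟨h1, -, h2, h3⟩ | hx
  · rw [min_eq_right h.le] at h2
    rw [max_eq_left h.le] at h3
    exact ⟨h1.symm, h2, h3⟩
  · simp [VOn] at hx

theorem reghost_free {G : SimpleGraph V} {ph : V → Prop} {k : ℕ} {D : Finset V}
    {P : V → List Pt} {A : Act V} {L : List (Act V)}
    (hG : Geo G ph k D P (A :: L)) :
    ∃ A' : Act V, Geo G ph k D P (A' :: L) ∧ StdStart A' ∧ A'.K = A.K ∧ A'.S = ∅ ∧
      A'.row = A.row ∧ A'.col = A.col ∧ A'.q.length = 0 ∧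
      A.a1 ≤ A'.a1 ∧ A'.a2 ≤ A.a2 ∧ A.b1 ≤ A'.b1 ∧ A'.b2 ≤ A.b2 := by
  have hAm : A ∈ A :: L := List.mem_cons_self
  obtain ⟨ha, hb, hKD, hKk, -⟩ := hG.win A hAm
  obtain ⟨xs, a1', a2', hx1, hx2, hx3, hx4⟩ : ∃ xs a1' a2' : ℚ, A.a1 < xs ∧ xs < a1' ∧ a1' < a2' ∧
      a2' < A.a2 :=
    ⟨A.a1 + (A.a2 - A.a1) / 4, A.a1 + (A.a2 - A.a1) / 4 * 2, A.a1 + (A.a2 - A.a1) / 4 * 3,
      by linarith, by linarith, by linarith, by linarith⟩
  obtain ⟨e, b1', b2', yt, hy1, hy2, hy3, hy4, hy5⟩ : ∃ e b1' b2' yt : ℚ, A.b1 < e ∧ e < b1' ∧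
      b1' < b2' ∧ b2' < yt ∧ yt < A.b2 :=
    ⟨A.b1 + (A.b2 - A.b1) / 5, A.b1 + (A.b2 - A.b1) / 5 * 2, A.b1 + (A.b2 - A.b1) / 5 * 3,
      A.b1 + (A.b2 - A.b1) / 5 * 4, by linarith, by linarith, by linarith, by linarith, by linarith⟩
  have het : e < yt := by linarith
  have hsepA : ∀ B ∈ L, Sep A B := (List.pairwise_cons.1 hG.sep).1
  have hcl : ∀ p : List Pt, A.Clear p →
      (∀ x y, a1' ≤ x → x ≤ a2' → ¬ VOn p x y) ∧ (∀ x y, b1' ≤ y → y ≤ b2' → ¬ HOn p x y) :=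
    fun p hp => ⟨fun x y h1 h2 => hp.1 x y (by linarith) (by linarith),
      fun x y h1 h2 => hp.2 x y (by linarith) (by linarith)⟩
  have hex : ∀ (w : V) (p : List Pt), A.Excl w p →
      (∀ x, a1' ≤ x → x ≤ a2' → ¬ HOn p x (A.row w)) ∧
        (∀ y, b1' ≤ y → y ≤ b2' → ¬ VOn p (A.col w) y) :=
    fun w p hp => ⟨fun x h1 h2 => hp.1 x (by linarith) (by linarith),
      fun y h1 h2 => hp.2 y (by linarith) (by linarith)⟩
  let A' : Act V := { A with
    a1 := a1', a2 := a2', b1 := b1', b2 := b2', q := [], c := (xs, yt), tl := (xs, e), S := ∅ }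
  have hg : A'.g = [(xs, yt), (xs, e)] := rfl
  have hm : ∀ B : Act V, B ∈ A' :: L → B = A' ∨ (B ∈ L ∧ B ∈ A :: L) := by
    intro B hB
    rcases List.mem_cons.1 hB with h | h
    · exact Or.inl h
    · exact Or.inr ⟨h, List.mem_cons_of_mem _ h⟩
  refine ⟨A', ⟨hG.touch_iff, hG.path_ok, ?_, ?_, ?_, ?_, ?_, ?_, ?_, ?_, ?_, ?_⟩,
    ⟨rfl, hx2, hy4, hy2, Or.inl rfl, het.le⟩, rfl, rfl, rfl, rfl, rfl, ?_, ?_, ?_, ?_⟩
  · -- win
    intro B hB
    rcases hm B hB with rfl | ⟨-, hB⟩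
    · exact ⟨hx3, hy3, hKD, hKk, Finset.empty_subset _⟩
    · exact hG.win B hB
  · -- clearP
    intro B hB v hv
    rcases hm B hB with rfl | ⟨-, hB⟩
    · exact hcl _ (hG.clearP A hAm v hv)
    · exact hG.clearP B hB v hv
  · -- clearG
    intro B hB B' hB'
    rcases hm B hB with rfl | ⟨hBL, hB⟩ <;> rcases hm B' hB' with rfl | ⟨hBL', hB'⟩
    · rw [hg]
      refine ⟨fun x y h1 h2 h => ?_, fun x y h1 h2 h => d2_hon het h⟩
      have := (d2_von het h).1
      have h1' : a1' ≤ x := h1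
      linarith
    · exact hcl _ (hG.clearG A hAm B' hB')
    · rw [hg]
      refine ⟨fun x y h1 h2 h => ?_, fun x y h1 h2 h => d2_hon het h⟩
      have hxs := (d2_von het h).1
      rcases (hsepA B hBL).1 with h3 | h3 <;> linarith
    · exact hG.clearG B hB B' hB'
  · -- own
    intro B hB w hw
    rcases hm B hB with rfl | ⟨-, hB⟩
    · have h := hG.own A hAm w hw
      refine ⟨fun x h1 h2 => h.1 x ?_ ?_, fun y h1 h2 => h.2 y ?_ ?_⟩
      · exact (hx1.trans hx2).le.trans h1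
      · exact (show x ≤ a2' from h2).trans hx4.le
      · exact (hy1.trans hy2).le.trans h1
      · exact (show y ≤ b2' from h2).trans (hy4.trans hy5).le
    · exact hG.own B hB w hw
  · -- exclP
    intro B hB w hw v hv hvw
    rcases hm B hB with rfl | ⟨-, hB⟩
    · exact hex w _ (hG.exclP A hAm w hw v hv hvw)
    · exact hG.exclP B hB w hw v hv hvw
  · -- exclG
    intro B hB w hw B' hB'
    rcases hm B hB with rfl | ⟨hBL, hB⟩ <;> rcases hm B' hB' with rfl | ⟨hBL', hB'⟩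
    · rw [hg]
      refine ⟨fun x h1 h2 h => d2_hon het h, fun y h1 h2 h => ?_⟩
      have h3 : A.col w = xs := (d2_von het h).1
      rcases geo_col hG hAm hAm (w := w) hw with h4 | h4 <;> linarith
    · exact hex w _ (hG.exclG A hAm w hw B' hB')
    · rw [hg]
      refine ⟨fun x h1 h2 h => d2_hon het h, fun y h1 h2 h => ?_⟩
      obtain ⟨-, h3, h4⟩ := d2_von het h
      rcases (hsepA B hBL).2 with h5 | h5 <;> linarith
    · exact hG.exclG B hB w hw B' hB'
  · -- sep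
    refine List.pairwise_cons.2 ⟨fun B hB => ?_, (List.pairwise_cons.1 hG.sep).2⟩
    obtain ⟨h1, h2⟩ := hsepA B hB
    refine ⟨?_, ?_⟩
    · rcases h1 with h1 | h1
      · exact Or.inl (hx4.trans h1)
      · exact Or.inr (h1.trans (hx1.trans hx2))
    · rcases h2 with h2 | h2
      · exact Or.inl ((hy4.trans hy5).trans h2)
      · exact Or.inr (h2.trans (hy1.trans hy2))
  · -- ghost_touch
    intro B hB v hv
    rcases hm B hB with rfl | ⟨-, hB⟩
    · constructor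
      · rintro ⟨x, y, ⟨h, -⟩ | ⟨h, -⟩⟩
        · exact absurd h (by simp [A', HOn])
        · exact absurd h (by simp [A', VOn])
      · intro h
        exact absurd h (Finset.notMem_empty v)
    · exact hG.ghost_touch B hB v hv
  · -- ghost_free
    intro B hB v hv
    rcases hm B hB with rfl | ⟨-, hB⟩
    · rintro ⟨x, y, ⟨h, -⟩ | ⟨h, h'⟩⟩
      · exact d2_hon het h
      · obtain ⟨h3, -⟩ := d2_von het h
        exact (hG.clearP A hAm v hv).1 x y (by linarith) (by linarith) h'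
    · exact hG.ghost_free B hB v hv
  · -- ghost_sep
    refine List.pairwise_cons.2 ⟨fun B hB => ?_, (List.pairwise_cons.1 hG.ghost_sep).2⟩
    rintro ⟨x, y, ⟨h, -⟩ | ⟨h, h'⟩⟩
    · exact d2_hon het h
    · obtain ⟨h3, -⟩ := d2_von het h
      exact (hG.clearG A hAm B (List.mem_cons_of_mem _ hB)).1 x y (by linarith) (by linarith) h'
  · exact (hx1.trans hx2).le
  · exact hx4.le
  · exact (hy1.trans hy2).le
  · exact (hy4.trans hy5).le

end Pool.Agent.BN
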