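import Mathlib
import Pool.Agent.Lib_helper30.BN.Defs
import Pool.Agent.Lib_helper30.BN.P.E2
set_option autoImplicit false

namespace Pool.Agent.BN
open Act

variable {V : Type}

theorem e5_pick [DecidableEq V] (S : Finset V) (a b c : V) (h : 4 ≤ S.card) :
    ∃ u ∈ S, u ≠ a ∧ u ≠ b ∧ u ≠ c := by
  have h1 : ({a, b, c} : Finset V).card ≤ 3 := Finset.card_le_three
  obtain ⟨u, hu, hu2⟩ := Finset.exists_mem_notMem_of_card_lt_card
    (lt_of_le_of_lt h1 (by omega : 3 < S.card))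
  rw [Finset.mem_insert, Finset.mem_insert, Finset.mem_singleton, not_or, not_or] at hu2
  exact ⟨u, hu, hu2.1, hu2.2.1, hu2.2.2⟩

theorem sel_free [DecidableEq V] {G : SimpleGraph V} {ph : V → Prop} {k : ℕ} {D : Finset V}
    {P : V → List Pt} {A : Act V} {L : List (Act V)} (hG : Geo G ph k D P (A :: L))
    (l : List V) (hl : ∀ v ∈ l, v ∈ A.K) (hnd : l.Nodup) (hlen : 3 ≤ l.length)
    (htop : 4 ≤ (A.K.filter (fun w => A.b2 < A.row w)).card) :
    ∀ t ∈ A.K, ∃ F N ω : V, F ∈ A.K ∧ N ∈ A.K ∧ ω ∈ A.K ∧ F ≠ N ∧ F ≠ t ∧ N ≠ t ∧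
      ω ≠ t ∧ ω ≠ F ∧ ω ≠ N ∧ A.b2 < A.row ω ∧ (F ∈ l ∨ N ∈ l) ∧
      ((A.a2 < A.col N ∧ A.col N < A.col F) ∨ (A.col F < A.col N ∧ A.col N < A.a1)) := by
  intro t ht
  have hK4 : 4 ≤ A.K.card := htop.trans (Finset.card_le_card (Finset.filter_subset _ _))
  have h1 : l.toFinset.card = l.length := List.toFinset_card_of_nodup hnd
  have h2 : 1 < (l.toFinset.erase t).card := by
    have h3 := Finset.pred_card_le_card_erase (s := l.toFinset) (a := t)
    omega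
  obtain ⟨p, hp, q, hq, hpq⟩ := Finset.one_lt_card.1 h2
  rw [Finset.mem_erase, List.mem_toFinset] at hp hq
  obtain ⟨u, hu, hut, hup, huq⟩ := e5_pick A.K t p q hK4
  obtain ⟨F, N, hF, hN, hFt, hNt, hFN, hside, hor⟩ := r2_pick hG {t} (hl p hp.2) (hl q hq.2) hu
    (by rw [Finset.mem_singleton]; exact hp.1) (by rw [Finset.mem_singleton]; exact hq.1)
    (by rw [Finset.mem_singleton]; exact hut) hpq hup.symm huq.symm
  rw [Finset.mem_singleton] at hFt hNt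
  obtain ⟨ω, hω, hωt, hωF, hωN⟩ := e5_pick _ t F N htop
  rw [Finset.mem_filter] at hω
  refine ⟨F, N, ω, hF, hN, hω.1, hFN, hFt, hNt, hωt, hωF, hωN, hω.2, ?_, hside⟩
  rcases hor with rfl | rfl | rfl | rfl
  · exact Or.inl hp.2
  · exact Or.inl hq.2
  · exact Or.inr hp.2
  · exact Or.inr hq.2

end Pool.Agent.BN
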