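import Mathlib
import Pool.Agent.Lib_helper30.BN.Defs
import Pool.Agent.Lib_helper30.BN.P.D2
import Pool.Agent.Lib_helper30.BN.P.E3
import Pool.Agent.Lib_helper30.BN.P.E5
set_option autoImplicit false

namespace Pool.Agent.BN
open Act

variable {V : Type}

theorem med_std [DecidableEq V] {G : SimpleGraph V} {ph : V → Prop} {k : ℕ} (hk : 8 ≤ k)
    {D : Finset V} {P : V → List Pt} {A : Act V} {L : List (Act V)}
    (hG : Geo G ph k D P (A :: L)) (hL : ∀ B ∈ L, B.Full) {y : V} (hy : y ∉ D)
    {N : Finset V} (hN : N ⊆ A.K) (hc : 3 ≤ N.card) (hc' : N.card ≤ k - 2)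
    (hadj : ∀ v ∈ D, (G.Adj y v ↔ v ∈ N)) (ts : List V) (hts : ∀ t ∈ ts, t ∈ A.K)
    {ν : V} (hν : ν ∈ N) (hν2 : A.a2 < A.col ν)
    (htop : 4 ≤ (A.K.filter (fun w => A.b2 < A.row w)).card) :
    StepOut G ph k D A L y ts := by
  obtain ⟨A', hG', hS', hK', hSS, hrow, hcol, hq, ha1, ha2, hb1, hb2⟩ := reghost_free hG
  have hmem : ∀ v, v ∈ ν :: (N.erase ν).toList ↔ v ∈ N := by
    intro v
    rw [List.mem_cons, Finset.mem_toList, Finset.mem_erase]
    constructor
    · rintro (rfl | ⟨-, h1⟩)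
      · exact hν
      · exact h1
    · intro h1
      by_cases h : v = ν
      · exact Or.inl h
      · exact Or.inr ⟨h, h1⟩
  have hlen : (ν :: (N.erase ν).toList).length = N.card := by
    rw [List.length_cons, Finset.length_toList, Finset.card_erase_of_mem hν]
    omega
  have hnd : (ν :: (N.erase ν).toList).Nodup := by
    rw [List.nodup_cons]
    refine ⟨?_, Finset.nodup_toList _⟩
    rw [Finset.mem_toList]
    exact Finset.notMem_erase _ _
  have hlK : ∀ v ∈ ν :: (N.erase ν).toList, v ∈ A'.K := by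
    intro v hv
    rw [hK']
    exact hN ((hmem v).1 hv)
  have htop' : 4 ≤ (A'.K.filter (fun w => A'.b2 < A'.row w)).card := by
    refine htop.trans (Finset.card_le_card ?_)
    intro w hw
    rw [Finset.mem_filter] at hw ⊢
    rw [hK', hrow]
    exact ⟨hw.1, lt_of_le_of_lt hb2 hw.2⟩
  have hsel := sel_free hG' (ν :: (N.erase ν).toList) hlK hnd (by omega) htop'
  have hout := step_r2 hG' hS' hL hy (ν :: (N.erase ν).toList) hlK ν
    (by rw [List.head?_cons]) (by rw [hcol]; linarith) (by
      intro v hv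
      rw [hadj v hv, hSS, hmem v]
      simp)
    (by intro _; rw [hlen, hq]; omega) ts (by rw [hK']; exact hts) hsel
  unfold StepOut at hout ⊢
  rw [hK'] at hout
  exact hout

end Pool.Agent.BN
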