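import Mathlib
import Pool.Agent.Lib_helper30.BN.Defs
import Pool.Agent.Lib_helper30.BN.P.B1
import Pool.Agent.Lib_helper30.BN.P.E8
import Pool.Agent.Lib_helper30.BN.P.F3
import Pool.Agent.Lib_helper30.BN.P.F4
import Pool.Agent.Lib_helper30.BN.P.F5
import Pool.Agent.Lib_helper30.BN.P.F7
set_option autoImplicit false

namespace Pool.Agent.BN
open Act

variable {V : Type}

theorem g3_top [DecidableEq V] {G : SimpleGraph V} {ph : V → Prop} {k : ℕ} (hk : 8 ≤ k)
    {D : Finset V} {P : V → List Pt} {A : Act V} {L : List (Act V)}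
    (hG : Geo G ph k D P (A :: L)) (hL : ∀ B ∈ L, B.Full) {y : V} (hy : y ∉ D)
    {N : Finset V} (hN : N ⊆ A.K) (hc : 3 ≤ N.card) (hc' : N.card ≤ k - 2)
    (hadj : ∀ v ∈ D, (G.Adj y v ↔ v ∈ N)) (ts : List V) (hts : ∀ t ∈ ts, t ∈ A.K)
    (htop : 4 ≤ (A.K.filter (fun w => A.b2 < A.row w)).card) :
    StepOut G ph k D A L y ts := by
  obtain ⟨ν, hν⟩ : N.Nonempty := Finset.card_pos.mp (by omega)
  rcases geo_col hG (List.mem_cons_self) (List.mem_cons_self) (hN hν) with h | h
  · apply stepout_nx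
    refine med_std hk (A := A.nx) (L := L.map Act.nx) (geo_nx hG) ?_ hy hN hc hc' hadj ts hts hν ?_ htop
    · intro B hB
      obtain ⟨B', hB', rfl⟩ := List.mem_map.mp hB
      exact (full_nx B').mpr (hL B' hB')
    · exact neg_lt_neg h
  · exact med_std hk hG hL hy hN hc hc' hadj ts hts hν h htop

theorem med_gen [DecidableEq V] {G : SimpleGraph V} {ph : V → Prop} {k : ℕ} (hk : 8 ≤ k)
    {D : Finset V} {P : V → List Pt} {A : Act V} {L : List (Act V)}
    (hG : Geo G ph k D P (A :: L)) (hL : ∀ B ∈ L, B.Full) {y : V} (hy : y ∉ D)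
    {N : Finset V} (hN : N ⊆ A.K) (hc : 3 ≤ N.card) (hc' : N.card ≤ k - 2)
    (hadj : ∀ v ∈ D, (G.Adj y v ↔ v ∈ N)) (ts : List V) (hts : ∀ t ∈ ts, t ∈ A.K) :
    StepOut G ph k D A L y ts := by
  by_cases htop : 4 ≤ (A.K.filter (fun w => A.b2 < A.row w)).card
  · exact g3_top hk hG hL hy hN hc hc' hadj ts hts htop
  · have hcard : A.K.card = k := (hG.win A (List.mem_cons_self)).2.2.2.1
    have hsum := Finset.card_filter_add_card_filter_not (s := A.K) (fun w => A.b2 < A.row w)
    have hlow : 4 ≤ (A.K.filter (fun w => A.row w < A.b1)).card := by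
      have : A.K.filter (fun w => ¬ A.b2 < A.row w) ⊆ A.K.filter (fun w => A.row w < A.b1) := by
        intro w hw
        rw [Finset.mem_filter] at hw ⊢
        rcases geo_row hG (List.mem_cons_self) (List.mem_cons_self) hw.1 with h | h
        · exact ⟨hw.1, h⟩
        · exact absurd h hw.2
      have := Finset.card_le_card this
      omega
    apply stepout_ny
    refine g3_top hk (A := A.ny) (L := L.map Act.ny) (geo_ny hG) ?_ hy hN hc hc' hadj ts hts ?_
    · intro B hB
      obtain ⟨B', hB', rfl⟩ := List.mem_map.mp hB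
      exact (full_ny B').mpr (hL B' hB')
    · have e : A.ny.K.filter (fun w => A.ny.b2 < A.ny.row w) =
          A.K.filter (fun w => A.row w < A.b1) := by
        apply Finset.filter_congr
        intro w _
        exact neg_lt_neg_iff
      rw [e]
      exact hlow

end Pool.Agent.BN
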