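import Mathlib
import Pool.Agent.Lib_helper30.BN.Defs
import Pool.Agent.Lib_helper30.BN.P.B1
set_option autoImplicit false

namespace Pool.Agent.BN
open Act

variable {V : Type}

/-- block E10: four columns in order -/
theorem four_cols [DecidableEq V] {G : SimpleGraph V} {ph : V → Prop} {k : ℕ} {D : Finset V}
    {P : V → List Pt} {A : Act V} {L : List (Act V)} (hG : Geo G ph k D P (A :: L))
    (h4 : 4 ≤ (A.K.filter (fun w => A.a2 < A.col w)).card) :
    ∃ c1 c2 c3 c4 : V, c1 ∈ A.K ∧ c2 ∈ A.K ∧ c3 ∈ A.K ∧ c4 ∈ A.K ∧ A.a2 < A.col c1 ∧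
      A.col c1 < A.col c2 ∧ A.col c2 < A.col c3 ∧ A.col c3 < A.col c4 := by
  have hA : A ∈ A :: L := List.mem_cons_self
  have hcard : ((A.K.filter (fun w => A.a2 < A.col w)).image A.col).card =
      (A.K.filter (fun w => A.a2 < A.col w)).card := by
    apply Finset.card_image_of_injOn
    intro u hu v hv huv
    have hu' := (Finset.mem_filter.1 (Finset.mem_coe.1 hu)).1
    have hv' := (Finset.mem_filter.1 (Finset.mem_coe.1 hv)).1
    exact geo_col_inj hG hA hu' hv' huv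
  obtain ⟨T, hT, hT4⟩ := Finset.exists_subset_card_eq (hcard.symm ▸ h4)
  have key : ∀ i : Fin 4, ∃ w : V, w ∈ A.K ∧ A.a2 < A.col w ∧ A.col w = T.orderEmbOfFin hT4 i := by
    intro i
    have h1 := hT (T.orderEmbOfFin_mem hT4 i)
    obtain ⟨w, hw, hwi⟩ := Finset.mem_image.1 h1
    exact ⟨w, (Finset.mem_filter.1 hw).1, (Finset.mem_filter.1 hw).2, hwi⟩
  obtain ⟨c1, h11, h12, h13⟩ := key 0
  obtain ⟨c2, h21, h22, h23⟩ := key 1
  obtain ⟨c3, h31, h32, h33⟩ := key 2
  obtain ⟨c4, h41, h42, h43⟩ := key 3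
  refine ⟨c1, c2, c3, c4, h11, h21, h31, h41, h12, ?_, ?_, ?_⟩
  · rw [h13, h23]
    exact (T.orderEmbOfFin hT4).strictMono (by decide)
  · rw [h23, h33]
    exact (T.orderEmbOfFin hT4).strictMono (by decide)
  · rw [h33, h43]
    exact (T.orderEmbOfFin hT4).strictMono (by decide)

end Pool.Agent.BN
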