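import Mathlib
import Pool.Agent.Lib_helper30.BN.Defs
set_option autoImplicit false

namespace Pool.Agent.BN
open Act

variable {V : Type}

theorem e9_count {V : Type} [DecidableEq V] (c : V) (l : List V) :
    ((Finset.range l.length).filter (fun r => l[r]? = some c)).card = l.count c := by
  induction l using List.reverseRecOn with
  | nil => simp
  | append_singleton l a ih =>
    rw [List.length_append, List.length_singleton, Finset.range_add_one, Finset.filter_insert]
    have h1 : (Finset.range l.length).filter (fun r => (l ++ [a])[r]? = some c)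
        = (Finset.range l.length).filter (fun r => l[r]? = some c) := by
      refine Finset.filter_congr (fun r hr => ?_)
      rw [List.getElem?_append_left (Finset.mem_range.1 hr)]
    rw [h1, List.count_append]
    have h2 : (l ++ [a])[l.length]? = some a := by simp
    rw [h2]
    by_cases h : a = c
    · subst h
      rw [if_pos rfl, Finset.card_insert_of_notMem, ih]
      · simp
      · simp
    · rw [if_neg (by simpa using h), ih]
      have : List.count c [a] = 0 := by
        rw [List.count_eq_zero]
        simpa using fun hh => h hh.symm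
      omega

/-- indices carrying one of two labels -/
theorem e9_card {V : Type} [DecidableEq V] (ts : List V) (hc : ∀ t, ts.count t ≤ 2) (a b : V) :
    ((Finset.range ts.length).filter
      (fun r => ts[r]? = some a ∨ ts[r]? = some b)).card ≤ 4 := by
  rw [Finset.filter_or]
  refine (Finset.card_union_le _ _).trans ?_
  rw [e9_count, e9_count]
  have := hc a
  have := hc b
  omega

/-- block E9: distribution of the labels -/
theorem labels {V : Type} [DecidableEq V] (k : ℕ) (hk : 8 ≤ k) (ts : List V)
    (hl : ts.length ≤ k)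
    (hc : ∀ t, ts.count t ≤ 2) (c1 c2 c3 c4 : V)
    (h13 : c1 ≠ c3) (h14 : c1 ≠ c4) (h23 : c2 ≠ c3) (h24 : c2 ≠ c4) :
    ∃ (pr : ℕ → Bool) (idx : ℕ → ℕ), ∀ (r : ℕ) (hr : r < ts.length), idx r < (k + 1) / 2 ∧
      (pr r = true → ts[r] ≠ c3 ∧ ts[r] ≠ c4) ∧ (pr r = false → ts[r] ≠ c1 ∧ ts[r] ≠ c2) ∧
      ∀ (r' : ℕ) (hr' : r' < ts.length), r ≠ r' → pr r = pr r' → idx r ≠ idx r' := by
  classical
  obtain ⟨m, hm⟩ : ∃ m, m = (k + 1) / 2 := ⟨_, rfl⟩
  have hm4 : 4 ≤ m := by omega
  have hlm : ts.length ≤ 2 * m := by omega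
  obtain ⟨A0, hA0⟩ : ∃ A0, A0 = (Finset.range ts.length).filter
      (fun r => ts[r]? = some c1 ∨ ts[r]? = some c2) := ⟨_, rfl⟩
  obtain ⟨B0, hB0⟩ : ∃ B0, B0 = (Finset.range ts.length).filter
      (fun r => ts[r]? = some c3 ∨ ts[r]? = some c4) := ⟨_, rfl⟩
  have hA4 : A0.card ≤ 4 := by rw [hA0]; exact e9_card ts hc c1 c2
  have hB4 : B0.card ≤ 4 := by rw [hB0]; exact e9_card ts hc c3 c4
  have hBs : B0 ⊆ Finset.range ts.length := by rw [hB0]; exact Finset.filter_subset _ _
  have hAs : A0 ⊆ Finset.range ts.length \ B0 := by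
    intro r hr
    rw [hA0, Finset.mem_filter] at hr
    rw [Finset.mem_sdiff, hB0, Finset.mem_filter]
    refine ⟨hr.1, fun h => ?_⟩
    rcases hr.2 with h1 | h1 <;> rcases h.2 with h2 | h2 <;> rw [h1] at h2 <;>
      simp only [Option.some.injEq] at h2
    · exact h13 h2
    · exact h14 h2
    · exact h23 h2
    · exact h24 h2
  have hcard : (Finset.range ts.length \ B0).card = ts.length - B0.card := by
    rw [Finset.card_sdiff_of_subset hBs, Finset.card_range]
  have hAc := Finset.card_le_card hAs
  obtain ⟨T, hAT, hTs, hTc⟩ := Finset.exists_subsuperset_card_eq hAs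
    (n := max A0.card (ts.length - m)) (le_max_left _ _)
    (max_le hAc (by rw [hcard]; omega))
  have hTm : T.card ≤ m := by rw [hTc]; exact max_le (by omega) (by omega)
  have hTl : ts.length - T.card ≤ m := by
    have := le_max_right A0.card (ts.length - m)
    omega
  have hTr : T ⊆ Finset.range ts.length := fun r hr => (Finset.mem_sdiff.1 (hTs hr)).1
  obtain ⟨C, hC⟩ : ∃ C : ℕ → Finset ℕ, ∀ r, C r = if r ∈ T then T else
      Finset.range ts.length \ T := ⟨_, fun _ => rfl⟩
  have hCm : ∀ r, (C r).card ≤ m := by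
    intro r
    rw [hC]
    split_ifs
    · exact hTm
    · rw [Finset.card_sdiff_of_subset hTr, Finset.card_range]
      exact hTl
  have hrC : ∀ r, r < ts.length → r ∈ C r := by
    intro r hr
    rw [hC]
    split_ifs with h
    · exact h
    · exact Finset.mem_sdiff.2 ⟨Finset.mem_range.2 hr, h⟩
  have hlt : ∀ r r', r < ts.length → r < r' → C r = C r' →
      ((C r).filter (fun s => s < r)).card < ((C r').filter (fun s => s < r')).card := by
    intro r r' hr hrr hCC
    refine Finset.card_lt_card ?_
    rw [Finset.ssubset_iff_subset_ne]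
    constructor
    · intro s hs
      rw [Finset.mem_filter] at hs ⊢
      exact ⟨hCC ▸ hs.1, lt_trans hs.2 hrr⟩
    · intro h
      have h1 : r ∈ (C r').filter (fun s => s < r') :=
        Finset.mem_filter.2 ⟨hCC ▸ hrC r hr, hrr⟩
      rw [← h, Finset.mem_filter] at h1
      exact lt_irrefl _ h1.2
  refine ⟨fun r => decide (r ∈ T), fun r => ((C r).filter (fun s => s < r)).card, ?_⟩
  intro r hr
  have hget : ts[r]? = some ts[r] := List.getElem?_eq_getElem hr
  refine ⟨?_, ?_, ?_, ?_⟩
  · rw [← hm]
    refine lt_of_lt_of_le (Finset.card_lt_card ?_) (hCm r)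
    rw [Finset.ssubset_iff_subset_ne]
    refine ⟨Finset.filter_subset _ _, fun h => ?_⟩
    have h1 := hrC r hr
    rw [← h, Finset.mem_filter] at h1
    exact lt_irrefl _ h1.2
  · intro h
    have h1 : r ∈ T := of_decide_eq_true h
    have h2 := (Finset.mem_sdiff.1 (hTs h1)).2
    rw [hB0, Finset.mem_filter] at h2
    constructor
    · intro h3
      exact h2 ⟨Finset.mem_range.2 hr, Or.inl (by rw [hget, h3])⟩
    · intro h3
      exact h2 ⟨Finset.mem_range.2 hr, Or.inr (by rw [hget, h3])⟩
  · intro h
    have h1 : r ∉ T := of_decide_eq_false h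
    constructor
    · intro h3
      refine h1 (hAT ?_)
      rw [hA0, Finset.mem_filter]
      exact ⟨Finset.mem_range.2 hr, Or.inl (by rw [hget, h3])⟩
    · intro h3
      refine h1 (hAT ?_)
      rw [hA0, Finset.mem_filter]
      exact ⟨Finset.mem_range.2 hr, Or.inr (by rw [hget, h3])⟩
  · intro r' hr' hne hp
    have hCC : C r = C r' := by
      have h1 : (r ∈ T) ↔ (r' ∈ T) := by
        have := hp
        simp only [decide_eq_decide] at this
        exact this
      rw [hC, hC]
      by_cases h : r ∈ T
      · rw [if_pos h, if_pos (h1.1 h)]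
      · rw [if_neg h, if_neg (fun h' => h (h1.2 h'))]
    rcases lt_or_gt_of_ne hne with h | h
    · exact (hlt r r' hr h hCC).ne
    · exact (hlt r' r hr' h hCC.symm).ne'

end Pool.Agent.BN
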