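import Mathlib
import Pool.Agent.Lib_helper30.BN.Defs
import Pool.Agent.Lib_helper30.BN.P.B1
import Pool.Agent.Lib_helper30.BN.P.D2
import Pool.Agent.Lib_helper30.BN.P.D3
import Pool.Agent.Lib_helper30.BN.P.E1
import Pool.Agent.Lib_helper30.BN.P.E10
import Pool.Agent.Lib_helper30.BN.P.E9
set_option autoImplicit false

namespace Pool.Agent.BN
open Act

variable {V : Type}

/-- the abscissas of the light step -/
def e11_gam (m : ℕ) (R f0 : ℚ) (l : List ℚ) (j : ℕ) : ℚ :=
  if j < m then (if j % 2 = 0 then R else f0) else l.getD (j - m) 0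

theorem e11_gam_lt {m : ℕ} {R f0 : ℚ} {l : List ℚ} {j : ℕ} (hj : j < m) :
    e11_gam m R f0 l j = R ∨ e11_gam m R f0 l j = f0 := by
  unfold e11_gam
  rw [if_pos hj]
  split_ifs
  · exact Or.inl rfl
  · exact Or.inr rfl

theorem e11_gam_even {m : ℕ} {R f0 : ℚ} {l : List ℚ} {j : ℕ} (hj : j < m) (h : j % 2 = 0) :
    e11_gam m R f0 l j = R := by
  unfold e11_gam
  rw [if_pos hj, if_pos h]

theorem e11_gam_odd {m : ℕ} {R f0 : ℚ} {l : List ℚ} {j : ℕ} (hj : j < m) (h : j % 2 ≠ 0) :
    e11_gam m R f0 l j = f0 := by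
  unfold e11_gam
  rw [if_pos hj, if_neg h]

theorem e11_gam_ge {m : ℕ} {R f0 : ℚ} {l : List ℚ} {j : ℕ} (hj : ¬ j < m)
    (h : j - m < l.length) : e11_gam m R f0 l j = l[j - m] := by
  unfold e11_gam
  rw [if_neg hj, List.getD_eq_getElem _ _ h]

/-- the requests of the light step -/
def e11_rq (pr : ℕ → Bool) (idx : ℕ → ℕ) (ts : List V) (y c1 c2 c3 c4 : V) (r : ℕ) : Req V :=
  if pr r = true then { t := ts.getD r y, F := c4, N := c3, j := idx r, cr := true }
  else { t := ts.getD r y, F := c2, N := c1, j := idx r, cr := true }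

theorem light_std [DecidableEq V] {G : SimpleGraph V} {ph : V → Prop} {k : ℕ} (hk : 8 ≤ k)
    {D : Finset V} {P : V → List Pt} {A : Act V} {L : List (Act V)}
    (hG : Geo G ph k D P (A :: L)) (hL : ∀ B ∈ L, B.Full) {y : V} (hy : y ∉ D)
    {N : Finset V} (hN : N ⊆ A.K) (hc : N.card ≤ 2)
    (hadj : ∀ v ∈ D, (G.Adj y v ↔ v ∈ N)) (ts : List V) (hts : ∀ t ∈ ts, t ∈ A.K)
    (hlen : ts.length ≤ k) (hcnt : ∀ t, ts.count t ≤ 2)
    (htop : 4 ≤ (A.K.filter (fun w => A.b2 < A.row w)).card)
    (hright : 4 ≤ (A.K.filter (fun w => A.a2 < A.col w)).card) :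
    StepOut G ph k D A L y ts := by
  obtain ⟨A', hG', hS', hK, hSe, hrow, hcol, hql, ha1, ha2, hb1, hb2⟩ := reghost_free hG
  have hmem : A' ∈ A' :: L := List.mem_cons_self
  obtain ⟨hw1, hw2, hKD, hKc, hSK⟩ := hG'.win A' hmem
  obtain ⟨c⟩ := exists_crd A' hw1 hw2
  obtain ⟨R, hR⟩ := exists_farR D P (A' :: L)
  have hright' : 4 ≤ (A'.K.filter (fun w => A'.a2 < A'.col w)).card := by
    refine hright.trans (Finset.card_le_card ?_)
    intro v hv
    rw [Finset.mem_filter] at hv ⊢
    rw [hK, hcol]
    exact ⟨hv.1, lt_of_le_of_lt ha2 hv.2⟩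
  have htop' : 4 ≤ (A'.K.filter (fun w => A'.b2 < A'.row w)).card := by
    refine htop.trans (Finset.card_le_card ?_)
    intro v hv
    rw [Finset.mem_filter] at hv ⊢
    rw [hK, hrow]
    exact ⟨hv.1, lt_of_le_of_lt hb2 hv.2⟩
  obtain ⟨c1, c2, c3, c4, k1, k2, k3, k4, o1, o2, o3, o4⟩ := four_cols hG' hright'
  have h12 : c1 ≠ c2 := fun h => by rw [h] at o2; exact lt_irrefl _ o2
  have h34 : c3 ≠ c4 := fun h => by rw [h] at o4; exact lt_irrefl _ o4
  have h13 : c1 ≠ c3 := fun h => by rw [h] at o2; exact lt_irrefl _ (o2.trans o3)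
  have h14 : c1 ≠ c4 := fun h => by rw [h] at o2; exact lt_irrefl _ ((o2.trans o3).trans o4)
  have h23 : c2 ≠ c3 := fun h => by rw [h] at o3; exact lt_irrefl _ o3
  have h24 : c2 ≠ c4 := fun h => by rw [h] at o3; exact lt_irrefl _ (o3.trans o4)
  obtain ⟨pr, idx, hlab⟩ := labels k hk ts hlen hcnt c1 c2 c3 c4 h13 h14 h23 h24
  set m : ℕ := (k + 1) / 2 with hm
  have hm4 : 4 ≤ m := by omega
  set γ : ℕ → ℚ := e11_gam m R (c.f 0) (N.toList.map A'.col) with hγ
  set n : ℕ := m + N.card with hn
  have hlN : (N.toList.map A'.col).length = N.card := by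
    rw [List.length_map, Finset.length_toList]
  have hf0 : c.f 0 < A'.a2 := c.hf2 0
  have hf0' : A'.a1 < c.f 0 := c.hf1 0
  have haR : A'.a2 < R := hR.a A' hmem
  have hcolR : ∀ w ∈ A'.K, A'.col w < R := by
    intro w hw
    exact hR.p w (hKD hw) _ _ ((hG'.own A' hmem w hw).2 A'.b1 le_rfl hw2.le)
  have hrqt : ∀ r, (e11_rq pr idx ts y c1 c2 c3 c4 r).t = ts.getD r y := by
    intro r; unfold e11_rq; split_ifs <;> rfl
  have hcore : Core G ph k D P A' L c γ n R y (e11_rq pr idx ts y c1 c2 c3 c4) ts.length := by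
    refine ⟨hG', hS', hy, ⟨?_, ?_, ?_⟩, hR, ?_, ?_, ?_, ?_⟩
    · omega
    · rw [hγ, e11_gam_even (by omega) (by norm_num)]
      exact haR
    · intro j hj
      by_cases hjm : j < m
      · rcases e11_gam_lt (R := R) (f0 := c.f 0) (l := N.toList.map A'.col) hjm with h | h
        · exact Or.inr (Or.inr h)
        · exact Or.inr (Or.inl h)
      · left
        have hjl : j - m < (N.toList.map A'.col).length := by rw [hlN]; omega
        rw [hγ, e11_gam_ge hjm hjl, List.getElem_map]
        refine ⟨_, ?_, rfl⟩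
        rw [hK]
        apply hN
        rw [← Finset.mem_toList]
        exact List.getElem_mem _
    · -- requests
      intro r hr
      obtain ⟨hidx, hp1, hp2, _⟩ := hlab r hr
      have hget : ts.getD r y = ts[r] := List.getD_eq_getElem _ _ hr
      have htK : ts[r] ∈ A'.K := by rw [hK]; exact hts _ (List.getElem_mem _)
      -- the alternation
      have halt : ∀ w ∈ A'.K, A'.a2 < A'.col w → γ (idx r) ≠ A'.col w ∧
          ((prev γ A'.c.1 (idx r) ≤ A'.a2 ∧ A'.col w < γ (idx r)) ∨
            (γ (idx r) ≤ A'.a2 ∧ A'.col w < prev γ A'.c.1 (idx r))) := by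
        intro w hw hw2
        by_cases hev : idx r % 2 = 0
        · have e1 : γ (idx r) = R := e11_gam_even hidx hev
          refine ⟨?_, Or.inl ⟨?_, ?_⟩⟩
          · rw [e1]; exact (hcolR w hw).ne'
          · unfold prev
            split_ifs with h0
            · exact (hS'.left.trans hw1).le
            · have e2 : γ (idx r - 1) = c.f 0 := e11_gam_odd (by omega) (by omega)
              rw [e2]; exact hf0.le
          · rw [e1]; exact hcolR w hw
        · have e1 : γ (idx r) = c.f 0 := e11_gam_odd hidx hev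
          refine ⟨?_, Or.inr ⟨?_, ?_⟩⟩
          · rw [e1]; exact (hf0.trans hw2).ne
          · rw [e1]; exact hf0.le
          · unfold prev
            rw [if_neg (by omega)]
            have e2 : γ (idx r - 1) = R := e11_gam_even (by omega) (by omega)
            rw [e2]; exact hcolR w hw
      unfold e11_rq
      split_ifs with hpr
      · obtain ⟨q3, q4⟩ := hp1 hpr
        refine ⟨?_, k4, k3, h34.symm, ?_, ?_, ?_, ?_, ?_, ?_⟩
        · show ts.getD r y ∈ A'.K
          rw [hget]; exact htK
        · show c4 ≠ ts.getD r y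
          rw [hget]; exact q4.symm
        · show c3 ≠ ts.getD r y
          rw [hget]; exact q3.symm
        · show idx r < n
          omega
        · exact Or.inl ⟨(o1.trans o2).trans o3, o4⟩
        · intro h; exact absurd h (by simp)
        · intro _
          have g4 := halt c4 k4 (((o1.trans o2).trans o3).trans o4)
          have g3 := halt c3 k3 ((o1.trans o2).trans o3)
          exact ⟨g4.1, g3.1, (o1.trans o2).trans o3, g4.2⟩
      · have hpr' : pr r = false := by
          cases h : pr r
          · rfl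
          · exact absurd h hpr
        obtain ⟨q1, q2⟩ := hp2 hpr'
        refine ⟨?_, k2, k1, h12.symm, ?_, ?_, ?_, ?_, ?_, ?_⟩
        · show ts.getD r y ∈ A'.K
          rw [hget]; exact htK
        · show c2 ≠ ts.getD r y
          rw [hget]; exact q2.symm
        · show c1 ≠ ts.getD r y
          rw [hget]; exact q1.symm
        · show idx r < n
          omega
        · exact Or.inl ⟨o1, o2⟩
        · intro h; exact absurd h (by simp)
        · intro _
          have g2 := halt c2 k2 (o1.trans o2)
          have g1 := halt c1 k1 o1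
          exact ⟨g2.1, g1.1, o1, g2.2⟩
    · -- compatibility
      intro r hr s hs hrs
      have hne := (hlab r hr).2.2.2 s hs hrs
      intro hj
      unfold e11_rq at hj ⊢
      by_cases p1 : pr r = true
      · by_cases p2 : pr s = true
        · exfalso
          rw [if_pos p1, if_pos p2] at hj
          exact hne (p1.trans p2.symm) hj
        · rw [if_pos p1, if_neg p2]
          exact ⟨rfl, fun _ => Or.inr o3⟩
      · by_cases p2 : pr s = true
        · rw [if_neg p1, if_pos p2]
          exact ⟨rfl, fun _ => Or.inl o3⟩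
        · exfalso
          rw [if_neg p1, if_neg p2] at hj
          have e1 : pr r = pr s := by
            cases h : pr r
            · cases h' : pr s
              · rfl
              · exact absurd h' p2
            · exact absurd h p1
          exact hne e1 hj
    · -- adjacency
      intro v hv
      rw [hadj v hv, hSe]
      constructor
      · intro hvN
        refine Or.inr ⟨by rw [hK]; exact hN hvN, ?_⟩
        obtain ⟨i, hi, hiv⟩ := List.getElem_of_mem (Finset.mem_toList.2 hvN)
        rw [Finset.length_toList] at hi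
        refine ⟨m + i, by omega, ?_⟩
        have hjl : m + i - m < (N.toList.map A'.col).length := by rw [hlN]; omega
        rw [hγ, e11_gam_ge (by omega) hjl, List.getElem_map]
        congr 1
        rw [← hiv]
        congr 1
        omega
      · rintro (h | ⟨hvK, j, hj, hjv⟩)
        · exact absurd h (Finset.notMem_empty _)
        · by_cases hjm : j < m
          · exfalso
            rcases e11_gam_lt (R := R) (f0 := c.f 0) (l := N.toList.map A'.col) hjm with h | h
            · rw [hγ, h] at hjv
              exact (hcolR v hvK).ne' hjv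
            · rw [hγ, h] at hjv
              rcases geo_col hG' hmem hmem hvK with h' | h'
              · rw [← hjv] at h'; exact lt_irrefl _ (h'.trans hf0')
              · rw [← hjv] at h'; exact lt_irrefl _ (h'.trans hf0)
          · have hjl : j - m < (N.toList.map A'.col).length := by rw [hlN]; omega
            rw [hγ, e11_gam_ge hjm hjl, List.getElem_map] at hjv
            have hmN : N.toList[j - m]'(by rw [List.length_map] at hjl; exact hjl) ∈ N := by
              rw [← Finset.mem_toList]
              exact List.getElem_mem _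
            have := geo_col_inj hG' hmem (by rw [hK]; exact hN hmN) hvK hjv
            rw [← this]
            exact hmN
    · intro _
      rw [hql]
      omega
  have hout := step_of_req hcore hL (fun r hr => by
      rw [hrqt]; exact List.getD_eq_getElem _ _ hr) (fun r hr => by
      have h3 : ({(e11_rq pr idx ts y c1 c2 c3 c4 r).t, (e11_rq pr idx ts y c1 c2 c3 c4 r).F,
          (e11_rq pr idx ts y c1 c2 c3 c4 r).N} : Finset V).card ≤ 3 := Finset.card_le_three
      have h4 := Finset.le_card_sdiff ({(e11_rq pr idx ts y c1 c2 c3 c4 r).t,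
        (e11_rq pr idx ts y c1 c2 c3 c4 r).F,
          (e11_rq pr idx ts y c1 c2 c3 c4 r).N} : Finset V)
        (A'.K.filter (fun w => A'.b2 < A'.row w))
      have h5 : 0 < ((A'.K.filter (fun w => A'.b2 < A'.row w)) \
        ({(e11_rq pr idx ts y c1 c2 c3 c4 r).t, (e11_rq pr idx ts y c1 c2 c3 c4 r).F,
          (e11_rq pr idx ts y c1 c2 c3 c4 r).N} : Finset V)).card := by omega
      obtain ⟨ω, hω⟩ := Finset.card_pos.1 h5
      rw [Finset.mem_sdiff, Finset.mem_filter] at hω
      simp only [Finset.mem_insert, Finset.mem_singleton, not_or] at hω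
      exact ⟨ω, hω.1.1, hω.2.1, hω.2.2.1, hω.2.2.2, hω.1.2⟩)
  obtain ⟨P', L', g1, g2, g3⟩ := hout
  exact ⟨P', L', g1, g2, by rw [g3, hK]⟩

end Pool.Agent.BN
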