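import Mathlib
import Pool.Agent.Lib_helper30.BN.Defs
import Pool.Agent.Lib_helper30.BN.P.B1
import Pool.Agent.Lib_helper30.BN.P.E11
import Pool.Agent.Lib_helper30.BN.P.F3
import Pool.Agent.Lib_helper30.BN.P.F4
import Pool.Agent.Lib_helper30.BN.P.F5
import Pool.Agent.Lib_helper30.BN.P.F7
set_option autoImplicit false

/-! Block G4 -/

namespace Pool.Agent.BN
open Act

variable {V : Type}

theorem g4_nonempty_eight {k a b : ℕ} (hk : 8 ≤ k) (h : k ≤ a + b) : 4 ≤ a ∨ 4 ≤ b := by omega

/-- a set is the union of the part below and the part above -/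
theorem g4_split [DecidableEq V] {K : Finset V} {k : ℕ} (hk : 8 ≤ k) (hc : K.card = k)
    (p q : V → Prop) [DecidablePred p] [DecidablePred q] (h : ∀ w ∈ K, p w ∨ q w) :
    4 ≤ (K.filter p).card ∨ 4 ≤ (K.filter q).card := by
  apply g4_nonempty_eight hk
  have h1 : K ⊆ K.filter p ∪ K.filter q := by
    intro w hw
    rw [Finset.mem_union, Finset.mem_filter, Finset.mem_filter]
    exact (h w hw).imp (fun h => ⟨hw, h⟩) (fun h => ⟨hw, h⟩)
  have h2 := Finset.card_le_card h1
  have h3 := Finset.card_union_le (K.filter p) (K.filter q)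
  omega

/-- the case of four rows above the window -/
theorem g4_top [DecidableEq V] {G : SimpleGraph V} {ph : V → Prop} {k : ℕ} (hk : 8 ≤ k)
    {D : Finset V} {P : V → List Pt} {A : Act V} {L : List (Act V)}
    (hG : Geo G ph k D P (A :: L)) (hL : ∀ B ∈ L, B.Full) {y : V} (hy : y ∉ D)
    {N : Finset V} (hN : N ⊆ A.K) (hc : N.card ≤ 2)
    (hadj : ∀ v ∈ D, (G.Adj y v ↔ v ∈ N)) (ts : List V) (hts : ∀ t ∈ ts, t ∈ A.K)
    (hlen : ts.length ≤ k) (hcnt : ∀ t, ts.count t ≤ 2)
    (htop : 4 ≤ (A.K.filter (fun w => A.b2 < A.row w)).card) :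
    StepOut G ph k D A L y ts := by
  have hA : A ∈ A :: L := List.mem_cons_self
  have hK : A.K.card = k := (hG.win A hA).2.2.2.1
  rcases g4_split hk hK (fun w => A.col w < A.a1) (fun w => A.a2 < A.col w)
    (fun w hw => geo_col hG hA hA hw) with h | h
  · -- reflect
    apply stepout_nx
    have hG' := geo_nx hG
    rw [List.map_cons] at hG'
    refine light_std hk hG' ?_ hy hN hc hadj ts hts hlen hcnt htop ?_
    · intro B hB
      obtain ⟨B', hB', rfl⟩ := List.mem_map.1 hB
      exact (full_nx B').2 (hL B' hB')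
    · refine le_trans h (Finset.card_le_card ?_)
      intro w hw
      rw [Finset.mem_filter] at hw ⊢
      exact ⟨hw.1, neg_lt_neg hw.2⟩
  · exact light_std hk hG hL hy hN hc hadj ts hts hlen hcnt htop h

-- block G4
theorem light_gen [DecidableEq V] {G : SimpleGraph V} {ph : V → Prop} {k : ℕ} (hk : 8 ≤ k)
    {D : Finset V} {P : V → List Pt} {A : Act V} {L : List (Act V)}
    (hG : Geo G ph k D P (A :: L)) (hL : ∀ B ∈ L, B.Full) {y : V} (hy : y ∉ D)
    {N : Finset V} (hN : N ⊆ A.K) (hc : N.card ≤ 2)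
    (hadj : ∀ v ∈ D, (G.Adj y v ↔ v ∈ N)) (ts : List V) (hts : ∀ t ∈ ts, t ∈ A.K)
    (hlen : ts.length ≤ k) (hcnt : ∀ t, ts.count t ≤ 2) :
    StepOut G ph k D A L y ts := by
  have hA : A ∈ A :: L := List.mem_cons_self
  have hK : A.K.card = k := (hG.win A hA).2.2.2.1
  rcases g4_split hk hK (fun w => A.row w < A.b1) (fun w => A.b2 < A.row w)
    (fun w hw => geo_row hG hA hA hw) with h | h
  · apply stepout_ny
    have hG' := geo_ny hG
    rw [List.map_cons] at hG'
    refine g4_top hk hG' ?_ hy hN hc hadj ts hts hlen hcnt ?_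
    · intro B hB
      obtain ⟨B', hB', rfl⟩ := List.mem_map.1 hB
      exact (full_ny B').2 (hL B' hB')
    · refine le_trans h (Finset.card_le_card ?_)
      intro w hw
      rw [Finset.mem_filter] at hw ⊢
      exact ⟨hw.1, neg_lt_neg hw.2⟩
  · exact g4_top hk hG hL hy hN hc hadj ts hts hlen hcnt h

end Pool.Agent.BN
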