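import Mathlib
import Pool.Agent.Lib_helper30.BN.Defs
set_option autoImplicit false

namespace Pool.Agent.BN

open Act

theorem g5_touch_symm {p q : List Pt} (h : Touch p q) : Touch q p := by
  obtain ⟨x, y, h⟩ := h
  exact ⟨x, y, h.imp And.symm And.symm⟩

variable {V : Type}

theorem geo_perm {G : SimpleGraph V} {ph : V → Prop} {k : ℕ} {D : Finset V}
    {P : V → List Pt} {L L' : List (Act V)} (h : L.Perm L') (hG : Geo G ph k D P L) :
    Geo G ph k D P L' := by
  have hm : ∀ {A : Act V}, A ∈ L' → A ∈ L := fun hA => h.mem_iff.2 hA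
  refine
    { touch_iff := hG.touch_iff
      path_ok := hG.path_ok
      win := fun A hA => hG.win A (hm hA)
      clearP := fun A hA => hG.clearP A (hm hA)
      clearG := fun A hA B hB => hG.clearG A (hm hA) B (hm hB)
      own := fun A hA => hG.own A (hm hA)
      exclP := fun A hA => hG.exclP A (hm hA)
      exclG := fun A hA w hw B hB => hG.exclG A (hm hA) w hw B (hm hB)
      sep := (h.pairwise_iff ?_).1 hG.sep
      ghost_touch := fun A hA => hG.ghost_touch A (hm hA)
      ghost_free := fun A hA => hG.ghost_free A (hm hA)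
      ghost_sep := (h.pairwise_iff ?_).1 hG.ghost_sep }
  · intro A B hAB
    exact ⟨hAB.1.symm, hAB.2.symm⟩
  · intro A B hAB hBA
    exact hAB (g5_touch_symm hBA)

end Pool.Agent.BN
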