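import Mathlib
import Pool.Agent.Lib_helper30.BN.Defs
import Pool.Agent.Lib_helper30.BN.P.G1
import Pool.Agent.Lib_helper30.BN.P.G2
import Pool.Agent.Lib_helper30.BN.P.G3
import Pool.Agent.Lib_helper30.BN.P.G4
import Pool.Agent.Lib_helper30.BN.P.G5
set_option autoImplicit false

namespace Pool.Agent.BN
open Act

variable {V : Type}

/-- the step in the window in front -/
theorem g6_front [DecidableEq V] {G : SimpleGraph V} {ph : V → Prop} {k : ℕ} (hk : 8 ≤ k)
    {D : Finset V} {P : V → List Pt} {A : Act V} {L : List (Act V)}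
    (hG : Geo G ph k D P (A :: L)) (hA : A.Full) (hL : ∀ B ∈ L, B.Full) {y : V} (hy : y ∉ D)
    (hN : ∀ v ∈ D, G.Adj y v → v ∈ A.K) (ts : List V) (hts : ∀ t ∈ ts, t ∈ A.K)
    (hlen : ts.length ≤ k) (hcnt : ∀ t, ts.count t ≤ 2) :
    StepOut G ph k D A L y ts := by
  classical
  have hw := hG.win A (by simp)
  have hKD : A.K ⊆ D := hw.2.2.1
  have hKc : A.K.card = k := hw.2.2.2.1
  set N : Finset V := A.K.filter (fun v => G.Adj y v) with hNdef
  have hNK : N ⊆ A.K := Finset.filter_subset _ _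
  have hcle : N.card ≤ k := hKc ▸ Finset.card_le_card hNK
  have hadj : ∀ v ∈ D, (G.Adj y v ↔ v ∈ N) := by
    intro v hv
    constructor
    · intro h
      exact Finset.mem_filter.2 ⟨hN v hv h, h⟩
    · intro h
      exact (Finset.mem_filter.1 h).2
  by_cases h1 : N.card = k
  · have hNeq : N = A.K := Finset.eq_of_subset_of_card_le hNK (by rw [h1, hKc])
    rw [hNeq] at hadj
    exact crit_gen hk hG hL hA hy hadj ts hts
  by_cases h2 : N.card = k - 1
  · exact km1_gen hk hG hL hy hNK h2 hadj ts hts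
  by_cases h3 : 3 ≤ N.card
  · exact med_gen hk hG hL hy hNK h3 (by omega) hadj ts hts
  · exact light_gen hk hG hL hy hNK (by omega) hadj ts hts hlen hcnt

-- block G6
theorem step_gen [DecidableEq V] {G : SimpleGraph V} {ph : V → Prop} {k : ℕ} (hk : 8 ≤ k)
    {D : Finset V} {P : V → List Pt} {L : List (Act V)} (hG : Geo G ph k D P L)
    (hL : ∀ B ∈ L, B.Full) {K : Finset V} (hK : K ∈ L.map Act.K) {y : V} (hy : y ∉ D)
    (hN : ∀ v ∈ D, G.Adj y v → v ∈ K) (ts : List V) (hts : ∀ t ∈ ts, t ∈ K)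
    (hlen : ts.length ≤ k) (hcnt : ∀ t, ts.count t ≤ 2) :
    ∃ (P' : V → List Pt) (L' : List (Act V)), Geo G ph k (insert y D) P' L' ∧
      (∀ B ∈ L', B.Full) ∧
      (L'.map Act.K).Perm (ts.map (fun t => insert y (K.erase t)) ++ (L.map Act.K).erase K) := by
  obtain ⟨A, hAL, rfl⟩ := List.mem_map.1 hK
  obtain ⟨l1, l2, rfl⟩ := List.append_of_mem hAL
  have hp : (l1 ++ A :: l2).Perm (A :: (l1 ++ l2)) := List.perm_middle
  have hG' := geo_perm hp hG
  have hL' : ∀ B ∈ l1 ++ l2, B.Full := fun B hB => hL B (by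
    rw [hp.mem_iff]; exact List.mem_cons_of_mem _ hB)
  have hA : A.Full := hL A hAL
  obtain ⟨P', L', h1, h2, h3⟩ := g6_front hk hG' hA hL' hy hN ts hts hlen hcnt
  refine ⟨P', L', h1, h2, ?_⟩
  rw [h3]
  refine List.Perm.append_left _ ?_
  have hp2 : ((l1 ++ A :: l2).map Act.K).Perm (A.K :: (l1 ++ l2).map Act.K) := hp.map Act.K
  have hp3 := hp2.erase A.K
  rw [List.erase_cons_head] at hp3
  exact hp3.symm

end Pool.Agent.BN
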