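import Mathlib
import Pool.Agent.Lib_helper30.BN.Defs
import Pool.Agent.Lib_helper30.BN.TreeDefs
set_option autoImplicit false

namespace Pool.Agent.BN
open Act

/-- the auxiliary paths -/
def h1_p (j : ℕ) : List Pt :=
  if j = 2 then [(-3, 10), (-3, 12), (12, 12), (12, -5)]
  else [(-5, 10 + (j : ℚ)), (10 + (j : ℚ), 10 + (j : ℚ)), (10 + (j : ℚ), -5)]

theorem h1_hon (j : ℕ) (x y : ℚ) (h : HOn (h1_p j) x y) :
    y = 10 + (j : ℚ) ∧ -5 < x ∧ x < 10 + (j : ℚ) ∧ (j = 2 → -3 < x) := by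
  have hj : (0 : ℚ) ≤ j := Nat.cast_nonneg j
  unfold h1_p at h
  split_ifs at h with h2
  · subst h2
    simp only [HOn, or_false] at h
    rcases h with ⟨a1, a2, _⟩ | ⟨a1, a2, a3, a4⟩ | ⟨a1, a2, _⟩
    · exfalso; linarith
    · rw [min_eq_left (by norm_num)] at a3
      rw [max_eq_right (by norm_num)] at a4
      refine ⟨?_, ?_, ?_, ?_⟩ <;> norm_num <;> linarith
    · exfalso; linarith
  · simp only [HOn, or_false] at h
    rcases h with ⟨a1, a2, a3, a4⟩ | ⟨a1, a2, _⟩
    · rw [min_eq_left (by linarith)] at a3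
      rw [max_eq_right (by linarith)] at a4
      exact ⟨a1.symm, a3, a4, fun h => absurd h h2⟩
    · exfalso; linarith

theorem h1_hon' (j : ℕ) (x : ℚ) (h1 : -3 < x) (h2 : x < 10 + (j : ℚ)) :
    HOn (h1_p j) x (10 + (j : ℚ)) := by
  have hj : (0 : ℚ) ≤ j := Nat.cast_nonneg j
  unfold h1_p
  split_ifs with h3
  · subst h3
    simp only [HOn, or_false]
    refine Or.inr (Or.inl ⟨by norm_num, by norm_num, ?_, ?_⟩)
    · rw [min_eq_left (by norm_num)]; exact h1
    · rw [max_eq_right (by norm_num)]; push_cast at h2; linarith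
  · simp only [HOn, or_false]
    refine Or.inl ⟨trivial, trivial, ?_, ?_⟩
    · rw [min_eq_left (by linarith)]; linarith
    · rw [max_eq_right (by linarith)]; exact h2

theorem h1_hon'' (j : ℕ) (hj2 : j ≠ 2) (x : ℚ) (h1 : -5 < x) (h2 : x < 10 + (j : ℚ)) :
    HOn (h1_p j) x (10 + (j : ℚ)) := by
  have hj : (0 : ℚ) ≤ j := Nat.cast_nonneg j
  unfold h1_p
  rw [if_neg hj2]
  simp only [HOn, or_false]
  refine Or.inl ⟨trivial, trivial, ?_, ?_⟩
  · rw [min_eq_left (by linarith)]; exact h1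
  · rw [max_eq_right (by linarith)]; exact h2

theorem h1_von (j : ℕ) (x y : ℚ) (h : VOn (h1_p j) x y) :
    (x = 10 + (j : ℚ) ∧ -5 < y ∧ y < 10 + (j : ℚ)) ∨ (j = 2 ∧ x = -3 ∧ 10 < y ∧ y < 12) := by
  have hj : (0 : ℚ) ≤ j := Nat.cast_nonneg j
  unfold h1_p at h
  split_ifs at h with h2
  · subst h2
    simp only [VOn, or_false] at h
    rcases h with ⟨a1, a2, a3, a4⟩ | ⟨a1, a2, _⟩ | ⟨a1, a2, a3, a4⟩
    · rw [min_eq_left (by norm_num)] at a3
      rw [max_eq_right (by norm_num)] at a4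
      exact Or.inr ⟨rfl, a1.symm, a3, a4⟩
    · exfalso; linarith
    · rw [min_eq_right (by norm_num)] at a3
      rw [max_eq_left (by norm_num)] at a4
      left
      refine ⟨?_, a3, ?_⟩ <;> push_cast <;> linarith
  · simp only [VOn, or_false] at h
    rcases h with ⟨a1, a2, _⟩ | ⟨a1, a2, a3, a4⟩
    · exfalso; linarith
    · rw [min_eq_right (by linarith)] at a3
      rw [max_eq_left (by linarith)] at a4
      exact Or.inl ⟨a1.symm, a3, a4⟩

theorem h1_von' (j : ℕ) (y : ℚ) (h1 : -5 < y) (h2 : y < 10) :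
    VOn (h1_p j) (10 + (j : ℚ)) y := by
  have hj : (0 : ℚ) ≤ j := Nat.cast_nonneg j
  unfold h1_p
  split_ifs with h3
  · subst h3
    simp only [VOn, or_false]
    refine Or.inr (Or.inr ⟨by norm_num, by norm_num, ?_, ?_⟩)
    · rw [min_eq_right (by norm_num)]; exact h1
    · rw [max_eq_left (by norm_num)]; linarith
  · simp only [VOn, or_false]
    refine Or.inr ⟨trivial, trivial, ?_, ?_⟩
    · rw [min_eq_right (by linarith)]; exact h1
    · rw [max_eq_left (by linarith)]; linarith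

theorem h1_von2 (y : ℚ) (h1 : 10 < y) (h2 : y < 12) : VOn (h1_p 2) (-3) y := by
  unfold h1_p
  rw [if_pos rfl]
  simp only [VOn, or_false]
  refine Or.inl ⟨trivial, trivial, ?_, ?_⟩
  · rw [min_eq_left (by norm_num)]; exact h1
  · rw [max_eq_right (by norm_num)]; exact h2

theorem h1_ntouch (i j : ℕ) (hij : i ≠ j) : ¬ Touch (h1_p i) (h1_p j) := by
  have hi : (0 : ℚ) ≤ i := Nat.cast_nonneg i
  have hj : (0 : ℚ) ≤ j := Nat.cast_nonneg j
  have hne : (i : ℚ) ≠ j := fun h => hij (Nat.cast_injective h)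
  rintro ⟨x, y, ⟨h1, h2⟩ | ⟨h1, h2⟩⟩
  · have a := (h1_hon i x y h1).1
    have b := (h1_hon j x y h2).1
    apply hne; linarith
  · rcases h1_von i x y h1 with ⟨a, _, _⟩ | ⟨a, a', _, _⟩
    · rcases h1_von j x y h2 with ⟨b, _, _⟩ | ⟨b, b', _, _⟩
      · apply hne; linarith
      · linarith
    · rcases h1_von j x y h2 with ⟨b, _, _⟩ | ⟨b, b', _, _⟩
      · linarith
      · exact hij (a.trans b.symm)

/-- the start of the ghost -/
def h1_q : List Pt := [(-4, 11), (-3, 11), (-3, 10)]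

theorem h1_sh (x y : ℚ) : HOn (h1_q ++ [(-2, 10)]) x y ↔
    (y = 11 ∧ -4 < x ∧ x < -3) ∨ (y = 10 ∧ -3 < x ∧ x < -2) := by
  simp only [h1_q, List.cons_append, List.nil_append, HOn, or_false]
  constructor
  · rintro (⟨a1, a2, a3, a4⟩ | ⟨a1, a2, _⟩ | ⟨a1, a2, a3, a4⟩)
    · rw [min_eq_left (by norm_num)] at a3
      rw [max_eq_right (by norm_num)] at a4
      exact Or.inl ⟨a1.symm, a3, a4⟩
    · exfalso; linarith
    · rw [min_eq_left (by norm_num)] at a3
      rw [max_eq_right (by norm_num)] at a4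
      exact Or.inr ⟨a1.symm, a3, a4⟩
  · rintro (⟨a1, a2, a3⟩ | ⟨a1, a2, a3⟩)
    · refine Or.inl ⟨a1.symm, a1.symm, ?_, ?_⟩
      · rw [min_eq_left (by norm_num)]; exact a2
      · rw [max_eq_right (by norm_num)]; exact a3
    · refine Or.inr (Or.inr ⟨a1.symm, a1.symm, ?_, ?_⟩)
      · rw [min_eq_left (by norm_num)]; exact a2
      · rw [max_eq_right (by norm_num)]; exact a3

theorem h1_sv (x y : ℚ) : VOn (h1_q ++ [(-2, 10)]) x y ↔ (x = -3 ∧ 10 < y ∧ y < 11) := by
  simp only [h1_q, List.cons_append, List.nil_append, VOn, or_false]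
  constructor
  · rintro (⟨a1, a2, _⟩ | ⟨a1, a2, a3, a4⟩ | ⟨a1, a2, _⟩)
    · exfalso; linarith
    · rw [min_eq_right (by norm_num)] at a3
      rw [max_eq_left (by norm_num)] at a4
      exact ⟨a1.symm, a3, a4⟩
    · exfalso; linarith
  · rintro ⟨a1, a2, a3⟩
    refine Or.inr (Or.inl ⟨a1.symm, a1.symm, ?_, ?_⟩)
    · rw [min_eq_right (by norm_num)]; exact a2
    · rw [max_eq_left (by norm_num)]; exact a3

theorem h1_th (x y : ℚ) : ¬ HOn [((-2 : ℚ), (10 : ℚ)), (-2, -1)] x y := by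
  simp only [HOn, or_false]
  rintro ⟨a1, a2, _⟩
  linarith

theorem h1_tv (x y : ℚ) : VOn [((-2 : ℚ), (10 : ℚ)), (-2, -1)] x y → x = -2 := by
  simp only [VOn, or_false]
  rintro ⟨a1, a2, _⟩
  exact a1.symm

theorem h1_gh (x y : ℚ) : HOn (h1_q ++ [(-2, 10), (-2, -1)]) x y → x < 0 ∧ 2 < y := by
  simp only [h1_q, List.cons_append, List.nil_append, HOn, or_false]
  rintro (⟨a1, a2, a3, a4⟩ | ⟨a1, a2, _⟩ | ⟨a1, a2, a3, a4⟩ | ⟨a1, a2, _⟩)
  · rw [max_eq_right (by norm_num)] at a4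
    constructor <;> linarith
  · exfalso; linarith
  · rw [max_eq_right (by norm_num)] at a4
    constructor <;> linarith
  · exfalso; linarith

theorem h1_gv (x y : ℚ) : VOn (h1_q ++ [(-2, 10), (-2, -1)]) x y → x < 0 := by
  simp only [h1_q, List.cons_append, List.nil_append, VOn, or_false]
  rintro (⟨a1, a2, a3, a4⟩ | ⟨a1, a2, _⟩ | ⟨a1, a2, a3, a4⟩ | ⟨a1, a2, _⟩)
  all_goals linarith

theorem init_geo {n : ℕ} (G : SimpleGraph (Fin n)) (k : ℕ) (hk : 8 ≤ k) :
    ∃ (P : Fin n ⊕ Fin k → List Pt) (A : Act (Fin n ⊕ Fin k)),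
      Geo (extG G k) aux k (Finset.univ.image Sum.inr) P [A] ∧ A.Full ∧
      A.K = Finset.univ.image Sum.inr := by
  classical
  let i0 : Fin k := ⟨0, by omega⟩
  let i1 : Fin k := ⟨1, by omega⟩
  let i2 : Fin k := ⟨2, by omega⟩
  let i3 : Fin k := ⟨3, by omega⟩
  let P : Fin n ⊕ Fin k → List Pt := Sum.elim (fun _ => []) (fun j => h1_p j.val)
  let rc : Fin n ⊕ Fin k → ℚ := Sum.elim (fun _ => 0) (fun j => 10 + (j.val : ℚ))
  let A : Act (Fin n ⊕ Fin k) :=
    { K := Finset.univ.image Sum.inr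
      a1 := 0
      a2 := 1
      b1 := 0
      b2 := 1
      row := rc
      col := rc
      q := h1_q
      c := (-2, 10)
      tl := (-2, -1)
      S := {Sum.inr i0, Sum.inr i1, Sum.inr i2} }
  have hD : ∀ v : Fin n ⊕ Fin k, v ∈ (Finset.univ.image Sum.inr : Finset (Fin n ⊕ Fin k)) →
      ∃ j : Fin k, v = Sum.inr j := by
    intro v hv
    rw [Finset.mem_image] at hv
    obtain ⟨j, _, rfl⟩ := hv
    exact ⟨j, rfl⟩
  have hin : ∀ j : Fin k, (Sum.inr j : Fin n ⊕ Fin k) ∈
      (Finset.univ.image Sum.inr : Finset (Fin n ⊕ Fin k)) := fun j =>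
    Finset.mem_image_of_mem _ (Finset.mem_univ j)
  refine ⟨P, A, ?_, ?_, rfl⟩
  · refine ⟨?_, ?_, ?_, ?_, ?_, ?_, ?_, ?_, ?_, ?_, ?_, ?_⟩
    · -- touch_iff
      intro u hu v hv huv
      obtain ⟨i, rfl⟩ := hD u hu
      obtain ⟨j, rfl⟩ := hD v hv
      have hij : i.val ≠ j.val := fun h => huv (by rw [Fin.ext h])
      constructor
      · intro h
        exact absurd h (h1_ntouch i.val j.val hij)
      · rintro ⟨a, b, ha, _⟩
        cases ha
    · -- path_ok
      intro v hv hna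
      obtain ⟨j, rfl⟩ := hD v hv
      exact absurd ⟨j, rfl⟩ hna
    · -- win
      intro B hB
      rw [List.mem_singleton] at hB
      subst hB
      refine ⟨by norm_num [A], by norm_num [A], subset_rfl, ?_, ?_⟩
      · show (Finset.univ.image Sum.inr : Finset (Fin n ⊕ Fin k)).card = k
        rw [Finset.card_image_of_injective _ Sum.inr_injective, Finset.card_univ, Fintype.card_fin]
      · intro v hv
        simp only [A, Finset.mem_insert, Finset.mem_singleton] at hv
        rcases hv with rfl | rfl | rfl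
        · exact hin _
        · exact hin _
        · exact hin _
    · -- clearP
      intro B hB v hv
      rw [List.mem_singleton] at hB
      subst hB
      obtain ⟨j, rfl⟩ := hD v hv
      have hj : (0 : ℚ) ≤ (j.val : ℚ) := Nat.cast_nonneg _
      constructor
      · intro x y (h1 : 0 ≤ x) (h2 : x ≤ 1) h
        rcases h1_von j.val x y h with ⟨a, _, _⟩ | ⟨_, a, _, _⟩ <;> linarith
      · intro x y (h1 : 0 ≤ y) (h2 : y ≤ 1) h
        have := (h1_hon j.val x y h).1
        linarith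
    · -- clearG
      intro B hB C hC
      rw [List.mem_singleton] at hB hC
      subst hB; subst hC
      constructor
      · intro x y (h1 : 0 ≤ x) (h2 : x ≤ 1) h
        have := h1_gv x y h
        linarith
      · intro x y (h1 : 0 ≤ y) (h2 : y ≤ 1) h
        have := (h1_gh x y h).2
        linarith
    · -- own
      intro B hB w hw
      rw [List.mem_singleton] at hB
      subst hB
      obtain ⟨j, rfl⟩ := hD w hw
      have hj : (0 : ℚ) ≤ (j.val : ℚ) := Nat.cast_nonneg _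
      constructor
      · intro x (h1 : 0 ≤ x) (h2 : x ≤ 1)
        exact h1_hon' j.val x (by linarith) (by linarith)
      · intro y (h1 : 0 ≤ y) (h2 : y ≤ 1)
        exact h1_von' j.val y (by linarith) (by linarith)
    · -- exclP
      intro B hB w hw v hv hvw
      rw [List.mem_singleton] at hB
      subst hB
      obtain ⟨j, rfl⟩ := hD w hw
      obtain ⟨i, rfl⟩ := hD v hv
      have hj : (0 : ℚ) ≤ (j.val : ℚ) := Nat.cast_nonneg _
      have hij : (i.val : ℚ) ≠ (j.val : ℚ) := fun h => hvw (by rw [Fin.ext (Nat.cast_injective h)])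
      constructor
      · intro x _ _ h
        have h' : HOn (h1_p i.val) x (10 + (j.val : ℚ)) := h
        have := (h1_hon i.val x _ h').1
        apply hij; linarith
      · intro y (h1 : 0 ≤ y) (h2 : y ≤ 1) h
        have h' : VOn (h1_p i.val) (10 + (j.val : ℚ)) y := h
        rcases h1_von i.val _ y h' with ⟨a, _, _⟩ | ⟨_, a, _, _⟩
        · apply hij; linarith
        · linarith
    · -- exclG
      intro B hB w hw C hC
      rw [List.mem_singleton] at hB hC
      subst hB; subst hC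
      obtain ⟨j, rfl⟩ := hD w hw
      have hj : (0 : ℚ) ≤ (j.val : ℚ) := Nat.cast_nonneg _
      constructor
      · intro x (h1 : 0 ≤ x) (h2 : x ≤ 1) h
        have := (h1_gh x _ h).1
        linarith
      · intro y _ _ h
        have h' := h1_gv _ y h
        have h'' : (10 + (j.val : ℚ)) < 0 := h'
        linarith
    · exact List.pairwise_singleton _ _
    · -- ghost_touch
      intro B hB v hv
      rw [List.mem_singleton] at hB
      subst hB
      obtain ⟨j, rfl⟩ := hD v hv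
      have hj : (0 : ℚ) ≤ (j.val : ℚ) := Nat.cast_nonneg _
      have hS : (Sum.inr j : Fin n ⊕ Fin k) ∈ A.S ↔ j.val = 0 ∨ j.val = 1 ∨ j.val = 2 := by
        simp only [A, Finset.mem_insert, Finset.mem_singleton, Sum.inr.injEq, i0, i1, i2, Fin.ext_iff]
      rw [hS]
      show Touch (h1_q ++ [(-2, 10)]) (h1_p j.val) ↔ _
      constructor
      · rintro ⟨x, y, ⟨h1, h2⟩ | ⟨h1, h2⟩⟩
        · have h3 := (h1_hon j.val x y h2).1
          rcases (h1_sh x y).1 h1 with ⟨a, _, _⟩ | ⟨a, _, _⟩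
          · right; left
            have : (j.val : ℚ) = ((1 : ℕ) : ℚ) := by push_cast; linarith
            exact Nat.cast_injective this
          · left
            have : (j.val : ℚ) = ((0 : ℕ) : ℚ) := by push_cast; linarith
            exact Nat.cast_injective this
        · have h3 := ((h1_sv x y).1 h1).1
          rcases h1_von j.val x y h2 with ⟨a, _, _⟩ | ⟨a, _, _, _⟩
          · exfalso; linarith
          · right; right; exact a
      · rintro (h | h | h)
        · rw [h]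
          refine ⟨-5/2, 10, Or.inl ⟨(h1_sh _ _).2 (Or.inr ⟨rfl, by norm_num, by norm_num⟩), ?_⟩⟩
          have := h1_hon' 0 (-5/2) (by norm_num) (by norm_num)
          simpa using this
        · rw [h]
          refine ⟨-7/2, 11, Or.inl ⟨(h1_sh _ _).2 (Or.inl ⟨rfl, by norm_num, by norm_num⟩), ?_⟩⟩
          have := h1_hon'' 1 (by norm_num) (-7/2) (by norm_num) (by norm_num)
          have e : (10 : ℚ) + ((1 : ℕ) : ℚ) = 11 := by norm_num
          rwa [e] at this
        · rw [h]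
          exact ⟨-3, 21/2, Or.inr ⟨(h1_sv _ _).2 ⟨rfl, by norm_num, by norm_num⟩,
            h1_von2 _ (by norm_num) (by norm_num)⟩⟩
    · -- ghost_free
      intro B hB v hv
      rw [List.mem_singleton] at hB
      subst hB
      obtain ⟨j, rfl⟩ := hD v hv
      have hj : (0 : ℚ) ≤ (j.val : ℚ) := Nat.cast_nonneg _
      rintro ⟨x, y, ⟨h1, h2⟩ | ⟨h1, h2⟩⟩
      · exact h1_th x y h1
      · have h3 := h1_tv x y h1
        rcases h1_von j.val x y h2 with ⟨a, _, _⟩ | ⟨_, a, _, _⟩ <;> linarith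
    · exact List.pairwise_singleton _ _
  · -- Full
    refine ⟨(false, false, false), -4, -3, -2, -1, Sum.inr i1, Sum.inr i0, Sum.inr i3, ?_, ?_, ?_,
      ?_, ?_, ?_, ?_, ?_, ?_, ?_, ?_, ?_, ?_, ?_⟩
    · show h1_q = [(-4, 10 + ((1 : ℕ) : ℚ)), (-3, 10 + ((1 : ℕ) : ℚ)), (-3, 10 + ((0 : ℕ) : ℚ))]
      unfold h1_q
      norm_num
    · show ((-2 : ℚ), (10 : ℚ)) = (-2, 10 + ((0 : ℕ) : ℚ))
      norm_num
    · rfl
    · show (-2 : ℚ) < 0
      norm_num
    · show (-1 : ℚ) < 0
      norm_num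
    · show (1 : ℚ) < 10 + ((0 : ℕ) : ℚ)
      norm_num
    · show (10 : ℚ) + ((0 : ℕ) : ℚ) < 10 + ((1 : ℕ) : ℚ)
      norm_num
    · show Sum.inr i1 ∈ ({Sum.inr i0, Sum.inr i1, Sum.inr i2} : Finset (Fin n ⊕ Fin k))
      simp
    · show Sum.inr i0 ∈ ({Sum.inr i0, Sum.inr i1, Sum.inr i2} : Finset (Fin n ⊕ Fin k))
      simp
    · intro v hv
      have hv' : v ∈ ({Sum.inr i0, Sum.inr i1, Sum.inr i2} : Finset (Fin n ⊕ Fin k)) := hv
      simp only [Finset.mem_insert, Finset.mem_singleton] at hv'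
      rcases hv' with rfl | rfl | rfl
      · exact hin _
      · exact hin _
      · exact hin _
    · show ({Sum.inr i0, Sum.inr i1, Sum.inr i2} : Finset (Fin n ⊕ Fin k)).card = 3
      rw [Finset.card_eq_three]
      refine ⟨_, _, _, ?_, ?_, ?_, rfl⟩ <;>
        simp [i0, i1, i2, Fin.ext_iff]
    · exact hin _
    · show Sum.inr i3 ∉ ({Sum.inr i0, Sum.inr i1, Sum.inr i2} : Finset (Fin n ⊕ Fin k))
      simp [i0, i1, i2, i3, Fin.ext_iff]
    · show (1 : ℚ) < 10 + ((3 : ℕ) : ℚ)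
      norm_num

end Pool.Agent.BN
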