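import Mathlib
import Pool.Agent.Lib_helper30.BN.Defs
import Pool.Agent.Lib_helper30.BN.TreeDefs
import Pool.Agent.Lib_helper32.BN.HC
import Pool.Agent.Lib_helper30.BN.P.G6
import Pool.Agent.Lib_helper30.BN.P.H1
set_option autoImplicit false

/-! Block H2 -/

namespace Pool.Agent.BN
open Act

/-- block H2: the first `k-1` vertices -/
theorem stage_chain {n : ℕ} (G : SimpleGraph (Fin n)) (k : ℕ) (hk : 8 ≤ k) (hn : k + 1 ≤ n) :
    ∀ j, j ≤ k - 1 → ∃ (P : Fin n ⊕ Fin k → List Pt) (L : List (Act (Fin n ⊕ Fin k))),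
      Geo (extG G k) aux k (Dset k n j) P L ∧ (∀ B ∈ L, B.Full) ∧ Kset k n j ∈ L.map Act.K := by
  intro j
  induction j with
  | zero =>
    intro _
    obtain ⟨P, A, hGeo, hA, hAK⟩ := init_geo G k hk
    refine ⟨P, [A], ?_, ?_, ?_⟩
    · have : Dset k n 0 = Finset.univ.image Sum.inr := by
        ext v
        rcases v with a | a
        · rw [hc_D_inl]; simp
        · simp [hc_D_inr]
      rw [this]; exact hGeo
    · intro B hB
      rw [List.mem_singleton] at hB
      rw [hB]; exact hA
    · have : Kset k n 0 = Finset.univ.image Sum.inr := by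
        ext v
        rcases v with a | a
        · rw [hc_K_inl]; simp
        · simp [hc_K_inr]
      rw [this, ← hAK]
      simp
  | succ j ih =>
    intro hj
    obtain ⟨P, L, hGeo, hL, hKL⟩ := ih (by omega)
    have hjn : j < n := by omega
    have hjk : j < k := by omega
    have hN : ∀ v ∈ Dset k n j, (extG G k).Adj (Sum.inl (⟨j, hjn⟩ : Fin n)) v →
        v ∈ Kset k n j := by
      intro v hv hadj
      obtain ⟨b, rfl, hb⟩ := hc_ext_nb _ v hadj
      rw [hc_D_inl] at hv
      exact (hc_K_inl j b).2 hv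
    set a : Fin n ⊕ Fin k := Sum.inr ⟨j, hjk⟩ with ha
    have haK : a ∈ Kset k n j := (hc_K_inr j _).2 le_rfl
    obtain ⟨P', L', hGeo', hL', hperm⟩ := step_gen hk hGeo hL hKL (hc_new j hjn) hN
      [a] (by intro t ht; simp at ht; rw [ht]; exact haK) (by simp; omega)
      (hc_count_len _ (by simp))
    refine ⟨P', L', ?_, hL', ?_⟩
    · rw [hc_D_succ j hjn]
      exact hGeo'
    · rw [hperm.mem_iff, List.mem_append]
      left
      rw [List.mem_map]
      exact ⟨a, by simp, (hc_K_succ j hjn hjk).symm⟩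

end Pool.Agent.BN
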