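import Mathlib
import Pool.Agent.Lib_helper30.BN.Defs
import Pool.Agent.Lib_helper30.BN.TreeDefs
import Pool.Agent.Lib_helper32.BN.HC
import Pool.Agent.Lib_helper30.BN.P.G6
import Pool.Agent.Lib_helper30.BN.P.H2
set_option autoImplicit false

/-! Block H3 -/

namespace Pool.Agent.BN
open Act

/-- block H3: the `k`-th vertex, two windows for the clique of the first `k` vertices -/
theorem stage_two {n : ℕ} (G : SimpleGraph (Fin n)) (k : ℕ) (hk : 8 ≤ k) (hn : k + 1 ≤ n) :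
    ∃ (P : Fin n ⊕ Fin k → List Pt) (L : List (Act (Fin n ⊕ Fin k))),
      Geo (extG G k) aux k (Dset k n k) P L ∧ (∀ B ∈ L, B.Full) ∧
      2 ≤ (L.map Act.K).count (Kset k n k) := by
  obtain ⟨P, L, hGeo, hL, hKL⟩ := stage_chain G k hk hn (k - 1) le_rfl
  obtain ⟨m, rfl⟩ : ∃ m, k = m + 1 := ⟨k - 1, by omega⟩
  simp only [Nat.add_sub_cancel] at hGeo hKL
  have hmn : m < n := by omega
  have hN : ∀ v ∈ Dset (m + 1) n m, (extG G (m + 1)).Adj (Sum.inl (⟨m, hmn⟩ : Fin n)) v →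
      v ∈ Kset (m + 1) n m := by
    intro v hv hadj
    obtain ⟨b, rfl, hb⟩ := hc_ext_nb _ v hadj
    rw [hc_D_inl] at hv
    exact (hc_K_inl m b).2 hv
  set a : Fin n ⊕ Fin (m + 1) := Sum.inr ⟨m, Nat.lt_succ_self m⟩ with ha
  have haK : a ∈ Kset (m + 1) n m := (hc_K_inr m _).2 le_rfl
  obtain ⟨P', L', hGeo', hL', hperm⟩ := step_gen hk hGeo hL hKL (hc_new m hmn) hN
    [a, a] (by intro t ht; simp at ht; rw [ht]; exact haK) (by simp; omega)
    (hc_count_len _ (by simp))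
  refine ⟨P', L', ?_, hL', ?_⟩
  · rw [hc_D_succ m hmn]
    exact hGeo'
  · rw [hperm.count_eq, List.count_append]
    have : (insert (Sum.inl (⟨m, hmn⟩ : Fin n)) ((Kset (m + 1) n m).erase a)) =
        Kset (m + 1) n (m + 1) := (hc_K_succ m hmn (Nat.lt_succ_self m)).symm
    simp only [List.map_cons, List.map_nil, this]
    simp

end Pool.Agent.BN
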