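import Mathlib
import Pool.Agent.Lib_helper30.BN.Defs
import Pool.Agent.Lib_helper30.BN.TreeDefs
import Pool.Agent.Lib_helper32.BN.HC
import Pool.Agent.Lib_helper30.BN.P.G6
import Pool.Agent.Lib_helper30.BN.P.H3
set_option autoImplicit false

/-! Block H4 -/

namespace Pool.Agent.BN
open Act

-- block H4
theorem stage_base {n : ℕ} (G H : SimpleGraph (Fin n)) (k : ℕ) (hk : 8 ≤ k)
    (hH : EPG.IsSimpleKTree k n H) (hGH : G ≤ H) : Stage G H k (k + 1) := by
  have hn := hH.le
  obtain ⟨P, L, hGeo, hL, hcount⟩ := stage_two G k hk hn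
  have hkn : k < n := by omega
  set J : Fin n := ⟨k, hkn⟩ with hJ
  set K0 : Finset (Fin n) := Finset.univ.filter (fun i : Fin n => i.val < k) with hK0
  have hmem : ∀ w, w ∈ K0 ↔ w.val < k := by intro w; simp [hK0]
  have hKe : K0.image Sum.inl = Kset k n k := by
    ext v
    rcases v with a | a
    · rw [hc_K_inl, Finset.mem_image]
      constructor
      · rintro ⟨b, hb, hb'⟩
        rw [Sum.inl.injEq] at hb'
        rw [← hb']; exact (hmem b).1 hb
      · intro ha; exact ⟨a, (hmem a).2 ha, rfl⟩
    · rw [hc_K_inr, Finset.mem_image]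
      constructor
      · rintro ⟨b, _, hb'⟩; simp at hb'
      · intro ha; exact absurd a.2 (not_lt.2 ha)
  have hcard : K0.card = k := by
    have h1 : K0 = (Finset.range k).attachFin (fun i hi => (Finset.mem_range.1 hi).trans hkn) := by
      ext w
      rw [hmem, Finset.mem_attachFin, Finset.mem_range]
    rw [h1, Finset.card_attachFin, Finset.card_range]
  have hJ0 : J ∉ K0 := fun hh => lt_irrefl _ ((hmem J).1 hh)
  have hKL : Kset k n k ∈ L.map Act.K := List.count_pos_iff.1 (by omega)
  have hN : ∀ v ∈ Dset k n k, (extG G k).Adj (Sum.inl J) v → v ∈ Kset k n k := by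
    intro v hv hadj
    obtain ⟨b, rfl, hb⟩ := hc_ext_nb J v hadj
    rw [hc_D_inl] at hv
    exact (hc_K_inl k b).2 hv
  obtain ⟨P', L', hGeo', hL', hperm⟩ := step_gen hk hGeo hL hKL (hc_new k hkn) hN
    (Kset k n k).toList (fun t ht => Finset.mem_toList.1 ht)
    (by rw [Finset.length_toList, ← hKe, Finset.card_image_of_injective _ Sum.inl_injective,
      hcard])
    (hc_count_nodup _ (Finset.nodup_toList _))
  refine ⟨P', L', ?_, hL', ?_⟩
  · rw [hc_D_succ k hkn]
    exact hGeo'
  · intro C hC hCc hCj hCu
    rw [hperm.mem_iff, List.mem_append]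
    by_cases hJC : J ∈ C
    · left
      obtain ⟨t, ht, hCt⟩ := hc_swap (K0 := K0) (by rw [hC, hcard]) hJC (by
        intro w hw
        rw [Finset.mem_erase] at hw
        have h1 := hCj w hw.2
        have h2 : w.val ≠ k := fun h3 => hw.1 (Fin.ext h3)
        exact (hmem w).2 (by omega))
      rw [List.mem_map]
      refine ⟨Sum.inl t, Finset.mem_toList.2 (by rw [← hKe]; exact Finset.mem_image_of_mem _ ht),
        ?_⟩
      rw [hCt, hc_image_erase, hKe]
    · right
      have h1 : C = K0 := by
        apply Finset.eq_of_subset_of_card_le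
        · intro w hw
          have h1 := hCj w hw
          have h2 : w.val ≠ k := fun h3 => hJC (by
            have : w = J := Fin.ext h3
            exact this ▸ hw)
          exact (hmem w).2 (by omega)
        · rw [hC, hcard]
      rw [h1, hKe]
      apply List.count_pos_iff.1
      rw [List.count_erase_self]
      omega

end Pool.Agent.BN
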