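import Mathlib
import Pool.Agent.Lib_helper30.BN.Defs
import Pool.Agent.Lib_helper30.BN.TreeDefs
import Pool.Agent.Lib_helper32.BN.HC
import Pool.Agent.Lib_helper30.BN.P.G6
set_option autoImplicit false

/-! Block H5 -/

namespace Pool.Agent.BN
open Act

-- block H5
theorem stage_step {n : ℕ} (G H : SimpleGraph (Fin n)) (k : ℕ) (hk : 8 ≤ k)
    (hH : EPG.IsSimpleKTree k n H) (hGH : G ≤ H) (j : ℕ) (hj : k + 1 ≤ j) (hjn : j < n)
    (h : Stage G H k j) : Stage G H k (j + 1) := by
  obtain ⟨P, L, hGeo, hL, hall⟩ := h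
  set J : Fin n := ⟨j, hjn⟩ with hJ
  have hJk : k < J.val := by simp only [hJ]; omega
  set K0 := EPG.back H J with hK0
  have hcard : K0.card = k := hH.card J hJk
  have hcl : H.IsClique (K0 : Set (Fin n)) := hH.clique J hJk
  have hmem : ∀ w, w ∈ K0 ↔ w < J ∧ H.Adj w J := fun w => EPG.mem_back
  have hJ0 : J ∉ K0 := fun hh => lt_irrefl _ ((hmem J).1 hh).1
  have hKL : K0.image Sum.inl ∈ L.map Act.K := by
    refine hall K0 hcard hcl (fun w hw => ((hmem w).1 hw).1) ?_
    intro i hi hij heq
    have := hH.simple i J hi hJk heq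
    rw [this] at hij
    exact lt_irrefl _ hij
  have hN : ∀ v ∈ Dset k n j, (extG G k).Adj (Sum.inl J) v → v ∈ K0.image Sum.inl := by
    intro v hv hadj
    obtain ⟨b, rfl, hb⟩ := hc_ext_nb J v hadj
    rw [hc_D_inl] at hv
    refine Finset.mem_image.2 ⟨b, (hmem b).2 ⟨hv, (hGH hb).symm⟩, rfl⟩
  obtain ⟨P', L', hGeo', hL', hperm⟩ := step_gen hk hGeo hL hKL (hc_new j hjn) hN
    (K0.image (Sum.inl : Fin n → Fin n ⊕ Fin k)).toList (fun t ht => Finset.mem_toList.1 ht)
    (by rw [Finset.length_toList, Finset.card_image_of_injective _ Sum.inl_injective, hcard])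
    (hc_count_nodup _ (Finset.nodup_toList _))
  refine ⟨P', L', ?_, hL', ?_⟩
  · rw [hc_D_succ j hjn]
    exact hGeo'
  · intro C hC hCc hCj hCu
    rw [hperm.mem_iff, List.mem_append]
    by_cases hJC : J ∈ C
    · left
      obtain ⟨t, ht, hCt⟩ := hc_swap (K0 := K0) (by rw [hC, hcard]) hJC (by
        intro w hw
        rw [Finset.mem_erase] at hw
        have h1 := hCj w hw.2
        refine (hmem w).2 ⟨?_, hCc hw.2 hJC hw.1⟩
        have h2 : w.val ≠ j := fun h3 => hw.1 (Fin.ext h3)
        exact Fin.lt_def.2 (by simp only [hJ]; omega))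
      rw [List.mem_map]
      refine ⟨Sum.inl t, Finset.mem_toList.2 (Finset.mem_image_of_mem _ ht), ?_⟩
      rw [hCt, hc_image_erase]
    · right
      have h1 : C.image Sum.inl ∈ L.map Act.K := by
        refine hall C hC hCc ?_ ?_
        · intro w hw
          have h1 := hCj w hw
          have h2 : w.val ≠ j := fun h3 => hJC (by
            have : w = J := Fin.ext h3
            exact this ▸ hw)
          omega
        · intro i hi hij
          exact hCu i hi (by omega)
      refine (List.mem_erase_of_ne ?_).2 h1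
      intro heq
      have h2 : C = K0 := Finset.image_injective Sum.inl_injective heq
      exact hCu J hJk (by simp only [hJ]; omega) h2.symm

end Pool.Agent.BN
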