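import Mathlib
import Pool.Agent.Lib_helper30.BN.Defs
import Pool.Agent.Lib_helper30.BN.TreeDefs
import Pool.Agent.Lib_helper32.BN.HC
import Pool.Agent.Lib_helper30.BN.P.H4
import Pool.Agent.Lib_helper30.BN.P.H5
set_option autoImplicit false

/-! Block H6 -/

namespace Pool.Agent.BN
open Act

-- block H6
theorem tree_draw {n : ℕ} (G H : SimpleGraph (Fin n)) (k : ℕ) (hk : 8 ≤ k)
    (hH : EPG.IsSimpleKTree k n H) (hGH : G ≤ H) :
    ∃ P : Fin n → List Pt, (∀ v, Mono (P v) ∧ 3 ≤ (P v).length ∧ (P v).length ≤ 2 * k - 1) ∧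
      ∀ u v, u ≠ v → (Touch (P u) (P v) ↔ G.Adj u v) := by
  have key : ∀ j, k + 1 ≤ j → j ≤ n → Stage G H k j := by
    intro j hj
    induction j, hj using Nat.le_induction with
    | base => intro _; exact stage_base G H k hk hH hGH
    | succ j hj ih => intro hjn; exact stage_step G H k hk hH hGH j hj (by omega) (ih (by omega))
  obtain ⟨P, L, hG, _, _⟩ := key n hH.le le_rfl
  refine ⟨fun i => P (Sum.inl i), ?_, ?_⟩
  · intro v
    exact hG.path_ok (Sum.inl v) ((hc_D_inl n v).2 v.2) (by rintro ⟨a, ha⟩; simp at ha)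
  · intro u v huv
    rw [hG.touch_iff (Sum.inl u) ((hc_D_inl n u).2 u.2) (Sum.inl v) ((hc_D_inl n v).2 v.2)
      (fun h => huv (Sum.inl_injective h))]
    exact hc_ext_adj u v

end Pool.Agent.BN
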