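import Mathlib
import Pool.Agent.Lib_helper30.BN.Defs
import Pool.Agent.Lib_helper32.EPG.Sym
import Pool.Agent.Lib_helper30.BN.TreeDefs
set_option autoImplicit false

/-! Block H7: from strictly monotone lists to simple polylines -/

namespace Pool.Agent.BN
open Act

/-- remove repeated consecutive points -/
def h7_dd : List Pt → List Pt
  | p :: q :: l => if p = q then h7_dd (q :: l) else p :: h7_dd (q :: l)
  | l => l

theorem h7_head : ∀ (q : Pt) (l : List Pt), ∃ t, h7_dd (q :: l) = q :: t
  | q, [] => ⟨[], rfl⟩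
  | q, r :: l => by
    rw [h7_dd]
    split_ifs with h
    · subst h; exact h7_head q l
    · exact ⟨_, rfl⟩

theorem h7_hcov : ∀ (l : List Pt), EPG.hcov l = {r | HOn l r.1 r.2}
  | [] => rfl
  | [_] => rfl
  | p :: q :: l => by
    rw [EPG.hcov, h7_hcov (q :: l)]
    rfl

theorem h7_vcov : ∀ (l : List Pt), EPG.vcov l = {r | VOn l r.1 r.2}
  | [] => rfl
  | [_] => rfl
  | p :: q :: l => by
    rw [EPG.vcov, h7_vcov (q :: l)]
    rfl

theorem h7_hcov_dd : ∀ (l : List Pt), EPG.hcov (h7_dd l) = EPG.hcov l
  | [] => rfl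
  | [_] => rfl
  | p :: q :: l => by
    have ih := h7_hcov_dd (q :: l)
    rw [h7_dd]
    split_ifs with h
    · subst h
      rw [ih]
      ext r
      rw [EPG.hcov]
      constructor
      · exact Or.inr
      · rintro (h | h)
        · have := h.2.2
          rw [min_self, max_self] at this
          exact absurd (lt_trans this.1 this.2) (lt_irrefl _)
        · exact h
    · obtain ⟨t, ht⟩ := h7_head q l
      rw [ht] at ih ⊢
      rw [EPG.hcov, EPG.hcov, ih]

theorem h7_vcov_dd : ∀ (l : List Pt), EPG.vcov (h7_dd l) = EPG.vcov l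
  | [] => rfl
  | [_] => rfl
  | p :: q :: l => by
    have ih := h7_vcov_dd (q :: l)
    rw [h7_dd]
    split_ifs with h
    · subst h
      rw [ih]
      ext r
      rw [EPG.vcov]
      constructor
      · exact Or.inr
      · rintro (h | h)
        · have := h.2.2
          rw [min_self, max_self] at this
          exact absurd (lt_trans this.1 this.2) (lt_irrefl _)
        · exact h
    · obtain ⟨t, ht⟩ := h7_head q l
      rw [ht] at ih ⊢
      rw [EPG.vcov, EPG.vcov, ih]

theorem h7_trace_dd : ∀ (l : List Pt), EPG.trace (h7_dd l) ⊆ EPG.trace l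
  | [] => le_refl _
  | [_] => le_refl _
  | p :: q :: l => by
    have ih := h7_trace_dd (q :: l)
    rw [h7_dd]
    split_ifs with h
    · exact ih.trans (fun r hr => Or.inr hr)
    · obtain ⟨t, ht⟩ := h7_head q l
      rw [ht] at ih ⊢
      rw [EPG.trace_cons2]
      rintro r (hr | hr)
      · exact Or.inl hr
      · exact Or.inr (ih hr)

theorem h7_len : ∀ (l : List Pt), (h7_dd l).length ≤ l.length
  | [] => le_refl _
  | [_] => le_refl _
  | p :: q :: l => by
    have ih := h7_len (q :: l)
    rw [h7_dd]
    split_ifs with h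
    · exact ih.trans (by simp)
    · simpa using ih

theorem h7_pos (q : Pt) (l : List Pt) : 1 ≤ (h7_dd (q :: l)).length := by
  obtain ⟨t, ht⟩ := h7_head q l
  rw [ht]; simp

/-- the tail of a descending list is descending -/
theorem h7_tail : ∀ (p q : Pt) (l : List Pt), YDec (p :: q :: l) → YDec (q :: l)
  | _, _, [], _ => trivial
  | _, _, _ :: _, h => h.2.2.2

theorem h7_first : ∀ (p q : Pt) (l : List Pt), YDec (p :: q :: l) →
    (p.1 = q.1 ∨ p.2 = q.2) ∧ q.2 ≤ p.2
  | _, _, [], h => h
  | _, _, _ :: _, h => ⟨h.1, h.2.1⟩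

theorem h7_trace : ∀ (p q : Pt) (l : List Pt), YDec (p :: q :: l) →
    ∀ r ∈ EPG.trace (p :: q :: l), r.2 ≤ p.2 ∧ (r.2 = p.2 → r ∈ EPG.seg p q)
  | p, q, [], h => by
    intro r hr
    rw [EPG.trace_two] at hr
    exact ⟨(EPG.mem_seg.1 hr).2.2.trans (max_le le_rfl h.2), fun _ => hr⟩
  | p, q, s :: l, h => by
    intro r hr
    have ih := h7_trace q s l h.2.2.2
    rw [EPG.trace_cons2] at hr
    rcases hr with hr | hr
    · exact ⟨(EPG.mem_seg.1 hr).2.2.trans (max_le le_rfl h.2.1), fun _ => hr⟩
    · have h1 := ih r hr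
      refine ⟨h1.1.trans h.2.1, fun h2 => ?_⟩
      have h3 : q.2 = p.2 := le_antisymm h.2.1 (h2 ▸ h1.1)
      have h4 : r.2 = q.2 := h2.trans h3.symm
      have h5 := h1.2 h4
      have h6 := (h7_first q s l h.2.2.2).1
      have h7 : q.1 = s.1 := by
        rcases h6 with h6 | h6
        · exact h6
        · exfalso
          have := h.2.2.1
          rw [← h6, h3] at this
          exact lt_irrefl _ this
      have h8 : r = q := by
        rw [EPG.mem_seg, ← h7, min_self, max_self] at h5
        exact Prod.ext (le_antisymm h5.1.2 h5.1.1) h4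
      rw [h8]
      exact EPG.right_mem_seg p q

theorem h7_meet (p q : Pt) (l : List Pt) (h : YDec (p :: q :: l)) (hpq : p ≠ q) :
    ∀ r ∈ EPG.seg p q, r ∈ EPG.trace (q :: l) → r = q := by
  rcases l with _ | ⟨s, l⟩
  · intro r _ hr
    exact absurd hr (Set.notMem_empty _)
  · intro r hr hr'
    have h1 := h7_trace q s l h.2.2.2 r hr'
    rw [EPG.mem_seg] at hr
    have h2 : r.2 = q.2 := le_antisymm h1.1 (by
      have := hr.2.1
      rwa [min_eq_right h.2.1] at this)
    rcases h.1 with h3 | h3
    · rw [h3, min_self, max_self] at hr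
      exact Prod.ext (le_antisymm hr.1.2 hr.1.1) h2
    · have h5 := h1.2 h2
      have h6 := (h7_first q s l h.2.2.2).1
      have h7 : q.1 = s.1 := by
        rcases h6 with h6 | h6
        · exact h6
        · exfalso
          have := h.2.2.1
          rw [← h6, h3] at this
          exact lt_irrefl _ this
      rw [EPG.mem_seg, ← h7, min_self, max_self] at h5
      exact Prod.ext (le_antisymm h5.1.2 h5.1.1) h2

theorem h7_simple_dec : ∀ (l : List Pt), YDec l → EPG.Simple (h7_dd l)
  | [], _ => trivial
  | [_], _ => trivial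
  | p :: q :: l, h => by
    have ih := h7_simple_dec (q :: l) (h7_tail p q l h)
    rw [h7_dd]
    split_ifs with hpq
    · exact ih
    · obtain ⟨t, ht⟩ := h7_head q l
      have htr := h7_trace_dd (q :: l)
      rw [ht] at ih htr ⊢
      rw [EPG.simple_cons2]
      exact ⟨(h7_first p q l h).1, hpq, fun r hr hr' => h7_meet p q l h hpq r hr (htr hr'), ih⟩

theorem h7_act (s : Bool × Bool × Bool) (p : Pt) : act s p =
    (if s.2.2 then EPG.tr else id) ((if s.2.1 then EPG.ry else id)
      ((if s.1 then EPG.rx else id) p)) := by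
  obtain ⟨s1, s2, s3⟩ := s
  obtain ⟨x, y⟩ := p
  cases s1 <;> cases s2 <;> cases s3 <;> simp [act, EPG.rx, EPG.ry, EPG.tr]

theorem h7_act_inj (s : Bool × Bool × Bool) {p q : Pt} (h : act s p = act s q) : p = q := by
  obtain ⟨s1, s2, s3⟩ := s
  obtain ⟨x, y⟩ := p
  obtain ⟨x', y'⟩ := q
  cases s1 <;> cases s2 <;> cases s3 <;> simp [act] at h ⊢ <;> tauto

theorem h7_dd_map (s : Bool × Bool × Bool) : ∀ (l : List Pt),
    h7_dd (l.map (act s)) = (h7_dd l).map (act s)
  | [] => rfl
  | [_] => rfl
  | p :: q :: l => by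
    have ih := h7_dd_map s (q :: l)
    simp only [List.map_cons] at ih ⊢
    rw [h7_dd, h7_dd]
    by_cases h : p = q
    · rw [if_pos h, if_pos (by rw [h])]; exact ih
    · rw [if_neg h, if_neg (fun h' => h (h7_act_inj s h')), List.map_cons, ih]

theorem h7_simple_act (s : Bool × Bool × Bool) (l : List Pt) (h : EPG.Simple (l.map (act s))) :
    EPG.Simple l := by
  have e : l.map (act s) = ((l.map (if s.1 then EPG.rx else id)).map
      (if s.2.1 then EPG.ry else id)).map (if s.2.2 then EPG.tr else id) := by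
    rw [List.map_map, List.map_map]
    exact List.map_congr_left (fun p _ => h7_act s p)
  rw [e] at h
  have h1 : EPG.Simple ((l.map (if s.1 then EPG.rx else id)).map
      (if s.2.1 then EPG.ry else id)) := by
    by_cases c : s.2.2
    · rw [if_pos c] at h
      have := EPG.simple_tr _ h
      rwa [EPG.map_tr_tr] at this
    · rw [if_neg c, List.map_id] at h
      exact h
  have h2 : EPG.Simple (l.map (if s.1 then EPG.rx else id)) := by
    by_cases c : s.2.1
    · rw [if_pos c] at h1
      have := EPG.simple_ry _ h1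
      rwa [EPG.map_ry_ry] at this
    · rw [if_neg c, List.map_id] at h1
      exact h1
  by_cases c : s.1
  · rw [if_pos c] at h2
    have := EPG.simple_rx _ h2
    rwa [EPG.map_rx_rx] at this
  · rw [if_neg c, List.map_id] at h2
    exact h2

theorem h7_two : ∀ (l : List Pt), YDec l → 3 ≤ l.length → 2 ≤ (h7_dd l).length
  | [], _, h => by simp at h
  | [_], _, h => by simp at h
  | [_, _], _, h => by simp at h
  | p :: q :: r :: l, h, _ => by
    rw [h7_dd]
    split_ifs with hpq
    · have hqr : q ≠ r := by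
        intro h1
        have := h.2.2.1
        rw [hpq, h1] at this
        exact lt_irrefl _ this
      rw [h7_dd, if_neg hqr, List.length_cons]
      have := h7_pos r l
      omega
    · rw [List.length_cons]
      have := h7_pos q (r :: l)
      omega

/-- block H7: from strictly monotone lists to simple polylines in the sense of the base library
(remove repeated points) -/
theorem simple_of_mono (l : List Pt) (hm : Mono l) (h3 : 3 ≤ l.length) :
    ∃ l' : List Pt, EPG.Simple l' ∧ 2 ≤ l'.length ∧ l'.length ≤ l.length ∧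
      EPG.hcov l' = {r | HOn l r.1 r.2} ∧ EPG.vcov l' = {r | VOn l r.1 r.2} := by
  obtain ⟨s, hs⟩ := hm
  refine ⟨h7_dd l, ?_, ?_, h7_len l, ?_, ?_⟩
  · apply h7_simple_act s
    rw [← h7_dd_map]
    exact h7_simple_dec _ hs
  · have := h7_two _ hs (by rw [List.length_map]; exact h3)
    rwa [h7_dd_map, List.length_map] at this
  · rw [h7_hcov_dd, h7_hcov]
  · rw [h7_vcov_dd, h7_vcov]

end Pool.Agent.BN
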