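import Mathlib
import Pool.Agent.Lib_helper30.BN.Defs
import Pool.Agent.Lib_helper32.EPG.Apex
import Pool.Agent.Lib_helper30.BN.TreeDefs
set_option autoImplicit false

/-! Block J1: apex vertex -/

namespace Pool.Agent.BN
open Act

/-- block J1: apex vertex -/
theorem stw_succ {V : Type} (G : SimpleGraph V) (k : ℕ) (h : EPG.StwLE k G) :
    EPG.StwLE (k + 1) G := EPG.stw_succ G k h

end Pool.Agent.BN
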