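import Mathlib
import Pool.Agent.Lib_helper30.BN.Defs
set_option autoImplicit false

namespace Pool.Agent.BN
open Act

variable {V : Type}

theorem a4_tail (n : ℕ) : ∀ (γ h : ℕ → ℚ) (_ : StrictAnti h) (p : Pt) (_ : h 0 < p.2),
    YDec (p :: (p.1, h 0) :: vg γ h n) := by
  induction n with
  | zero =>
    intro γ h hh p hp
    exact ⟨Or.inl rfl, le_of_lt hp⟩
  | succ n ih =>
    intro γ h hh p hp
    have h1 : h 1 < h 0 := hh (by norm_num)
    have hh' : StrictAnti (fun i => h (i + 1)) := fun a b hab => hh (by omega)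
    refine ⟨Or.inl rfl, le_of_lt hp, hp, ?_⟩
    refine ⟨Or.inr rfl, le_refl _, h1, ?_⟩
    exact ih (fun i => γ (i + 1)) (fun i => h (i + 1)) hh' (γ 0, h 0) h1

theorem a4_pre (c tl t' : Pt) (rest : List Pt) (h1 : YDec (c :: t' :: rest)) (h2 : t'.2 < c.2) :
    ∀ q : List Pt, YDec (q ++ [c, tl]) → YDec (q ++ c :: t' :: rest)
  | [] => fun _ => h1
  | [a] => fun h => by
      obtain ⟨g1, g2, g3, g4⟩ := h
      exact ⟨g1, g2, lt_of_lt_of_le h2 g2, h1⟩
  | [a, b] => fun h => by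
      obtain ⟨g1, g2, g3, g4⟩ := h
      exact ⟨g1, g2, g3, a4_pre c tl t' rest h1 h2 [b] g4⟩
  | a :: b :: d :: q => fun h => by
      obtain ⟨g1, g2, g3, g4⟩ := h
      exact ⟨g1, g2, g3, a4_pre c tl t' rest h1 h2 (b :: d :: q) g4⟩

theorem yDec_z (A : Act V) (γ h : ℕ → ℚ) (n : ℕ) (hs : StdStart A) (hh : StrictAnti h)
    (h0 : h 0 < A.c.2) : YDec (zpath A γ h n) := by
  have e : zpath A γ h n = A.q ++ A.c :: (A.c.1, h 0) :: vg γ h n := by
    unfold zpath
    rw [List.append_assoc]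
    rfl
  rw [e]
  exact a4_pre A.c A.tl (A.c.1, h 0) (vg γ h n) (a4_tail n γ h hh A.c h0) h0 A.q hs.dec

theorem a4_length (n : ℕ) : ∀ (γ h : ℕ → ℚ), (vg γ h n).length = 2 * n := by
  induction n with
  | zero => intro γ h; rfl
  | succ n ih =>
    intro γ h
    change (vg (fun i => γ (i + 1)) (fun i => h (i + 1)) n).length + 1 + 1 = 2 * (n + 1)
    rw [ih]
    ring

theorem length_z (A : Act V) (γ h : ℕ → ℚ) (n : ℕ) :
    (zpath A γ h n).length = A.q.length + 2 + 2 * n := by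
  unfold zpath
  rw [List.length_append, List.length_append, a4_length]
  rfl

end Pool.Agent.BN
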