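import Mathlib
import Pool.Agent.Lib_helper30.BN.Defs
import Pool.Agent.Lib_helper30.BN.P.A4
set_option autoImplicit false

namespace Pool.Agent.BN
open Act

variable {V : Type}

section core
variable [DecidableEq V] {G : SimpleGraph V} {ph : V → Prop} {k : ℕ} {D : Finset V}
    {P : V → List Pt} {A : Act V} {L : List (Act V)} {c : Crd A} {γ : ℕ → ℚ} {n : ℕ} {R : ℚ}
    {y : V} {rq : ℕ → Req V} {M : ℕ}

theorem z_path (H : Core G ph k D P A L c γ n R y rq M) (hy : ¬ ph y) :
    Mono (zpath A γ c.h n) ∧ 3 ≤ (zpath A γ c.h n).length ∧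
      (zpath A γ c.h n).length ≤ 2 * k - 1 := by
  have hn := H.gam.pos
  have hl := H.len hy
  have hup := H.std.up
  have h0 : c.h 0 < A.c.2 := lt_trans (lt_trans (c.hw1 0) (c.hw2 0)) hup
  have hy' := yDec_z A γ c.h n H.std c.hh h0
  have hlen := length_z A γ c.h n
  refine ⟨⟨(false, false, false), ?_⟩, by omega, by omega⟩
  have e : (act (false, false, false) : Pt → Pt) = id := by
    funext p
    rfl
  rw [e, List.map_id]
  exact hy'

end core

end Pool.Agent.BN
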